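import Pool.Agent.Lib.MP_63f67f_co.Defs

/-!
# Codegree Turan densities of single 3-graphs of unbounded algebraic degree (MP_63f67f_co, k = 3)

Definitions.  Paper proof: table `papers`, id 450.
-/

set_option autoImplicit false

open Finset

namespace CT3

/-- the labels `D`, `A i` (`i < g`), `B i` (`i ≤ g`), `E i` (`i < κ`) -/
inductive Lab (g κ : ℕ) : Type
  | D : Lab g κ
  | A : Fin g → Lab g κ
  | B : Fin (g + 1) → Lab g κ
  | E : Fin κ → Lab g κ
  deriving DecidableEq, Fintype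

section Dyn

variable {V : Type} [Fintype V] [DecidableEq V] {M : Type} [Fintype M] [DecidableEq M]

/-- `w` is missed by all pairs `x ∈ X p.1`, `y ∈ X p.2` -/
def core (H : Finset (Finset V)) (X : M → Finset V) (p : M × M) : Finset V :=
  univ.filter (fun w => ∀ x ∈ X p.1, ∀ y ∈ X p.2, ({x, y, w} : Finset V) ∉ H)

/-- the vertices certified to have label `l` by the rule `ρ` -/
def step (H : Finset (Finset V)) (ρ : M → M × M) (X : M → Finset V) (l : M) : Finset V :=
  univ.filter (fun w => ∀ j, j ≠ l → w ∉ core H X (ρ j))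

/-- the vertices certified to have every label -/
def WW (H : Finset (Finset V)) (ρ : M → M × M) (X : M → Finset V) : Finset V :=
  univ.filter (fun w => ∀ j, w ∉ core H X (ρ j))

/-- the vertices not extending `x, y` to an edge -/
def CC (H : Finset (Finset V)) (x y : V) : Finset V :=
  univ.filter (fun w => ({x, y, w} : Finset V) ∉ H)

/-- the canonical rule -/
def can (M : Type) : M → M × M := fun j => (j, j)

end Dyn

section Lab

variable (g κ : ℕ)

/-- the rule `rul i`: canonical except that `B (i+1)` is excluded by pairs of type `(A i, B i)` -/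
def rul (i : Fin g) : Lab g κ → Lab g κ × Lab g κ :=
  Function.update (can (Lab g κ)) (Lab.B i.succ) (Lab.A i, Lab.B i.castSucc)

/-- the period `m!` -/
def N0 : ℕ := (Fintype.card (Lab g κ)).factorial

open Classical in
/-- the schedule of the rules -/
noncomputable def sched (t : ℕ) : Lab g κ → Lab g κ × Lab g κ :=
  if h : ∃ i : Fin g, t = 2 + ((i : ℕ) + 1) * N0 g κ then rul g κ h.choose else can (Lab g κ)

/-- the final time -/
def TT : ℕ := 2 + (g + 1) * N0 g κ

variable {V : Type} [Fintype V] [DecidableEq V]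

/-- the certified families, starting with a state `st` -/
noncomputable def fam (H : Finset (Finset V)) (st : Lab g κ → V × V) : ℕ → Lab g κ → Finset V
  | 0, l => {(st l).1, (st l).2}
  | t + 1, l => step H (sched g κ t) (fam H st t) l

/-- the link of `v` contains the forbidden labelled graph -/
def Cond (H : Finset (Finset V)) (X : Lab g κ → Finset V) (v : V) : Prop :=
  ∀ b : Fin (g + 1), ∃ x : Fin (κ + 1) → V, (∀ i, x i ∈ X (Lab.B b)) ∧
    (∀ i j, i ≠ j → ({v, x i, x j} : Finset V) ∈ H) ∧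
    ∀ b' : Fin g, b = b'.castSucc → ∀ i, ∃ a ∈ X (Lab.A b'), ({v, x i, a} : Finset V) ∈ H

/-- the gadget for the state `st` -/
def Gad (H : Finset (Finset V)) (st : Lab g κ → V × V) : Prop :=
  ∃ v ∈ fam g κ H st (TT g κ + 1) Lab.D, Cond g κ H (fam g κ H st (TT g κ)) v

/-- overwrite the `k`-th pair -/
def upd {m : ℕ} {V : Type} (R : Fin m → V × V) (k : ℕ) (p : V × V) : Fin m → V × V :=
  fun j => if (j : ℕ) = k then p else R j

/-- the root formula -/
def Root (H : Finset (Finset V)) (m : ℕ) : ℕ → ℕ → (Fin m → V × V) → Prop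
  | 0, _, R => ∀ τ : Lab g κ → Fin m, Gad g κ H (fun l => R (τ l))
  | r + 1, k, R => ∃ u : Fin (m + 1) → V,
      (∀ i, ∀ j : Fin m, (j : ℕ) < k → ({(R j).1, (R j).2, u i} : Finset V) ∈ H) ∧
      ∀ a b : Fin (m + 1), a ≠ b → Root H m r (k + 1) (upd R k (u a, u b))

/-- the sentence -/
def Sent (H : Finset (Finset V)) : Prop :=
  ∃ R : Fin (Fintype.card (Lab g κ)) → V × V,
    Root g κ H (Fintype.card (Lab g κ)) (Fintype.card (Lab g κ)) 0 R

/-- good 3-graphs -/
def Good3 (H : Finset (Finset V)) : Prop :=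
  ∃ χ : V → Lab g κ,
    (∀ x y z, ({x, y, z} : Finset V) ∈ H → ¬ (χ x = χ y ∧ χ y = χ z)) ∧
    (∀ x y z, ({x, y, z} : Finset V) ∈ H → ∀ i : Fin g,
      ¬ (χ x = Lab.A i ∧ χ y = Lab.B i.castSucc ∧ χ z = Lab.B i.succ)) ∧
    ∀ v, χ v = Lab.D → ¬ Cond g κ H (fun l => univ.filter (fun w => χ w = l)) v

end Lab

/-- primitive positive predicates: predicates given by a finite list of triples of variables -/
abbrev Pred (ι : Type) : Type 1 :=
  ∀ (V : Type) [Fintype V] [DecidableEq V], Finset (Finset V) → (ι → V) → Prop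

/-- the predicate `P` is primitive positive on 3-graphs -/
def IsPP {ι : Type} (P : Pred ι) : Prop :=
  ∃ (κ E : Type) (_ : Fintype κ) (_ : Fintype E) (f : E → Fin 3 → ι ⊕ κ),
    ∀ (V : Type) [Fintype V] [DecidableEq V] (H : Finset (Finset V)), CT.Unif 3 H → ∀ v : ι → V,
      P V H v ↔ ∃ w : κ → V, ∀ e, univ.image (fun i => Sum.elim v w (f e i)) ∈ H

/-- the real parameters (paper, section 2) -/
structure Par (g κ : ℕ) where
  lam : ℝ
  P : ℕ → ℝ
  Q : ℕ → ℝ
  P0 : P 0 = lam
  Ps : ∀ b, b < g → P (b + 1) = lam - Q b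
  rel : ∀ b, b < g → (κ : ℝ) * Q b ^ 2 = 4 * P b * (Q b - 1)
  Q1 : ∀ b, b < g → 1 < Q b
  Q2 : ∀ b, b < g → Q b < 2
  Pg : P g = κ

/-- the number `e = 1/(m - 1/lam)` -/
noncomputable def Par.e {g κ : ℕ} (p : Par g κ) : ℝ :=
  1 / ((Fintype.card (Lab g κ) : ℝ) - 1 / p.lam)

/-- the weights of the canonical pair types -/
noncomputable def Par.wt {g κ : ℕ} (p : Par g κ) : Lab g κ → ℝ
  | Lab.D => 1 - 1 / p.lam
  | Lab.A _ => 1
  | Lab.B b => p.P b / p.lam
  | Lab.E _ => 1

section Miss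

variable {V : Type} [Fintype V] [DecidableEq V] {M : Type}

/-- the proportion of pairs of type `p` which miss `w` -/
noncomputable def ms (H : Finset (Finset V)) (X : M → Finset V) (p : M × M) (w : V) : ℝ :=
  (((X p.1 ×ˢ X p.2).filter (fun q => ({q.1, q.2, w} : Finset V) ∉ H)).card : ℝ) /
    (((X p.1).card : ℝ) * ((X p.2).card : ℝ))

/-- the weighted number of pairs missing `w` -/
noncomputable def cnt {g κ : ℕ} (p : Par g κ) (H : Finset (Finset V)) (X : Lab g κ → Finset V)
    (w : V) : ℝ :=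
  ∑ j, p.wt j * ms H X (j, j) w +
    ∑ i : Fin g, p.Q i / p.lam * ms H X (Lab.A i, Lab.B i.castSucc) w

end Miss

/-- the skeleton of a non-collapsed family -/
structure Skel {V : Type} [Fintype V] [DecidableEq V] {M : Type} [Fintype M] [DecidableEq M]
    (H : Finset (Finset V)) (C E : M → Finset V) (φ : Equiv.Perm M) (a s : ℝ) : Prop where
  disj : ∀ i j, i ≠ j → Disjoint (E i) (E j)
  cov : ∀ i, ∀ x ∈ C i, ∀ y ∈ C i, x ≠ y → ∀ w ∈ E i, ({x, y, w} : Finset V) ∉ H
  lowE : ∀ i, a - s - 1 ≤ ((E i).card : ℝ)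
  upE : ∀ i, ((E i).card : ℝ) ≤ a
  rest : ((univ \ univ.biUnion E).card : ℝ) ≤ s + 2
  mis : ∀ i, ((E i \ C (φ i)).card : ℝ) ≤ s + Fintype.card M

/-- real parameters for the lower bound (paper, section 3) -/
structure LPar {g κ : ℕ} (p : Par g κ) where
  r : ℕ → ℝ
  z : ℕ → ℝ
  r0 : ∀ b, 0 ≤ r b
  r1 : ∀ b, r b ≤ 1
  rg : r g = 0
  z0 : ∀ b, 0 ≤ z b
  zsum : ∑ b ∈ range (g + 1), z b = 1
  next : ∀ b, b < g → z b * r b = z (b + 1) * (1 - r (b + 1)) ^ 2 / κ
  lsum : ∑ b ∈ range (g + 1), z b * (1 - r b) ^ 2 / κ = 1 / p.lam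

/-- `L b`, the loss of the class `B b` -/
noncomputable def LPar.L {g κ : ℕ} {p : Par g κ} (l : LPar p) (b : ℕ) : ℝ :=
  l.z b * (1 - l.r b) ^ 2 / κ

end CT3
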