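import Pool.Agent.Lib.MP_63f67f_co_k3.Defs

section

section

/-!
# Closure properties of primitive positive predicates, I

`pp_congr` is immediate.  `pp_atom`: `κ = Empty`, `E = Unit`, `f () = ![inl a, inl b, inl c]`.
`pp_all`: `κ = Σ i, κ i`, `E = Σ i, E i`.
-/

set_option autoImplicit false

open Finset

namespace CT3

theorem pp_congr {ι : Type} {P Q : Pred ι} (hP : IsPP P)
    (h : ∀ (V : Type) [Fintype V] [DecidableEq V] (H : Finset (Finset V)), CT.Unif 3 H →
      ∀ v : ι → V, Q V H v ↔ P V H v) : IsPP Q := by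
  obtain ⟨κ, E, iκ, iE, f, hf⟩ := hP
  exact ⟨κ, E, iκ, iE, f, fun V _ _ H hH v => (h V H hH v).trans (hf V H hH v)⟩

theorem pp_atom {ι : Type} (a b c : ι) :
    IsPP (fun V _ _ H (v : ι → V) => ({v a, v b, v c} : Finset V) ∈ H) := by
  refine ⟨Empty, Unit, inferInstance, inferInstance,
    fun _ => ![Sum.inl a, Sum.inl b, Sum.inl c], ?_⟩
  intro V _ _ H _ v
  have key : ∀ w : Empty → V, univ.image (fun i : Fin 3 =>
      Sum.elim v w ((![Sum.inl a, Sum.inl b, Sum.inl c] : Fin 3 → ι ⊕ Empty) i)) =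
        ({v a, v b, v c} : Finset V) := by
    intro w
    ext x
    simp only [mem_image, mem_univ, true_and, mem_insert, mem_singleton]
    constructor
    · rintro ⟨i, rfl⟩
      fin_cases i
      · exact Or.inl rfl
      · exact Or.inr (Or.inl rfl)
      · exact Or.inr (Or.inr rfl)
    · rintro (h | h | h)
      · exact ⟨0, h.symm⟩
      · exact ⟨1, h.symm⟩
      · exact ⟨2, h.symm⟩
  constructor
  · intro h
    refine ⟨fun e => e.elim, fun _ => ?_⟩
    rw [key]
    exact h
  · rintro ⟨w, hw⟩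
    have := hw ()
    rwa [key] at this

theorem pp_true {ι : Type} : IsPP (fun V _ _ _ (_ : ι → V) => True) := by
  refine ⟨Empty, Empty, inferInstance, inferInstance, fun e => e.elim, ?_⟩
  intro V _ _ H _ v
  exact ⟨fun _ => ⟨fun e => e.elim, fun e => e.elim⟩, fun _ => trivial⟩

theorem pp_all {ι I : Type} [Finite I] {P : I → Pred ι} (h : ∀ i, IsPP (P i)) :
    IsPP (fun V _ _ H (v : ι → V) => ∀ i, P i V H v) := by
  classical
  haveI : Fintype I := Fintype.ofFinite I
  choose κ E iκ iE f hf using h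
  refine ⟨Σ i, κ i, Σ i, E i, inferInstance, inferInstance,
    fun p j => Sum.map id (Sigma.mk p.1) (f p.1 p.2 j), ?_⟩
  intro V _ _ H hH v
  have key : ∀ (w : (Σ i, κ i) → V) (p : Σ i, E i), (fun j : Fin 3 =>
      Sum.elim v w (Sum.map id (Sigma.mk p.1) (f p.1 p.2 j))) =
        fun j => Sum.elim v (fun c => w ⟨p.1, c⟩) (f p.1 p.2 j) := by
    intro w p
    funext j
    rcases f p.1 p.2 j with x | x <;> rfl
  constructor
  · intro hP
    choose w hw using fun i => (hf i V H hH v).1 (hP i)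
    refine ⟨fun p => w p.1 p.2, fun p => ?_⟩
    rw [key]
    exact hw p.1 p.2
  · rintro ⟨w, hw⟩ i
    refine (hf i V H hH v).2 ⟨fun c => w ⟨i, c⟩, fun e => ?_⟩
    have := hw ⟨i, e⟩
    rwa [key] at this

end CT3
end

section

/-!
# Closure properties of primitive positive predicates, II

`pp_and`: from `pp_all` over `Bool`.  `pp_imp`: if `c` is true it is `P`, otherwise `pp_true`.
`pp_ex`: new existential variables `κ' ⊕ κ`.  `pp_rename`: compose `f` with `Sum.map r id`.
-/

set_option autoImplicit false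

open Finset

namespace CT3

theorem pp_and {ι : Type} {P Q : Pred ι} (hP : IsPP P) (hQ : IsPP Q) :
    IsPP (fun V _ _ H (v : ι → V) => P V H v ∧ Q V H v) := by
  have h : ∀ b : Bool, IsPP ((fun b : Bool => (Bool.rec Q P b : Pred ι)) b) := by
    intro b
    cases b
    · exact hQ
    · exact hP
  refine pp_congr (pp_all h) ?_
  intro V _ _ H _ v
  constructor
  · rintro ⟨h1, h2⟩ b
    cases b
    · exact h2
    · exact h1
  · intro h
    exact ⟨h true, h false⟩

theorem pp_imp {ι : Type} (c : Prop) {P : Pred ι} (hP : IsPP P) :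
    IsPP (fun V _ _ H (v : ι → V) => c → P V H v) := by
  by_cases hc : c
  · refine pp_congr hP ?_
    intro V _ _ H _ v
    exact ⟨fun h => h hc, fun h _ => h⟩
  · refine pp_congr pp_true ?_
    intro V _ _ H _ v
    exact ⟨fun _ => trivial, fun _ h => absurd h hc⟩

theorem pp_ex {ι κ' : Type} [Fintype κ'] {P : Pred (ι ⊕ κ')} (hP : IsPP P) :
    IsPP (fun V _ _ H (v : ι → V) => ∃ u : κ' → V, P V H (Sum.elim v u)) := by
  obtain ⟨κ, E, hκ, hE, f, hf⟩ := hP
  refine ⟨κ' ⊕ κ, E, inferInstance, hE, fun e i => Equiv.sumAssoc ι κ' κ (f e i), ?_⟩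
  intro V _ _ H hH v
  have key : ∀ (u : κ' → V) (w : κ → V) (z : (ι ⊕ κ') ⊕ κ),
      Sum.elim v (Sum.elim u w) (Equiv.sumAssoc ι κ' κ z) = Sum.elim (Sum.elim v u) w z := by
    intro u w z
    rcases z with (z | z) | z <;> rfl
  constructor
  · rintro ⟨u, hu⟩
    obtain ⟨w, hw⟩ := (hf V H hH _).1 hu
    refine ⟨Sum.elim u w, fun e => ?_⟩
    simp only [key]
    exact hw e
  · rintro ⟨w', hw'⟩
    refine ⟨w' ∘ Sum.inl, (hf V H hH _).2 ⟨w' ∘ Sum.inr, fun e => ?_⟩⟩
    have h2 := hw' e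
    have h3 : w' = Sum.elim (w' ∘ Sum.inl) (w' ∘ Sum.inr) := (Sum.elim_comp_inl_inr w').symm
    rw [h3] at h2
    simp only [key] at h2
    exact h2

theorem pp_rename {ι ι' : Type} (r : ι → ι') {P : Pred ι} (hP : IsPP P) :
    IsPP (fun V _ _ H (v : ι' → V) => P V H (v ∘ r)) := by
  obtain ⟨κ, E, hκ, hE, f, hf⟩ := hP
  refine ⟨κ, E, hκ, hE, fun e i => Sum.map r id (f e i), ?_⟩
  intro V _ _ H hH v
  have key : ∀ (w : κ → V) (z : ι ⊕ κ),
      Sum.elim v w (Sum.map r id z) = Sum.elim (v ∘ r) w z := by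
    intro w z
    rcases z with z | z <;> rfl
  simp only [key]
  exact hf V H hH _

end CT3
end

section

/-!
# Definitions for the lower bound (paper, section 3)
-/

set_option autoImplicit false

open Finset

namespace CT3

/-- fine labels: the label `D` is split into `g + 1` parts -/
inductive FL (g κ : ℕ) : Type
  | D : Fin (g + 1) → FL g κ
  | A : Fin g → FL g κ
  | B : Fin (g + 1) → FL g κ
  | E : Fin κ → FL g κ
  deriving DecidableEq, Fintype

variable {g κ : ℕ}

/-- the label of a fine label -/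
def FL.lab : FL g κ → Lab g κ
  | FL.D _ => Lab.D
  | FL.A i => Lab.A i
  | FL.B b => Lab.B b
  | FL.E i => Lab.E i

variable {V : Type} [Fintype V] [DecidableEq V]

/-- the excluded ordered triples -/
def Bad (χ : V → FL g κ) (col : V → V → Fin (κ + 1)) (x y z : V) : Prop :=
  ((χ x).lab = (χ y).lab ∧ (χ y).lab = (χ z).lab) ∨
  (∃ i : Fin g, χ x = FL.A i ∧ χ y = FL.B i.castSucc ∧ χ z = FL.B i.succ) ∨
  (∃ c, χ x = FL.D c ∧ χ y = FL.B c ∧ χ z = FL.B c ∧ col x y = col x z ∧ col x y ≠ 0) ∨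
  (∃ i : Fin g, χ x = FL.D i.castSucc ∧ χ y = FL.B i.castSucc ∧ χ z = FL.A i ∧ col x y = 0)

open Classical in
/-- the 3-graph of the lower bound -/
noncomputable def HH (χ : V → FL g κ) (col : V → V → Fin (κ + 1)) : Finset (Finset V) :=
  (powersetCard 3 univ).filter (fun e => ∀ x y z, e = {x, y, z} → ¬ Bad χ col x y z)

/-- size conditions -/
structure LB (χ : V → FL g κ) (col : V → V → Fin (κ + 1)) (a : ℝ) : Prop where
  hD : ((univ.filter (fun w => (χ w).lab = Lab.D)).card : ℝ) ≤ a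
  hA : ∀ i, ((univ.filter (fun w => χ w = FL.A i)).card : ℝ) ≤ a
  hB : ∀ b, ((univ.filter (fun w => χ w = FL.B b)).card : ℝ) ≤ a
  hE : ∀ i, ((univ.filter (fun w => χ w = FL.E i)).card : ℝ) ≤ a
  hBB : ∀ b x y, x ≠ y → ((univ.filter (fun w => χ w = FL.B b)).card : ℝ) +
    ((univ.filter (fun w => χ w = FL.D b ∧ col w x = col w y ∧ col w x ≠ 0)).card : ℝ) ≤ a
  hAB : ∀ (i : Fin g) x, ((univ.filter (fun w => χ w = FL.B i.succ)).card : ℝ) +
    ((univ.filter (fun w => χ w = FL.D i.castSucc ∧ col w x = 0)).card : ℝ) ≤ a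
  last : ∀ v x, χ v = FL.D (Fin.last g) → col v x ≠ 0

end CT3
end
end

section

/-!
# The root formula from the gadgets

`card_common`: the set of the `w` with `{x j, y j, w} ∈ H` for all `j ∈ S` has at least `n - |S| a` elements
(union bound).  `Root_of_Gad`: induction on `r` with `k + r = m`, if `(R j).1 ≠ (R j).2` for all `j < k`
then `Root .. r k R`: choose the `u i` pairwise distinct in the common neighbourhood of the first
`k ≤ m - 1` pairs.
-/

set_option autoImplicit false

open Finset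

namespace CT3

variable {g κ : ℕ} {V : Type} [Fintype V] [DecidableEq V] {H : Finset (Finset V)} {a : ℝ}

theorem card_common {J : Type} [DecidableEq J] (S : Finset J) (x y : J → V)
    (hcc : ∀ x y, x ≠ y → ((CC H x y).card : ℝ) ≤ a) (hxy : ∀ j ∈ S, x j ≠ y j) :
    (Fintype.card V : ℝ) - (S.card : ℝ) * a ≤
      ((univ.filter (fun w => ∀ j ∈ S, ({x j, y j, w} : Finset V) ∈ H)).card : ℝ) := by
  have h1 : (univ : Finset V) ⊆ univ.filter (fun w => ∀ j ∈ S, ({x j, y j, w} : Finset V) ∈ H) ∪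
      S.biUnion (fun j => CC H (x j) (y j)) := by
    intro w _
    by_cases hw : ∀ j ∈ S, ({x j, y j, w} : Finset V) ∈ H
    · exact mem_union_left _ (by simpa using hw)
    · push Not at hw
      obtain ⟨j, hj, hjw⟩ := hw
      refine mem_union_right _ (mem_biUnion.2 ⟨j, hj, ?_⟩)
      simpa [CC] using hjw
  have h2 : Fintype.card V ≤
      (univ.filter (fun w => ∀ j ∈ S, ({x j, y j, w} : Finset V) ∈ H)).card +
        ∑ j ∈ S, (CC H (x j) (y j)).card := by
    calc Fintype.card V = (univ : Finset V).card := rfl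
      _ ≤ _ := card_le_card h1
      _ ≤ _ := card_union_le _ _
      _ ≤ _ := by gcongr; exact card_biUnion_le
  have h3 : ((∑ j ∈ S, (CC H (x j) (y j)).card : ℕ) : ℝ) ≤ (S.card : ℝ) * a := by
    push_cast
    calc ∑ j ∈ S, ((CC H (x j) (y j)).card : ℝ) ≤ ∑ _j ∈ S, a :=
          sum_le_sum fun j hj => hcc _ _ (hxy j hj)
      _ = (S.card : ℝ) * a := by rw [sum_const, nsmul_eq_mul]
  have h4 : (Fintype.card V : ℝ) ≤
      ((univ.filter (fun w => ∀ j ∈ S, ({x j, y j, w} : Finset V) ∈ H)).card : ℝ) +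
        ((∑ j ∈ S, (CC H (x j) (y j)).card : ℕ) : ℝ) := by exact_mod_cast h2
  linarith

private theorem Root_aux (m : ℕ) (ha : 0 ≤ a) (hcc : ∀ x y, x ≠ y → ((CC H x y).card : ℝ) ≤ a)
    (hn : ((m : ℝ) - 1) * a + (m : ℝ) + 1 ≤ (Fintype.card V : ℝ))
    (hG : ∀ st : Lab g κ → V × V, (∀ l, (st l).1 ≠ (st l).2) → Gad g κ H st) :
    ∀ (r k : ℕ), k + r = m → ∀ R : Fin m → V × V,
        (∀ j : Fin m, (j : ℕ) < k → (R j).1 ≠ (R j).2) → Root g κ H m r k R := by
  intro r
  induction r with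
  | zero =>
    intro k hk R hR τ
    refine hG _ fun l => hR _ ?_
    have := (τ l).isLt
    omega
  | succ r ih =>
    intro k hk R hR
    obtain ⟨W, hW⟩ : ∃ W : Finset V, W = univ.filter (fun w => ∀ j ∈ univ.filter
      (fun j : Fin m => (j : ℕ) < k), ({(R j).1, (R j).2, w} : Finset V) ∈ H) := ⟨_, rfl⟩
    have hS : (Fintype.card V : ℝ) -
        ((univ.filter (fun j : Fin m => (j : ℕ) < k)).card : ℝ) * a ≤ (W.card : ℝ) := by
      rw [hW]
      convert card_common (H := H) (a := a) (univ.filter (fun j : Fin m => (j : ℕ) < k))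
        (fun j => (R j).1) (fun j => (R j).2) hcc (fun j hj => hR j (by simpa using hj))
    have hScard : (univ.filter (fun j : Fin m => (j : ℕ) < k)).card ≤ k := by
      have : (univ.filter (fun j : Fin m => (j : ℕ) < k)).card ≤ (range k).card := by
        refine card_le_card_of_injOn (fun j => (j : ℕ)) ?_ ?_
        · intro j hj
          simpa using hj
        · intro i _ j _ hij
          exact Fin.ext hij
      simpa using this
    have hkm : (k : ℝ) ≤ (m : ℝ) - 1 := by
      have : k + 1 ≤ m := by omega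
      have : ((k + 1 : ℕ) : ℝ) ≤ (m : ℝ) := by exact_mod_cast this
      push_cast at this; linarith
    have hWc : (m : ℝ) + 1 ≤ (W.card : ℝ) := by
      have h1 : ((univ.filter (fun j : Fin m => (j : ℕ) < k)).card : ℝ) ≤ (k : ℝ) := by
        exact_mod_cast hScard
      have h2 : ((univ.filter (fun j : Fin m => (j : ℕ) < k)).card : ℝ) * a ≤ ((m : ℝ) - 1) * a :=
        mul_le_mul_of_nonneg_right (h1.trans hkm) ha
      linarith
    have hWc' : m + 1 ≤ W.card := by exact_mod_cast hWc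
    have hemb : Nonempty (Fin (m + 1) ↪ W) := by
      refine Function.Embedding.nonempty_of_card_le ?_
      simpa using hWc'
    obtain ⟨f⟩ := hemb
    refine ⟨fun i => (f i : V), ?_, ?_⟩
    · intro i j hj
      have h5 : ∀ w ∈ W, ({(R j).1, (R j).2, w} : Finset V) ∈ H := by
        intro w hw
        rw [hW, mem_filter] at hw
        exact hw.2 j (by simpa using hj)
      exact h5 _ (f i).2
    · intro i j hij
      refine ih (k + 1) (by omega) _ ?_
      intro l hl
      simp only [upd]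
      split_ifs with h
      · intro he
        exact hij (f.injective (Subtype.ext he))
      · exact hR l (by omega)

theorem Sent_of_Gad (ha : 0 ≤ a) (hcc : ∀ x y, x ≠ y → ((CC H x y).card : ℝ) ≤ a)
    (hn : ((Fintype.card (Lab g κ) : ℝ) - 1) * a + (Fintype.card (Lab g κ) : ℝ) + 1 ≤ (Fintype.card V : ℝ))
    (hG : ∀ st : Lab g κ → V × V, (∀ l, (st l).1 ≠ (st l).2) → Gad g κ H st) : Sent g κ H := by
  have hpos : 1 ≤ Fintype.card (Lab g κ) := Fintype.card_pos_iff.2 ⟨Lab.D⟩
  have hpos' : (1 : ℝ) ≤ (Fintype.card (Lab g κ) : ℝ) := by exact_mod_cast hpos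
  have h0 : 0 ≤ ((Fintype.card (Lab g κ) : ℝ) - 1) * a := mul_nonneg (by linarith) ha
  have hV : 0 < Fintype.card V := by
    have : (0 : ℝ) < (Fintype.card V : ℝ) := by linarith
    exact_mod_cast this
  obtain ⟨v⟩ := Fintype.card_pos_iff.1 hV
  exact ⟨fun _ => (v, v), Root_aux _ ha hcc hn hG _ 0 (by simp) _ (fun j hj => absurd hj (by omega))⟩

end CT3
end

section

/-!
# Facts on the parameters

From `rel`: `P b > 0` for `b < g` (as `Q b > 1`, `κ ≥ 1`); `P g = κ`.  `lam = κ + Q (g-1)`.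
Weights: `P b / lam ≤ 1`: `P 0 = lam`, `P (b+1) = lam - Q b`.  `≥ 1/2`: `P (b+1) ≥ lam - 2`, `lam ≥ 4`.
`wt_total`: `∑ wt = (1 - 1/lam) + g + κ + ∑_{b ≤ g} P b/lam` and `P 0/lam = 1`, `P (b+1)/lam + Q b/lam = 1`.
-/

set_option autoImplicit false

open Finset

namespace CT3

private def labEquiv (g κ : ℕ) : Lab g κ ≃ Unit ⊕ (Fin g ⊕ (Fin (g + 1) ⊕ Fin κ)) where
  toFun l := match l with
    | Lab.D => Sum.inl ()
    | Lab.A i => Sum.inr (Sum.inl i)
    | Lab.B i => Sum.inr (Sum.inr (Sum.inl i))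
    | Lab.E i => Sum.inr (Sum.inr (Sum.inr i))
  invFun l := match l with
    | Sum.inl () => Lab.D
    | Sum.inr (Sum.inl i) => Lab.A i
    | Sum.inr (Sum.inr (Sum.inl i)) => Lab.B i
    | Sum.inr (Sum.inr (Sum.inr i)) => Lab.E i
  left_inv l := by cases l <;> rfl
  right_inv l := by
    rcases l with ⟨⟩ | l | l | l <;> rfl

private theorem sum_Lab {g κ : ℕ} (f : Lab g κ → ℝ) :
    ∑ l, f l = f Lab.D + (∑ i, f (Lab.A i) + (∑ i, f (Lab.B i) + ∑ i, f (Lab.E i))) := by
  rw [← (labEquiv g κ).symm.sum_comp f, Fintype.sum_sum_type, Fintype.sum_sum_type,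
    Fintype.sum_sum_type, Fintype.sum_unique]
  rfl

theorem card_Lab (g κ : ℕ) : Fintype.card (Lab g κ) = 2 * g + 2 + κ := by
  rw [Fintype.card_congr (labEquiv g κ)]
  simp only [Fintype.card_sum, Fintype.card_unit, Fintype.card_fin]
  ring

variable {g κ : ℕ} (p : Par g κ)

private theorem Par.lam_eq (hg : 1 ≤ g) : p.lam = (κ : ℝ) + p.Q (g - 1) := by
  have h1 := p.Ps (g - 1) (by omega)
  have h2 : g - 1 + 1 = g := by omega
  rw [h2, p.Pg] at h1
  linarith

theorem Par.lam_gt (hg : 1 ≤ g) : (κ : ℝ) + 1 < p.lam := by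
  rw [p.lam_eq hg]
  have := p.Q1 (g - 1) (by omega)
  linarith

theorem Par.lam_lt (hg : 1 ≤ g) : p.lam < (κ : ℝ) + 2 := by
  rw [p.lam_eq hg]
  have := p.Q2 (g - 1) (by omega)
  linarith

theorem Par.P_pos (hκ : 1 ≤ κ) (b : ℕ) (hb : b ≤ g) : 0 < p.P b := by
  have hκ' : (0 : ℝ) < κ := by exact_mod_cast hκ
  rcases Nat.lt_or_ge b g with h | h
  · have h1 := p.rel b h
    have h2 := p.Q1 b h
    have h3 : 0 < (κ : ℝ) * p.Q b ^ 2 := by positivity
    by_contra hneg
    push Not at hneg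
    have h4 : p.P b * (p.Q b - 1) ≤ 0 :=
      mul_nonpos_of_nonpos_of_nonneg hneg (by linarith)
    nlinarith
  · have : b = g := le_antisymm hb h
    rw [this, p.Pg]
    exact hκ'

private theorem Par.lam_pos (hg : 1 ≤ g) : 0 < p.lam := by
  have h1 := p.lam_gt hg
  have h2 : (0 : ℝ) ≤ κ := Nat.cast_nonneg κ
  linarith

theorem Par.wt_half (hg : 1 ≤ g) (hκ : 4 ≤ κ) (l : Lab g κ) : 1 / 2 ≤ p.wt l := by
  have h1 := p.lam_gt hg
  have h2 : (4 : ℝ) ≤ κ := by exact_mod_cast hκ
  have h3 := p.lam_pos hg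
  cases l with
  | D =>
    change 1 / 2 ≤ 1 - 1 / p.lam
    have : 1 / p.lam ≤ 1 / 2 := by
      apply one_div_le_one_div_of_le (by norm_num)
      linarith
    linarith
  | A i =>
    change 1 / 2 ≤ (1 : ℝ)
    norm_num
  | B b =>
    change 1 / 2 ≤ p.P b / p.lam
    rw [le_div_iff₀ h3]
    induction b using Fin.cases with
    | zero =>
      simp only [Fin.val_zero]
      rw [p.P0]
      linarith
    | succ b =>
      simp only [Fin.val_succ]
      rw [p.Ps b b.2]
      have := p.Q2 b b.2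
      linarith
  | E i =>
    change 1 / 2 ≤ (1 : ℝ)
    norm_num

theorem Par.wt_succ (hg : 1 ≤ g) (hκ : 1 ≤ κ) (i : Fin g) :
    p.wt (Lab.B i.succ) + p.Q i / p.lam = 1 := by
  have h3 := p.lam_pos hg
  change p.P ((i.succ : Fin (g + 1)) : ℕ) / p.lam + p.Q i / p.lam = 1
  rw [Fin.val_succ, p.Ps i i.2, ← add_div, sub_add_cancel, div_self h3.ne']

theorem Par.wt_total (hg : 1 ≤ g) (hκ : 1 ≤ κ) :
    ∑ j, p.wt j + ∑ i : Fin g, p.Q i / p.lam = (Fintype.card (Lab g κ) : ℝ) - 1 / p.lam := by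
  have h3 := p.lam_pos hg
  rw [card_Lab, sum_Lab, Fin.sum_univ_succ (fun i : Fin (g + 1) => p.wt (Lab.B i))]
  have hB0 : p.wt (Lab.B (0 : Fin (g + 1)) : Lab g κ) = 1 := by
    change p.P ((0 : Fin (g + 1)) : ℕ) / p.lam = 1
    rw [Fin.val_zero, p.P0, div_self h3.ne']
  have hBs : ∑ i : Fin g, p.wt (Lab.B i.succ) + ∑ i : Fin g, p.Q i / p.lam = (g : ℝ) := by
    rw [← sum_add_distrib, sum_congr rfl (fun i _ => p.wt_succ hg hκ i)]
    simp
  have hA : ∑ i : Fin g, p.wt (Lab.A i) = (g : ℝ) := by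
    change ∑ i : Fin g, (1 : ℝ) = g
    simp
  have hE : ∑ i : Fin κ, p.wt (Lab.E i) = (κ : ℝ) := by
    change ∑ i : Fin κ, (1 : ℝ) = κ
    simp
  have hD : p.wt (Lab.D : Lab g κ) = 1 - 1 / p.lam := rfl
  rw [hA, hE, hD, hB0]
  push_cast
  linarith

theorem Par.e_pos (hg : 1 ≤ g) (hκ : 1 ≤ κ) : 0 < p.e := by
  have h1 := p.lam_gt hg
  have h2 : (1 : ℝ) ≤ κ := by exact_mod_cast hκ
  have h3 := p.lam_pos hg
  rw [Par.e, card_Lab]
  apply one_div_pos.2
  have h4 : 1 / p.lam < 1 := by
    rw [div_lt_one h3]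
    linarith
  have h5 : (0 : ℝ) ≤ g := Nat.cast_nonneg g
  push_cast
  linarith

end CT3
end

section

/-!
# Sizes

`card_core_le`: the core is contained in `CC H x y`.  `card_step_ge`: for the pairs `x j ≠ y j` of type `ρ j`,
the common neighbourhood of the pairs with `j ≠ l` (`card_common` with `S = univ.erase l`) is contained in
`step H ρ X l`.  `mono`-lemmas: `core` is antitone, `step` and `WW` are monotone in the family.
`step_inter`: a vertex in two certified sets is in `WW`.  `step_core`: a certified vertex outside `WW` is in the core.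
`card_rest`: every vertex outside `WW` is in some core `core H X (ρ j)`; a vertex outside all `step H ρ X i`
is in two of them (or more); `∑ |core| ≤ m a`.
-/

set_option autoImplicit false

open Finset

namespace CT3

variable {V : Type} [Fintype V] [DecidableEq V] {M : Type} [Fintype M] [DecidableEq M]
  {H : Finset (Finset V)} {a : ℝ}

theorem card_core_le (hcc : ∀ x y, x ≠ y → ((CC H x y).card : ℝ) ≤ a) {X : M → Finset V} {p : M × M}
    {x y : V} (hx : x ∈ X p.1) (hy : y ∈ X p.2) (hxy : x ≠ y) : ((core H X p).card : ℝ) ≤ a := by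
  have h1 : core H X p ⊆ CC H x y := by
    intro w hw
    exact mem_filter.2 ⟨mem_univ _, (mem_filter.1 hw).2 x hx y hy⟩
  have h2 : ((core H X p).card : ℝ) ≤ ((CC H x y).card : ℝ) := by
    exact_mod_cast card_le_card h1
  exact h2.trans (hcc x y hxy)

theorem card_step_ge (hcc : ∀ x y, x ≠ y → ((CC H x y).card : ℝ) ≤ a) {X : M → Finset V}
    {ρ : M → M × M} (hX : ∀ j, ∃ x ∈ X (ρ j).1, ∃ y ∈ X (ρ j).2, x ≠ y) (l : M) :
    (Fintype.card V : ℝ) - ((Fintype.card M : ℝ) - 1) * a ≤ ((step H ρ X l).card : ℝ) := by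
  choose x hx y hy hxy using hX
  have h1 := card_common (H := H) (a := a) (univ.erase l) x y hcc (fun j _ => hxy j)
  have h2 : (univ.filter (fun w => ∀ j ∈ univ.erase l, ({x j, y j, w} : Finset V) ∈ H))
      ⊆ step H ρ X l := by
    intro w hw
    refine mem_filter.2 ⟨mem_univ _, fun j hj hc => ?_⟩
    exact (mem_filter.1 hc).2 (x j) (hx j) (y j) (hy j)
      ((mem_filter.1 hw).2 j (mem_erase.2 ⟨hj, mem_univ _⟩))
  have h3 : ((univ.filter (fun w => ∀ j ∈ univ.erase l, ({x j, y j, w} : Finset V) ∈ H)).card : ℝ)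
      ≤ ((step H ρ X l).card : ℝ) := by exact_mod_cast card_le_card h2
  have h4 : (((univ : Finset M).erase l).card : ℝ) = (Fintype.card M : ℝ) - 1 := by
    rw [card_erase_of_mem (mem_univ l), card_univ,
      Nat.cast_sub (Fintype.card_pos_iff.2 ⟨l⟩), Nat.cast_one]
  rw [h4] at h1
  refine le_trans (h1.trans (le_of_eq ?_)) h3
  congr!

theorem core_anti {X X' : M → Finset V} (h : ∀ l, X l ⊆ X' l) (p : M × M) : core H X' p ⊆ core H X p := by
  intro w hw
  exact mem_filter.2 ⟨mem_univ _, fun x hx y hy => (mem_filter.1 hw).2 x (h _ hx) y (h _ hy)⟩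

theorem step_mono {X X' : M → Finset V} (h : ∀ l, X l ⊆ X' l) (ρ : M → M × M) (l : M) :
    step H ρ X l ⊆ step H ρ X' l := by
  intro w hw
  exact mem_filter.2 ⟨mem_univ _, fun j hj hc => (mem_filter.1 hw).2 j hj (core_anti h _ hc)⟩

theorem WW_mono {X X' : M → Finset V} (h : ∀ l, X l ⊆ X' l) (ρ : M → M × M) : WW H ρ X ⊆ WW H ρ X' := by
  intro w hw
  exact mem_filter.2 ⟨mem_univ _, fun j hc => (mem_filter.1 hw).2 j (core_anti h _ hc)⟩

theorem step_inter {X : M → Finset V} {ρ : M → M × M} {i j : M} (hij : i ≠ j) :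
    step H ρ X i ∩ step H ρ X j ⊆ WW H ρ X := by
  intro w hw
  rw [mem_inter] at hw
  refine mem_filter.2 ⟨mem_univ _, fun k => ?_⟩
  by_cases hk : k = i
  · exact (mem_filter.1 hw.2).2 k (hk ▸ hij)
  · exact (mem_filter.1 hw.1).2 k hk

theorem step_core {X : M → Finset V} {ρ : M → M × M} (i : M) :
    step H ρ X i \ WW H ρ X ⊆ core H X (ρ i) := by
  intro w hw
  rw [mem_sdiff] at hw
  by_contra hc
  apply hw.2
  refine mem_filter.2 ⟨mem_univ _, fun k => ?_⟩
  by_cases hk : k = i
  · rw [hk]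
    exact hc
  · exact (mem_filter.1 hw.1).2 k hk

end CT3
end

section

section

/-!
# The certified families are primitive positive

Induction on `t`.  For `t = 0`: `w ∈ step H (sched 0) X0 l` (note `sched g κ 0 = can _`, since
`0 ≠ 2 + _`) iff for all `j ≠ l` there are `x, y ∈ {(st j).1, (st j).2}` with `{x,y,w} ∈ H`, which for a
3-uniform `H` means `{(st j).1, (st j).2, w} ∈ H` (if `x = y` the set has at most 2 elements).
Step: `w ∈ step H ρ X l` iff for all `j ≠ l` there are `x ∈ X (ρ j).1`, `y ∈ X (ρ j).2` with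
`{x,y,w} ∈ H`; use `pp_all`, `pp_imp`, `pp_ex`, `pp_rename`, `pp_atom`, `pp_and`.
-/

set_option autoImplicit false

open Finset

namespace CT3

/-- membership in `step` -/
theorem mem_step {V : Type} [Fintype V] [DecidableEq V] {M : Type} [Fintype M] [DecidableEq M]
    {H : Finset (Finset V)} {ρ : M → M × M} {X : M → Finset V} {l : M} {w : V} :
    w ∈ step H ρ X l ↔ ∀ j, j ≠ l → ∃ x ∈ X (ρ j).1, ∃ y ∈ X (ρ j).2, ({x, y, w} : Finset V) ∈ H := by
  unfold step core
  simp only [mem_filter, mem_univ, true_and, not_forall, not_not, exists_prop]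

private theorem sched_zero (g κ : ℕ) : sched g κ 0 = can (Lab g κ) := by
  unfold sched
  rw [dif_neg]
  rintro ⟨i, hi⟩
  omega

/-- the pairs of the state -/
private theorem pair_iff {V : Type} [Fintype V] [DecidableEq V] {H : Finset (Finset V)}
    (hH : CT.Unif 3 H) (a b w : V) :
    (∃ x ∈ ({a, b} : Finset V), ∃ y ∈ ({a, b} : Finset V), ({x, y, w} : Finset V) ∈ H) ↔
      ({a, b, w} : Finset V) ∈ H := by
  have hd : ∀ x, ({x, x, w} : Finset V) ∉ H := by
    intro x hx
    have h3 := hH _ hx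
    have h2 : ({x, x, w} : Finset V).card ≤ 2 := by
      rw [insert_idem]; exact card_le_two
    omega
  constructor
  · rintro ⟨x, hx, y, hy, h⟩
    simp only [mem_insert, mem_singleton] at hx hy
    rcases hx with rfl | rfl <;> rcases hy with rfl | rfl
    · exact absurd h (hd _)
    · exact h
    · rwa [insert_comm] at h
    · exact absurd h (hd _)
  · intro h
    exact ⟨a, by simp, b, by simp, h⟩

theorem pp_fam (g κ : ℕ) (t : ℕ) (l : Lab g κ) :
    IsPP (fun V _ _ H (v : (Lab g κ × Bool) ⊕ Unit → V) =>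
      v (Sum.inr ()) ∈ fam g κ H (fun j => (v (Sum.inl (j, false)), v (Sum.inl (j, true)))) (t + 1) l) := by
  induction t generalizing l with
  | zero =>
    have h1 : IsPP (fun V _ _ H (v : (Lab g κ × Bool) ⊕ Unit → V) => ∀ j : Lab g κ, j ≠ l →
        ({v (Sum.inl (j, false)), v (Sum.inl (j, true)), v (Sum.inr ())} : Finset V) ∈ H) :=
      pp_all fun j => pp_imp (j ≠ l) (pp_atom _ _ _)
    refine pp_congr h1 ?_
    intro V _ _ H hH v
    show _ ∈ step H (sched g κ 0) _ l ↔ _
    rw [mem_step, sched_zero]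
    refine forall_congr' fun j => imp_congr_right fun _ => ?_
    exact pair_iff hH _ _ _
  | succ t ih =>
    have h1 : IsPP (fun V _ _ H (v : (Lab g κ × Bool) ⊕ Unit → V) => ∀ j : Lab g κ, j ≠ l →
        ∃ u : Bool → V,
          (u false ∈ fam g κ H (fun j => (v (Sum.inl (j, false)), v (Sum.inl (j, true)))) (t + 1)
            (sched g κ (t + 1) j).1 ∧
          (u true ∈ fam g κ H (fun j => (v (Sum.inl (j, false)), v (Sum.inl (j, true)))) (t + 1)
            (sched g κ (t + 1) j).2 ∧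
          ({u false, u true, v (Sum.inr ())} : Finset V) ∈ H))) := by
      refine pp_all fun j => pp_imp (j ≠ l) ?_
      have h2 := pp_rename (ι' := ((Lab g κ × Bool) ⊕ Unit) ⊕ Bool)
        (Sum.elim (fun p => Sum.inl (Sum.inl p)) (fun _ => Sum.inr false))
        (ih (sched g κ (t + 1) j).1)
      have h3 := pp_rename (ι' := ((Lab g κ × Bool) ⊕ Unit) ⊕ Bool)
        (Sum.elim (fun p => Sum.inl (Sum.inl p)) (fun _ => Sum.inr true))
        (ih (sched g κ (t + 1) j).2)
      have h4 := pp_atom (ι := ((Lab g κ × Bool) ⊕ Unit) ⊕ Bool) (Sum.inr false) (Sum.inr true)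
        (Sum.inl (Sum.inr ()))
      exact pp_ex (pp_and h2 (pp_and h3 h4))
    refine pp_congr h1 ?_
    intro V _ _ H hH v
    show _ ∈ step H (sched g κ (t + 1)) _ l ↔ _
    rw [mem_step]
    refine forall_congr' fun j => imp_congr_right fun _ => ?_
    constructor
    · rintro ⟨x, hx, y, hy, h⟩
      exact ⟨fun b => if b then y else x, hx, hy, h⟩
    · rintro ⟨u, hx, hy, h⟩
      exact ⟨_, hx, _, hy, h⟩

end CT3
end

section

/-!
# The 3-graph of the lower bound is good

`mem_HH`: membership for `{x, y, z}`.  `HH_good`: the labelling `(χ ·).lab`; if `χ v = D c` and `Cond` held then its part with index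
`c` gives `x 0, .., x κ` in class `B c` with `{v, x i, x j} ∈ H` for `i ≠ j`.  Their colours `col v (x i)` are nonzero: for `c = last` by
`hlast`; for `c = b'.castSucc`: `x i` has a neighbour `a` in the class `A b'`, and `col v (x i) = 0` would be `Bad` (last type).
So two of them have the same nonzero colour (`κ` colours, `κ + 1` vertices): `Bad` (third type), contradiction.
-/

set_option autoImplicit false

open Finset

namespace CT3

variable {g κ : ℕ} {V : Type} [Fintype V] [DecidableEq V]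

theorem HH_unif (χ : V → FL g κ) (col : V → V → Fin (κ + 1)) : CT.Unif 3 (HH χ col) := by
  classical
  intro e he
  unfold HH at he
  rw [mem_filter, mem_powersetCard] at he
  exact he.1.2

theorem HH_not_bad {χ : V → FL g κ} {col : V → V → Fin (κ + 1)} {x y z : V}
    (h : ({x, y, z} : Finset V) ∈ HH χ col) : ¬ Bad χ col x y z := by
  classical
  unfold HH at h
  rw [mem_filter] at h
  exact h.2 x y z rfl

private theorem lab_A {l : FL g κ} {i : Fin g} (h : l.lab = Lab.A i) : l = FL.A i := by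
  cases l <;> simp [FL.lab] at h
  rw [h]

private theorem lab_B {l : FL g κ} {i : Fin (g + 1)} (h : l.lab = Lab.B i) : l = FL.B i := by
  cases l <;> simp [FL.lab] at h
  rw [h]

private theorem lab_D {l : FL g κ} (h : l.lab = Lab.D) : ∃ c, l = FL.D c := by
  cases l <;> simp [FL.lab] at h
  exact ⟨_, rfl⟩

theorem HH_good (χ : V → FL g κ) (col : V → V → Fin (κ + 1))
    (hlast : ∀ v x, χ v = FL.D (Fin.last g) → col v x ≠ 0) : Good3 g κ (HH χ col) := by
  refine ⟨fun v => (χ v).lab, ?_, ?_, ?_⟩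
  · intro x y z h hxy
    exact HH_not_bad h (Or.inl hxy)
  · intro x y z h i hi
    exact HH_not_bad h (Or.inr (Or.inl ⟨i, lab_A hi.1, lab_B hi.2.1, lab_B hi.2.2⟩))
  · intro v hv hc
    obtain ⟨c, hvc⟩ := lab_D hv
    obtain ⟨x, hx1, hx2, hx3⟩ := hc c
    have hxB : ∀ i, χ (x i) = FL.B c := fun i => lab_B (mem_filter.1 (hx1 i)).2
    have hne : ∀ i, col v (x i) ≠ 0 := by
      rcases Fin.eq_castSucc_or_eq_last c with ⟨b', hb'⟩ | hl
      · intro i h0
        obtain ⟨a, ha, hva⟩ := hx3 b' hb' i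
        have haA : χ a = FL.A b' := lab_A (mem_filter.1 ha).2
        exact HH_not_bad hva (Or.inr (Or.inr (Or.inr
          ⟨b', by rw [hvc, hb'], by rw [hxB i, hb'], haA, h0⟩)))
      · intro i
        exact hlast v (x i) (by rw [hvc, hl])
    have hninj : ¬ Function.Injective (fun i => col v (x i)) := by
      intro hinj
      obtain ⟨i, hi⟩ := (Finite.injective_iff_surjective.1 hinj) 0
      exact hne i hi
    rw [Function.Injective] at hninj
    push Not at hninj
    obtain ⟨i, j, hij, hij'⟩ := hninj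
    exact HH_not_bad (hx2 i j hij') (Or.inr (Or.inr (Or.inl
      ⟨c, hvc, hxB i, hxB j, hij, hne i⟩)))

end CT3
end
end
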