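import Mathlib
import Pool.Agent.Lib.MP_63f67f_co_k3.L06
import Pool.Agent.Lib.MP_63f67f_co_k3.Defs
import Pool.Agent.Lib.MP_63f67f_co.B02

section

/-!
# Existence of the real parameters (paper, section 2), I

`PP κ lam b` is the sequence `P b` with the clipped square root: `P 0 = lam`, `r b = √(max 0 (1 - κ / P b))`,
`Q b = 2 / (1 + r b)`, `P (b+1) = lam - Q b`.

`PP_ge`: since `1 ≤ 1 + r`, `Q ≤ 2`.  `PP_cont`: induction; `P b ≥ κ - 2 > 0` on the interval.  `PP_left`: `P 0 = κ`, `r 0 = 0`,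
`P 1 = κ - 2`, `r 1 = 0` (as `1 - κ/(κ-2) < 0`), ..., `P b = κ - 2` for `b ≥ 1`.  `PP_right`: induction `κ < P b`: then
`r b > 0`, `Q b < 2`, `P (b+1) > κ`.
-/

set_option autoImplicit false

open Finset

namespace CT3

/-- the clipped sequence -/
noncomputable def PP (κ lam : ℝ) : ℕ → ℝ
  | 0 => lam
  | b + 1 => lam - 2 / (1 + √(max 0 (1 - κ / PP κ lam b)))

theorem PP_ge {κ lam : ℝ} (hκ : 3 ≤ κ) (h : κ ≤ lam) (b : ℕ) : κ - 2 ≤ PP κ lam b := by
  cases b with
  | zero =>
    change κ - 2 ≤ lam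
    linarith
  | succ b =>
    change κ - 2 ≤ lam - 2 / (1 + √(max 0 (1 - κ / PP κ lam b)))
    have h0 : 0 ≤ √(max 0 (1 - κ / PP κ lam b)) := Real.sqrt_nonneg _
    have h1 : 2 / (1 + √(max 0 (1 - κ / PP κ lam b))) ≤ 2 := by
      rw [div_le_iff₀ (by linarith)]
      linarith
    linarith

theorem PP_cont {κ : ℝ} (hκ : 3 ≤ κ) (b : ℕ) :
    ContinuousOn (fun lam => PP κ lam b) (Set.Icc κ (κ + 2)) := by
  induction b with
  | zero =>
    change ContinuousOn (fun lam => lam) (Set.Icc κ (κ + 2))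
    exact continuousOn_id
  | succ b ih =>
    change ContinuousOn (fun lam => lam - 2 / (1 + √(max 0 (1 - κ / PP κ lam b))))
      (Set.Icc κ (κ + 2))
    have hne : ∀ lam ∈ Set.Icc κ (κ + 2), PP κ lam b ≠ 0 := by
      intro lam hlam
      have := PP_ge hκ hlam.1 b
      intro h0
      rw [h0] at this
      linarith
    have h1 : ContinuousOn (fun lam => 1 - κ / PP κ lam b) (Set.Icc κ (κ + 2)) :=
      continuousOn_const.sub (continuousOn_const.div ih hne)
    have h2 : ContinuousOn (fun lam => √(max 0 (1 - κ / PP κ lam b))) (Set.Icc κ (κ + 2)) :=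
      Real.continuous_sqrt.comp_continuousOn (continuousOn_const.sup h1)
    refine continuousOn_id.sub (continuousOn_const.div (continuousOn_const.add h2) ?_)
    intro lam _
    have h0 : 0 ≤ √(max 0 (1 - κ / PP κ lam b)) := Real.sqrt_nonneg _
    exact ne_of_gt (by linarith)

theorem PP_left {κ : ℝ} (hκ : 3 ≤ κ) (b : ℕ) : PP κ κ (b + 1) = κ - 2 := by
  induction b with
  | zero =>
    change κ - 2 / (1 + √(max 0 (1 - κ / κ))) = κ - 2
    have h1 : 1 - κ / κ = 0 := by
      rw [div_self (by linarith), sub_self]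
    rw [h1, max_self, Real.sqrt_zero]
    norm_num
  | succ b ih =>
    change κ - 2 / (1 + √(max 0 (1 - κ / PP κ κ (b + 1)))) = κ - 2
    rw [ih]
    have h1 : 1 - κ / (κ - 2) ≤ 0 := by
      have h2 : 1 ≤ κ / (κ - 2) := by
        rw [le_div_iff₀ (by linarith)]
        linarith
      linarith
    rw [max_eq_left h1, Real.sqrt_zero]
    norm_num

theorem PP_right {κ : ℝ} (hκ : 3 ≤ κ) (b : ℕ) : κ < PP κ (κ + 2) b := by
  induction b with
  | zero =>
    change κ < κ + 2
    linarith
  | succ b ih =>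
    change κ < κ + 2 - 2 / (1 + √(max 0 (1 - κ / PP κ (κ + 2) b)))
    have h1 : 0 < 1 - κ / PP κ (κ + 2) b := by
      have h2 : κ / PP κ (κ + 2) b < 1 := by
        rw [div_lt_one (by linarith)]
        exact ih
      linarith
    have h0 : 0 < √(max 0 (1 - κ / PP κ (κ + 2) b)) :=
      Real.sqrt_pos.2 (lt_max_of_lt_right h1)
    have h3 : 2 / (1 + √(max 0 (1 - κ / PP κ (κ + 2) b))) < 2 := by
      rw [div_lt_iff₀ (by linarith)]
      linarith
    linarith

/-- the intermediate value theorem -/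
theorem PP_exists {κ : ℝ} (hκ : 3 ≤ κ) (g : ℕ) (hg : 1 ≤ g) :
    ∃ lam : ℝ, κ < lam ∧ lam < κ + 2 ∧ PP κ lam g = κ := by
  obtain ⟨b, rfl⟩ : ∃ b, g = b + 1 := ⟨g - 1, by omega⟩
  have hl := PP_left hκ b
  have hr := PP_right hκ (b + 1)
  have hmem : κ ∈ Set.Icc ((fun lam => PP κ lam (b + 1)) κ)
      ((fun lam => PP κ lam (b + 1)) (κ + 2)) := by
    refine ⟨?_, hr.le⟩
    change PP κ κ (b + 1) ≤ κ
    linarith
  obtain ⟨lam, hlam, heq⟩ :=
    intermediate_value_Icc (by linarith : κ ≤ κ + 2) (PP_cont hκ (b + 1)) hmem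
  have heq' : PP κ lam (b + 1) = κ := heq
  refine ⟨lam, lt_of_le_of_ne hlam.1 ?_, lt_of_le_of_ne hlam.2 ?_, heq'⟩
  · intro h
    rw [← h] at heq'
    linarith
  · intro h
    rw [h] at heq'
    linarith

end CT3
end

section

/-!
# `lam` is algebraic (paper, section 6)

`AB κ k = (A_k, B_k)` in `ℚ[X]`: `(A_0, B_0) = (κ, 1)`, `A_(k+1) = κ (X B_k - A_k)^2`, `B_(k+1) = 4 B_k (X B_k - A_k - B_k)`.
`AB_eval`: for `k ≤ g`: `B_k(lam) ≠ 0` and `A_k(lam) = P (g-k) B_k(lam)` (induction: with `b = g-k-1`, `Q b = lam - P (b+1)`,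
`κ Q b ^2 = 4 P b (Q b - 1)`, `Q b > 1`).  `AB_at`: `A_k(κ+2) = κ B_k(κ+2)`, `B_k(κ+2) ≠ 0`.
`lam_alg`: the polynomial `A_g - X B_g` vanishes at `lam` (`P 0 = lam`) and has the value `-2 B_g(κ+2) ≠ 0` at `κ + 2`.
-/

set_option autoImplicit false

open Polynomial

namespace CT3

/-- the polynomials -/
noncomputable def AB (κ : ℕ) : ℕ → ℚ[X] × ℚ[X]
  | 0 => (C (κ : ℚ), 1)
  | k + 1 => (C (κ : ℚ) * (X * (AB κ k).2 - (AB κ k).1) ^ 2,
      4 * (AB κ k).2 * (X * (AB κ k).2 - (AB κ k).1 - (AB κ k).2))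

theorem AB_at (κ k : ℕ) : ((AB κ k).1).eval ((κ : ℚ) + 2) = κ * ((AB κ k).2).eval ((κ : ℚ) + 2) ∧
    ((AB κ k).2).eval ((κ : ℚ) + 2) ≠ 0 := by
  induction k with
  | zero =>
    simp [AB]
  | succ k ih =>
    obtain ⟨h1, h2⟩ := ih
    simp only [AB, eval_mul, eval_pow, eval_sub, eval_C, eval_X]
    have h4 : eval ((κ : ℚ) + 2) (4 : ℚ[X]) = 4 := by
      simp
    rw [h4, h1]
    set b := eval ((κ : ℚ) + 2) (AB κ k).2 with hb
    have h5 : ((κ : ℚ) + 2) * b - κ * b = 2 * b := by ring
    have h6 : ((κ : ℚ) + 2) * b - κ * b - b = b := by ring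
    rw [h6, h5]
    refine ⟨by ring, ?_⟩
    have : (4 : ℚ) * b * b = 4 * (b * b) := by ring
    rw [this]
    exact mul_ne_zero (by norm_num) (mul_ne_zero h2 h2)

theorem AB_eval {g κ : ℕ} (p : Par g κ) (k : ℕ) (hk : k ≤ g) :
    aeval p.lam (AB κ k).2 ≠ 0 ∧ aeval p.lam (AB κ k).1 = p.P (g - k) * aeval p.lam (AB κ k).2 := by
  induction k with
  | zero =>
    simp only [AB, Nat.sub_zero, map_one, mul_one, aeval_C]
    refine ⟨one_ne_zero, ?_⟩
    rw [p.Pg]
    simp
  | succ k ih =>
    obtain ⟨h1, h2⟩ := ih (by omega)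
    obtain ⟨b, hb⟩ : ∃ b, b = g - (k + 1) := ⟨_, rfl⟩
    have hb1 : b < g := by omega
    have hb2 : g - k = b + 1 := by omega
    rw [hb2, p.Ps b hb1] at h2
    rw [← hb]
    simp only [AB, map_mul, map_pow, map_sub, aeval_C, aeval_X]
    have h4 : aeval p.lam (4 : ℚ[X]) = (4 : ℝ) := map_ofNat (aeval p.lam) 4
    have h5 : (algebraMap ℚ ℝ) (κ : ℚ) = (κ : ℝ) := by
      simp
    rw [h4, h5, h2]
    set β := aeval p.lam (AB κ k).2 with hβ
    have h6 : p.lam * β - (p.lam - p.Q b) * β = p.Q b * β := by ring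
    rw [h6]
    have h7 : p.Q b * β - β = (p.Q b - 1) * β := by ring
    rw [h7]
    have h8 := p.rel b hb1
    have h9 := p.Q1 b hb1
    refine ⟨?_, ?_⟩
    · have : (4 : ℝ) * β * ((p.Q b - 1) * β) = 4 * (p.Q b - 1) * (β * β) := by ring
      rw [this]
      exact mul_ne_zero (mul_ne_zero (by norm_num) (by linarith)) (mul_ne_zero h1 h1)
    · linear_combination (β ^ 2) * h8

theorem lam_alg {g κ : ℕ} (p : Par g κ) : IsAlgebraic ℚ p.lam := by
  refine ⟨(AB κ g).1 - X * (AB κ g).2, ?_, ?_⟩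
  · intro h
    have h1 := congrArg (eval ((κ : ℚ) + 2)) h
    obtain ⟨h2, h3⟩ := AB_at κ g
    rw [eval_sub, eval_mul, eval_X, eval_zero, h2] at h1
    apply h3
    linarith
  · obtain ⟨-, h2⟩ := AB_eval p g le_rfl
    rw [map_sub, map_mul, aeval_X, h2, Nat.sub_self, p.P0, sub_self]

end CT3
end

section

/-!
# Existence of the real parameters (paper, section 2), II

Take `lam` from `PP_exists`, `P b = PP κ lam b`, `r b = √(max 0 (1 - κ / P b))`, `Q b = 2 / (1 + r b)`.
`PP_pos`: `κ < P b` for `b < g` (equivalently `r b > 0`): for `b = g - 1`: `κ = P g = lam - Q (g-1)` and `lam < κ + 2` give `Q (g-1) < 2`,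
so `r (g-1) > 0`.  If `P b ≤ κ` for some `b`, then (`PP_down`) `r b = 0`, `Q b = 2`, `P (b+1) = lam - 2 < κ`, and so on up to
`P (g-1) ≤ κ`, contradiction.  Then `r b ^ 2 = 1 - κ / P b`, `0 < r b < 1`, `P b (1 - r b ^ 2) = κ`, so `1 < Q b < 2` and
`κ Q^2 = 4 κ / (1+r)^2 = 4 P (1 - r)/(1 + r) = 4 P (Q - 1)`.
-/

set_option autoImplicit false

open Finset

namespace CT3

private theorem PP_step {κ lam : ℝ} (hκ : 3 ≤ κ) (h1 : κ < lam) {b : ℕ} (h : PP κ lam b ≤ κ) :
    PP κ lam (b + 1) = lam - 2 := by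
  have h0 : 0 < PP κ lam b := by
    have := PP_ge hκ h1.le b
    linarith
  have h3 : max 0 (1 - κ / PP κ lam b) = 0 := by
    apply max_eq_left
    have : 1 ≤ κ / PP κ lam b := by rwa [one_le_div h0]
    linarith
  have h4 : PP κ lam (b + 1) = lam - 2 / (1 + √(max 0 (1 - κ / PP κ lam b))) := rfl
  rw [h4, h3, Real.sqrt_zero]
  norm_num

theorem PP_down {κ lam : ℝ} (hκ : 3 ≤ κ) (h1 : κ < lam) (h2 : lam < κ + 2) {b : ℕ} (h : PP κ lam b ≤ κ) (k : ℕ) :
    PP κ lam (b + k) ≤ κ := by
  induction k with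
  | zero => exact h
  | succ k ih =>
    have := PP_step hκ h1 ih
    rw [← add_assoc, this]
    linarith

theorem PP_pos {κ lam : ℝ} (hκ : 3 ≤ κ) (h1 : κ < lam) (h2 : lam < κ + 2) {g : ℕ} (h3 : PP κ lam g = κ) (b : ℕ)
    (hb : b < g) : κ < PP κ lam b := by
  by_contra hcon
  push Not at hcon
  have h4 := PP_down hκ h1 h2 hcon (g - 1 - b)
  have h5 : b + (g - 1 - b) = g - 1 := by omega
  rw [h5] at h4
  have h6 := PP_step hκ h1 h4
  have h7 : g - 1 + 1 = g := by omega
  rw [h7, h3] at h6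
  linarith

theorem exists_par (g κ : ℕ) (hg : 1 ≤ g) (hκ : 3 ≤ κ) : Nonempty (Par g κ) := by
  have hκR : (3 : ℝ) ≤ (κ : ℝ) := by exact_mod_cast hκ
  obtain ⟨lam, h1, h2, h3⟩ := PP_exists hκR g hg
  have hr : ∀ b, b < g → ∃ r : ℝ, √(max 0 (1 - κ / PP κ lam b)) = r ∧ 0 < r ∧ r < 1 ∧
      PP κ lam b * (1 - r ^ 2) = κ := by
    intro b hb
    have hp := PP_pos hκR h1 h2 h3 b hb
    have hP0 : 0 < PP κ lam b := by linarith
    have hd : κ / PP κ lam b < 1 := by rwa [div_lt_one hP0]
    have hd0 : 0 < (κ : ℝ) / PP κ lam b := div_pos (by linarith) hP0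
    have hm : max 0 (1 - κ / PP κ lam b) = 1 - κ / PP κ lam b := max_eq_right (by linarith)
    refine ⟨√(1 - κ / PP κ lam b), by rw [hm], Real.sqrt_pos.2 (by linarith), ?_, ?_⟩
    · rw [Real.sqrt_lt' one_pos]
      linarith
    · rw [Real.sq_sqrt (by linarith)]
      field_simp
      ring
  refine ⟨{
    lam := lam
    P := fun b => PP κ lam b
    Q := fun b => 2 / (1 + √(max 0 (1 - κ / PP κ lam b)))
    P0 := rfl
    Ps := fun b _ => rfl
    rel := ?_
    Q1 := ?_
    Q2 := ?_
    Pg := h3 }⟩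
  · intro b hb
    obtain ⟨r, hr1, hr2, hr3, hr4⟩ := hr b hb
    simp only [hr1]
    have hne : (1 + r) ≠ 0 := by linarith
    have key : ∀ P k : ℝ, k * (2 / (1 + r)) ^ 2 - 4 * P * (2 / (1 + r) - 1) =
        (k - P * (1 - r ^ 2)) * (4 / (1 + r) ^ 2) := by
      intro P k
      field_simp
      ring
    have h5 := key (PP κ lam b) κ
    rw [hr4, sub_self, zero_mul] at h5
    linarith
  · intro b hb
    obtain ⟨r, hr1, hr2, hr3, hr4⟩ := hr b hb
    simp only [hr1]
    rw [lt_div_iff₀ (by linarith)]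
    linarith
  · intro b hb
    obtain ⟨r, hr1, hr2, hr3, hr4⟩ := hr b hb
    simp only [hr1]
    rw [div_lt_iff₀ (by linarith)]
    linarith

end CT3
end

section

/-!
# The parameters of the lower bound (paper, section 3)

`rr p b = 2 / Q b - 1` for `b < g` and `0` for `b ≥ g`; `0 < rr p b < 1` for `b < g` (`1 < Q b < 2`).
`rr_rel`: from `κ Q^2 = 4 P (Q - 1)` with `Q = 2/(1+r)`: `κ = P (1 - r) (1 + r)`.
`rr_one`: `P b (1 - r b)^2/κ + Q b r b = (1-r)/(1+r) + 2r/(1+r) = 1`.
`zz p 0 = 1`, `zz p (b+1) = κ zz p b rr p b / (1 - rr p (b+1))^2`; `LPar`: `z b = zz p b / ∑_{c ≤ g} zz p c`.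
`lsum`: with `L b = z b (1 - r b)^2/κ`: `P b L b + Q b L (b+1) = z b` (`b < g`, `rr_one` and `next`),
`P g L g = κ L g = z g`.  Sum over `b ≤ g`, `P 0 = lam`, `P (b+1) + Q b = lam`: `lam ∑ L b = ∑ z b = 1`.
-/

set_option autoImplicit false

open Finset

namespace CT3

variable {g κ : ℕ} (p : Par g κ)

/-- the marked proportions -/
noncomputable def Par.rr (b : ℕ) : ℝ := if b < g then 2 / p.Q b - 1 else 0

theorem Par.rr_pos (b : ℕ) (hb : b < g) : 0 < p.rr b := by
  have h1 := p.Q1 b hb
  have h2 := p.Q2 b hb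
  have hQ : 0 < p.Q b := by linarith
  unfold Par.rr
  rw [if_pos hb]
  have : 1 < 2 / p.Q b := by
    rw [lt_div_iff₀ hQ]
    linarith
  linarith

theorem Par.rr_lt (b : ℕ) : p.rr b < 1 := by
  unfold Par.rr
  by_cases hb : b < g
  · rw [if_pos hb]
    have h1 := p.Q1 b hb
    have hQ : 0 < p.Q b := by linarith
    have : 2 / p.Q b < 2 := by
      rw [div_lt_iff₀ hQ]
      linarith
    linarith
  · rw [if_neg hb]
    norm_num

theorem Par.rr_rel (hκ : 1 ≤ κ) (b : ℕ) (hb : b < g) : (κ : ℝ) = p.P b * (1 - p.rr b) * (1 + p.rr b) := by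
  have _ := hκ
  have h1 := p.Q1 b hb
  have hQ : 0 < p.Q b := by linarith
  have hrel := p.rel b hb
  unfold Par.rr
  rw [if_pos hb]
  have e1 : p.P b * (1 - (2 / p.Q b - 1)) * (1 + (2 / p.Q b - 1)) =
      4 * p.P b * (p.Q b - 1) / p.Q b ^ 2 := by
    field_simp
    ring
  rw [e1, ← hrel]
  field_simp

theorem Par.rr_one (hκ : 1 ≤ κ) (b : ℕ) (hb : b < g) :
    p.P b * ((1 - p.rr b) ^ 2 / κ) + p.Q b * p.rr b = 1 := by
  have hκ' : (0 : ℝ) < κ := by exact_mod_cast hκ
  have h1 := p.Q1 b hb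
  have hQ : 0 < p.Q b := by linarith
  have hrel := p.rel b hb
  unfold Par.rr
  rw [if_pos hb]
  have e1 : p.P b * ((1 - (2 / p.Q b - 1)) ^ 2 / κ) =
      (4 * p.P b * (p.Q b - 1)) * (p.Q b - 1) / (p.Q b ^ 2 * κ) := by
    field_simp
    ring
  rw [e1, ← hrel]
  field_simp
  ring

/-- the unnormalized sizes -/
noncomputable def Par.zz : ℕ → ℝ
  | 0 => 1
  | b + 1 => κ * Par.zz b * p.rr b / (1 - p.rr (b + 1)) ^ 2

private theorem zz_nonneg_R03 (b : ℕ) : 0 ≤ p.zz b := by
  induction b with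
  | zero => exact zero_le_one
  | succ b ih =>
    show 0 ≤ κ * Par.zz p b * p.rr b / (1 - p.rr (b + 1)) ^ 2
    have h : 0 ≤ p.rr b := by
      by_cases hb : b < g
      · exact (p.rr_pos b hb).le
      · unfold Par.rr
        rw [if_neg hb]
    positivity

theorem exists_lpar (hg : 1 ≤ g) (hκ : 1 ≤ κ) : Nonempty (LPar p) := by
  have hκ' : (0 : ℝ) < κ := by exact_mod_cast hκ
  have hS : 0 < ∑ c ∈ range (g + 1), p.zz c := by
    rw [Finset.sum_range_succ']
    have h1 : 0 ≤ ∑ c ∈ range g, p.zz (c + 1) :=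
      Finset.sum_nonneg fun c _ => zz_nonneg_R03 p (c + 1)
    have h2 : p.zz 0 = 1 := rfl
    rw [h2]
    linarith
  have hr0 : ∀ b, 0 ≤ p.rr b := by
    intro b
    by_cases hb : b < g
    · exact (p.rr_pos b hb).le
    · unfold Par.rr
      rw [if_neg hb]
  have hrg : p.rr g = 0 := by
    unfold Par.rr
    rw [if_neg (lt_irrefl g)]
  have hnext : ∀ b, b < g → p.zz b / (∑ c ∈ range (g + 1), p.zz c) * p.rr b =
      p.zz (b + 1) / (∑ c ∈ range (g + 1), p.zz c) * (1 - p.rr (b + 1)) ^ 2 / κ := by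
    intro b _
    have h1 : (1 - p.rr (b + 1)) ≠ 0 := by
      have := p.rr_lt (b + 1)
      intro h
      linarith
    have h2 : p.zz (b + 1) = κ * p.zz b * p.rr b / (1 - p.rr (b + 1)) ^ 2 := rfl
    rw [h2]
    field_simp
  have hzsum : ∑ b ∈ range (g + 1), p.zz b / (∑ c ∈ range (g + 1), p.zz c) = 1 := by
    rw [← Finset.sum_div]
    exact div_self hS.ne'
  have hlam : 0 < p.lam := by
    have h1 := p.Q1 0 hg
    have h2 := p.rel 0 hg
    rw [p.P0] at h2
    by_contra hcon
    have h3 : p.lam ≤ 0 := not_lt.1 hcon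
    have h4 : 0 < (κ : ℝ) * p.Q 0 ^ 2 := by positivity
    have h5 : 4 * p.lam * (p.Q 0 - 1) ≤ 0 :=
      mul_nonpos_of_nonpos_of_nonneg (by linarith) (by linarith)
    linarith
  refine ⟨⟨p.rr, fun b => p.zz b / ∑ c ∈ range (g + 1), p.zz c, hr0, fun b => (p.rr_lt b).le, hrg,
    fun b => div_nonneg (zz_nonneg_R03 p b) hS.le, hzsum, hnext, ?_⟩⟩
  -- the sum of the losses
  set z : ℕ → ℝ := fun b => p.zz b / ∑ c ∈ range (g + 1), p.zz c with hz
  set L : ℕ → ℝ := fun b => z b * (1 - p.rr b) ^ 2 / κ with hL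
  have hnext' : ∀ b, b < g → z b * p.rr b = L (b + 1) := fun b hb => hnext b hb
  have h1 : ∀ b ∈ range g, p.P b * L b + p.Q b * L (b + 1) = z b := by
    intro b hb
    have hb' := mem_range.1 hb
    rw [← hnext' b hb']
    have h2 := p.rr_one hκ b hb'
    calc p.P b * L b + p.Q b * (z b * p.rr b)
        = z b * (p.P b * ((1 - p.rr b) ^ 2 / κ) + p.Q b * p.rr b) := by
          simp only [hL]
          ring
      _ = z b := by rw [h2, mul_one]
  have h2 : p.P g * L g = z g := by
    simp only [hL]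
    rw [p.Pg, hrg]
    field_simp
    ring
  have h3 : ∑ b ∈ range g, (p.P b * L b + p.Q b * L (b + 1)) + p.P g * L g = 1 := by
    rw [Finset.sum_congr rfl h1, h2, ← Finset.sum_range_succ]
    exact hzsum
  have h4 : ∑ b ∈ range g, (p.P b * L b + p.Q b * L (b + 1)) + p.P g * L g =
      p.lam * ∑ b ∈ range (g + 1), L b := by
    have h5 : ∑ b ∈ range (g + 1), p.P b * L b =
        ∑ b ∈ range g, p.P (b + 1) * L (b + 1) + p.P 0 * L 0 := Finset.sum_range_succ' _ _
    have h6 : ∑ b ∈ range (g + 1), p.P b * L b =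
        ∑ b ∈ range g, p.P b * L b + p.P g * L g := Finset.sum_range_succ _ _
    have h7 : ∑ b ∈ range g, p.P (b + 1) * L (b + 1) =
        ∑ b ∈ range g, (p.lam - p.Q b) * L (b + 1) := by
      refine Finset.sum_congr rfl fun b hb => ?_
      rw [p.Ps b (mem_range.1 hb)]
    rw [Finset.sum_add_distrib]
    have h8 : ∑ b ∈ range (g + 1), L b = ∑ b ∈ range g, L (b + 1) + L 0 :=
      Finset.sum_range_succ' _ _
    rw [h8, mul_add, Finset.mul_sum]
    have h9 : ∑ b ∈ range g, (p.lam - p.Q b) * L (b + 1) + ∑ b ∈ range g, p.Q b * L (b + 1) =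
        ∑ b ∈ range g, p.lam * L (b + 1) := by
      rw [← Finset.sum_add_distrib]
      refine Finset.sum_congr rfl fun b _ => ?_
      ring
    rw [p.P0] at h5
    linarith
  have h5 : p.lam * ∑ b ∈ range (g + 1), L b = 1 := by rw [← h4, h3]
  show ∑ b ∈ range (g + 1), L b = 1 / p.lam
  rw [eq_div_iff hlam.ne', mul_comm]
  exact h5

end CT3
end

section

/-!
# The gadget in the collapsed case

Choose any `v`; greedily choose `x 0, .., x κ` with `{v, x i, x j} ∈ H` for `i ≠ j`: `x 0 ≠ v`, and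
`x (i+1)` in the common neighbourhood of the pairs `(v, x j)`, `j ≤ i` (`card_common`, at least `n - κ a > 0`
elements); every pair `(v, x i)` has a neighbour.
-/

set_option autoImplicit false

open Finset

namespace CT3

variable {V : Type} [Fintype V] [DecidableEq V] {H : Finset (Finset V)} {a : ℝ} {g κ : ℕ}

private theorem y04_greedy (ha0 : 0 ≤ a) (hcc : ∀ x y, x ≠ y → ((CC H x y).card : ℝ) ≤ a)
    (ha : ((κ : ℝ) + 1) * a + 2 < Fintype.card V) (v : V) :
    ∀ m : ℕ, m ≤ κ + 1 → ∃ x : ℕ → V, (∀ i < m, x i ≠ v) ∧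
      ∀ i < m, ∀ j < m, i ≠ j → ({v, x i, x j} : Finset V) ∈ H := by
  intro m
  induction m with
  | zero => exact fun _ => ⟨fun _ => v, fun i hi => absurd hi (Nat.not_lt_zero i),
      fun i hi => absurd hi (Nat.not_lt_zero i)⟩
  | succ m ih =>
    intro hm
    obtain ⟨x, hx1, hx2⟩ := ih (by omega)
    have hc := card_common (H := H) (a := a) (range m) (fun _ => v) x hcc
      (fun j hj => (hx1 j (mem_range.1 hj)).symm)
    rw [card_range] at hc
    have hmκ : (m : ℝ) ≤ κ + 1 := by
      have : m ≤ κ + 1 := by omega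
      exact_mod_cast this
    have h1 : (m : ℝ) * a ≤ ((κ : ℝ) + 1) * a := mul_le_mul_of_nonneg_right hmκ ha0
    have h2 : (1 : ℝ) < ((univ.filter
        (fun w => ∀ j ∈ range m, ({v, x j, w} : Finset V) ∈ H)).card : ℝ) := by linarith
    have h3 : 1 < (univ.filter
        (fun w => ∀ j ∈ range m, ({v, x j, w} : Finset V) ∈ H)).card := by exact_mod_cast h2
    obtain ⟨w, hw, hwv⟩ := Finset.exists_mem_ne h3 v
    rw [mem_filter] at hw
    have hw2 := hw.2
    refine ⟨Function.update x m w, ?_, ?_⟩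
    · intro i hi
      rcases Nat.lt_succ_iff_lt_or_eq.1 hi with h | h
      · rw [Function.update_of_ne h.ne]
        exact hx1 i h
      · rw [h, Function.update_self]
        exact hwv
    · intro i hi j hj hij
      rcases Nat.lt_succ_iff_lt_or_eq.1 hi with h | h
      · rcases Nat.lt_succ_iff_lt_or_eq.1 hj with h' | h'
        · rw [Function.update_of_ne h.ne, Function.update_of_ne h'.ne]
          exact hx2 i h j h' hij
        · rw [h', Function.update_of_ne h.ne, Function.update_self]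
          exact hw2 i (mem_range.2 h)
      · rcases Nat.lt_succ_iff_lt_or_eq.1 hj with h' | h'
        · rw [h, Function.update_of_ne h'.ne, Function.update_self, Finset.pair_comm w (x j)]
          exact hw2 j (mem_range.2 h')
        · exact absurd (h.trans h'.symm) hij

theorem Cond_univ (hU : CT.Unif 3 H) (ha0 : 0 ≤ a) (hcc : ∀ x y, x ≠ y → ((CC H x y).card : ℝ) ≤ a)
    (ha : ((κ : ℝ) + 1) * a + 2 < Fintype.card V) (X : Lab g κ → Finset V) (hX : ∀ l, X l = univ) (v : V) :
    Cond g κ H X v := by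
  obtain ⟨x, hx1, hx2⟩ := y04_greedy (H := H) (κ := κ) ha0 hcc ha v (κ + 1) le_rfl
  intro b
  refine ⟨fun i => x i, ?_, ?_, ?_⟩
  · intro i
    rw [hX]
    exact mem_univ _
  · intro i j hij
    exact hx2 i i.2 j j.2 (fun h => hij (Fin.ext h))
  · intro b' _ i
    have h1 := hcc v (x i) (hx1 i i.2).symm
    have h2 : (CC H v (x i)).card < Fintype.card V := by
      have h3 : a ≤ ((κ : ℝ) + 1) * a := by
        have h4 : 0 ≤ (κ : ℝ) * a := mul_nonneg (Nat.cast_nonneg κ) ha0
        linarith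
      have h5 : ((CC H v (x i)).card : ℝ) < (Fintype.card V : ℝ) := by linarith
      exact_mod_cast h5
    obtain ⟨w, hw⟩ : ∃ w, w ∉ CC H v (x i) := by
      by_contra hcon
      rw [not_exists] at hcon
      have h6 : CC H v (x i) = univ := by
        ext w
        simp only [mem_univ, iff_true]
        exact not_not.1 (hcon w)
      rw [h6, card_univ] at h2
      exact lt_irrefl _ h2
    refine ⟨w, ?_, ?_⟩
    · rw [hX]
      exact mem_univ _
    · unfold CC at hw
      rw [mem_filter, not_and, not_not] at hw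
      exact hw (mem_univ _)

end CT3
end

section

/-!
# Codegrees of the 3-graph of the lower bound

`BW x y` is the set of the `w` such that some ordering of `x, y, w` is `Bad`.  `BW_card`: case distinction on `χ x`, `χ y`
(both orders; `BW` is symmetric):
* `(D c, D c')`: `BW` is contained in the class of the label `D`: `hD`;
* `(A i, A i)`, `(E i, E i)`: contained in this class; `(A i, A j)`, `(E i, E j)`, `i ≠ j`: empty;
* `(B b, B b)`: class `B b` and `{w | χ w = D b, col w x = col w y ≠ 0}`: `hBB`;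
* `(B b, B b')`, `b ≠ b'`: only if they are `i.castSucc`, `i.succ`: class `A i`;
* `(A i, B b)`: `b = i.castSucc`: class `B i.succ` and `{w | χ w = D b, col w y = 0}` (`y` is the vertex in class `B b`): `hAB`;
  `b = i.succ`: class `B i.castSucc`; otherwise empty;
* `(D c, B b)`: only if `b = c`; if `col x y ≠ 0` contained in class `B c`, if `col x y = 0` contained in class `A i` (`c = i.castSucc`);
* `(D c, A i)`: contained in class `B i.castSucc`; `(·, E i)` with another label: empty.
-/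

set_option autoImplicit false

open Finset

namespace CT3

variable {g κ : ℕ} {V : Type} [Fintype V] [DecidableEq V]

open Classical in
/-- the vertices which together with `x, y` are in a bad order -/
noncomputable def BW (χ : V → FL g κ) (col : V → V → Fin (κ + 1)) (x y : V) : Finset V :=
  univ.filter (fun w => Bad χ col x y w ∨ Bad χ col x w y ∨ Bad χ col y x w ∨ Bad χ col y w x ∨
    Bad χ col w x y ∨ Bad χ col w y x)

theorem BW_symm (χ : V → FL g κ) (col : V → V → Fin (κ + 1)) (x y : V) : BW χ col x y = BW χ col y x := by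
  ext w
  simp only [BW, mem_filter, mem_univ, true_and]
  tauto

private theorem mem_BW {χ : V → FL g κ} {col : V → V → Fin (κ + 1)} {x y w : V} :
    w ∈ BW χ col x y ↔ (Bad χ col x y w ∨ Bad χ col x w y ∨ Bad χ col y x w ∨ Bad χ col y w x ∨
      Bad χ col w x y ∨ Bad χ col w y x) := by
  simp only [BW, mem_filter, mem_univ, true_and]

private theorem card_le_of_sub {S T : Finset V} {a : ℝ} (h : S ⊆ T) (hT : (T.card : ℝ) ≤ a) :
    (S.card : ℝ) ≤ a := by
  have : (S.card : ℝ) ≤ T.card := by exact_mod_cast card_le_card h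
  exact this.trans hT

private theorem card_le_of_sub_union {S T U : Finset V} {a : ℝ} (h : S ⊆ T ∪ U)
    (hT : (T.card : ℝ) + (U.card : ℝ) ≤ a) : (S.card : ℝ) ≤ a := by
  have : (S.card : ℝ) ≤ (T.card : ℝ) + U.card := by
    exact_mod_cast (card_le_card h).trans (card_union_le T U)
  exact this.trans hT

theorem BW_D {χ : V → FL g κ} {col : V → V → Fin (κ + 1)} {a : ℝ} (ha : 0 ≤ a) (h : LB χ col a) {x y : V}
    {c : Fin (g + 1)} (hx : χ x = FL.D c) : ((BW χ col x y).card : ℝ) ≤ a := by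
  rcases hy : χ y with c' | j | b | j
  · -- `y` has label `D`
    refine card_le_of_sub (T := univ.filter (fun w => (χ w).lab = Lab.D)) ?_ h.hD
    intro w hw
    rw [mem_BW] at hw
    rw [mem_filter]
    refine ⟨mem_univ w, ?_⟩
    rcases hw with hw | hw | hw | hw | hw | hw <;> rcases hw with hw | hw | hw | hw <;>
      simp only [hx, hy, FL.lab, reduceCtorEq, false_and, and_false, exists_false] at hw <;>
      grind [FL.lab]
  · -- label `A j`
    refine card_le_of_sub (T := univ.filter (fun w => χ w = FL.B j.castSucc)) ?_ (h.hB _)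
    intro w hw
    rw [mem_BW] at hw
    rw [mem_filter]
    refine ⟨mem_univ w, ?_⟩
    rcases hw with hw | hw | hw | hw | hw | hw <;> rcases hw with hw | hw | hw | hw <;>
      simp only [hx, hy, FL.lab, reduceCtorEq, false_and, and_false, exists_false] at hw <;>
      grind [FL.lab]
  · -- label `B b`
    by_cases hcol : col x y = 0
    · by_cases hc : ∃ i : Fin g, c = i.castSucc
      · obtain ⟨i, rfl⟩ := hc
        refine card_le_of_sub (T := univ.filter (fun w => χ w = FL.A i)) ?_ (h.hA _)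
        intro w hw
        rw [mem_BW] at hw
        rw [mem_filter]
        refine ⟨mem_univ w, ?_⟩
        rcases hw with hw | hw | hw | hw | hw | hw <;> rcases hw with hw | hw | hw | hw <;>
          simp only [hx, hy, FL.lab, reduceCtorEq, false_and, and_false, exists_false] at hw <;>
          grind [FL.lab, Fin.castSucc_inj]
      · have he : BW χ col x y = ∅ := by
          rw [Finset.eq_empty_iff_forall_notMem]
          intro w hw
          rw [mem_BW] at hw
          rcases hw with hw | hw | hw | hw | hw | hw <;> rcases hw with hw | hw | hw | hw <;>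
            simp only [hx, hy, FL.lab, reduceCtorEq, false_and, and_false, exists_false] at hw <;>
            grind [FL.lab]
        rw [he, card_empty, Nat.cast_zero]
        exact ha
    · refine card_le_of_sub (T := univ.filter (fun w => χ w = FL.B c)) ?_ (h.hB _)
      intro w hw
      rw [mem_BW] at hw
      rw [mem_filter]
      refine ⟨mem_univ w, ?_⟩
      rcases hw with hw | hw | hw | hw | hw | hw <;> rcases hw with hw | hw | hw | hw <;>
        simp only [hx, hy, FL.lab, reduceCtorEq, false_and, and_false, exists_false] at hw <;>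
        grind [FL.lab]
  · -- label `E j`
    have he : BW χ col x y = ∅ := by
      rw [Finset.eq_empty_iff_forall_notMem]
      intro w hw
      rw [mem_BW] at hw
      rcases hw with hw | hw | hw | hw | hw | hw <;> rcases hw with hw | hw | hw | hw <;>
        simp only [hx, hy, FL.lab, reduceCtorEq, false_and, and_false, exists_false] at hw <;>
        grind [FL.lab]
    rw [he, card_empty, Nat.cast_zero]
    exact ha

private theorem lab_E {l : FL g κ} {i : Fin κ} (h : l.lab = Lab.E i) : l = FL.E i := by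
  cases l <;> simp_all [FL.lab]

private theorem lab_A {l : FL g κ} {i : Fin g} (h : l.lab = Lab.A i) : l = FL.A i := by
  cases l <;> simp_all [FL.lab]

private theorem lab_B {l : FL g κ} {i : Fin (g + 1)} (h : l.lab = Lab.B i) : l = FL.B i := by
  cases l <;> simp_all [FL.lab]

theorem BW_E {χ : V → FL g κ} {col : V → V → Fin (κ + 1)} {a : ℝ} (ha : 0 ≤ a) (h : LB χ col a) {x y : V}
    {i : Fin κ} (hx : χ x = FL.E i) : ((BW χ col x y).card : ℝ) ≤ a := by
  refine card_le_of_sub (T := univ.filter (fun w => χ w = FL.E i)) ?_ (h.hE _)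
  intro w hw
  rw [mem_BW] at hw
  rw [mem_filter]
  refine ⟨mem_univ w, lab_E ?_⟩
  rcases hw with hw | hw | hw | hw | hw | hw <;> rcases hw with hw | hw | hw | hw <;>
    simp only [hx, FL.lab, reduceCtorEq, false_and, and_false, exists_false] at hw <;>
    grind [FL.lab]

theorem BW_AA {χ : V → FL g κ} {col : V → V → Fin (κ + 1)} {a : ℝ} (ha : 0 ≤ a) (h : LB χ col a) {x y : V}
    {i j : Fin g} (hx : χ x = FL.A i) (hy : χ y = FL.A j) : ((BW χ col x y).card : ℝ) ≤ a := by
  refine card_le_of_sub (T := univ.filter (fun w => χ w = FL.A i)) ?_ (h.hA _)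
  intro w hw
  rw [mem_BW] at hw
  rw [mem_filter]
  refine ⟨mem_univ w, lab_A ?_⟩
  rcases hw with hw | hw | hw | hw | hw | hw <;> rcases hw with hw | hw | hw | hw <;>
    simp only [hx, hy, FL.lab, reduceCtorEq, false_and, and_false, exists_false] at hw <;>
    grind [FL.lab]

theorem BW_AB {χ : V → FL g κ} {col : V → V → Fin (κ + 1)} {a : ℝ} (ha : 0 ≤ a) (h : LB χ col a) {x y : V}
    {i : Fin g} {b : Fin (g + 1)} (hx : χ x = FL.A i) (hy : χ y = FL.B b) : ((BW χ col x y).card : ℝ) ≤ a := by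
  have hne : i.succ ≠ i.castSucc := (Fin.castSucc_lt_succ (i := i)).ne'
  by_cases hb : b = i.castSucc
  · subst hb
    refine card_le_of_sub_union (T := univ.filter (fun w => χ w = FL.B i.succ))
      (U := univ.filter (fun w => χ w = FL.D i.castSucc ∧ col w y = 0)) ?_ (h.hAB i y)
    intro w hw
    rw [mem_BW] at hw
    rw [mem_union, mem_filter, mem_filter]
    rcases hw with hw | hw | hw | hw | hw | hw <;> rcases hw with hw | hw | hw | hw <;>
      simp only [hx, hy, FL.lab, reduceCtorEq, false_and, and_false, exists_false] at hw <;>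
      grind [FL.lab, Fin.castSucc_inj]
  · refine card_le_of_sub (T := univ.filter (fun w => χ w = FL.B i.castSucc)) ?_ (h.hB _)
    intro w hw
    rw [mem_BW] at hw
    rw [mem_filter]
    refine ⟨mem_univ w, ?_⟩
    rcases hw with hw | hw | hw | hw | hw | hw <;> rcases hw with hw | hw | hw | hw <;>
      simp only [hx, hy, FL.lab, reduceCtorEq, false_and, and_false, exists_false] at hw <;>
      grind [FL.lab, Fin.castSucc_inj]

theorem BW_BB {χ : V → FL g κ} {col : V → V → Fin (κ + 1)} {a : ℝ} (ha : 0 ≤ a) (h : LB χ col a) {x y : V}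
    (hxy : x ≠ y) {b b' : Fin (g + 1)} (hx : χ x = FL.B b) (hy : χ y = FL.B b') :
    ((BW χ col x y).card : ℝ) ≤ a := by
  have hne : ∀ i : Fin g, i.succ ≠ i.castSucc := fun i => (Fin.castSucc_lt_succ (i := i)).ne'
  by_cases hb : b = b'
  · subst hb
    refine card_le_of_sub_union (T := univ.filter (fun w => χ w = FL.B b))
      (U := univ.filter (fun w => χ w = FL.D b ∧ col w x = col w y ∧ col w x ≠ 0)) ?_ (h.hBB b x y hxy)
    intro w hw
    rw [mem_BW] at hw
    rw [mem_union, mem_filter, mem_filter]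
    have hlab : (χ w).lab = Lab.B b → χ w = FL.B b := lab_B
    rcases hw with hw | hw | hw | hw | hw | hw <;> rcases hw with hw | hw | hw | hw <;>
      simp only [hx, hy, FL.lab, reduceCtorEq, false_and, and_false, exists_false] at hw <;>
      grind [FL.lab]
  · -- only edges with a vertex in a class `A i`
    have hch : ∀ w ∈ BW χ col x y, ∃ i : Fin g, χ w = FL.A i ∧
        ((b = i.castSucc ∧ b' = i.succ) ∨ (b' = i.castSucc ∧ b = i.succ)) := by
      intro w hw
      rw [mem_BW] at hw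
      rcases hw with hw | hw | hw | hw | hw | hw <;> rcases hw with hw | hw | hw | hw <;>
        simp only [hx, hy, FL.lab, reduceCtorEq, false_and, and_false, exists_false] at hw <;>
        grind [FL.lab]
    rcases (BW χ col x y).eq_empty_or_nonempty with he | ⟨w₀, hw₀⟩
    · rw [he, card_empty, Nat.cast_zero]
      exact ha
    · obtain ⟨i, _, hi⟩ := hch w₀ hw₀
      refine card_le_of_sub (T := univ.filter (fun w => χ w = FL.A i)) ?_ (h.hA _)
      intro w hw
      obtain ⟨j, hj, hj'⟩ := hch w hw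
      rw [mem_filter]
      refine ⟨mem_univ w, ?_⟩
      have hij : j = i := by
        apply Fin.ext
        have v1 := fun (p q : Fin (g + 1)) (h : p = q) => congrArg Fin.val h
        rcases hi with ⟨e1, e2⟩ | ⟨e1, e2⟩ <;> rcases hj' with ⟨e3, e4⟩ | ⟨e3, e4⟩ <;>
          (have f1 := v1 _ _ e1; have f2 := v1 _ _ e2; have f3 := v1 _ _ e3; have f4 := v1 _ _ e4
           simp only [Fin.val_castSucc, Fin.val_succ] at f1 f2 f3 f4
           omega)
      rw [hj, hij]

end CT3
end

section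

/-!
# Collapse

If `w ≠ w'` are in `WW` at time `t`, then `w, w'` have all labels at time `t + 1`; all vertices of
`N(w,w')` have all labels at time `t + 2`; for `z ∈ V` choose `x ∈ N(w,w')`, `x ≠ z`, and
`y ∈ N(z,x) ∩ N(w,w')` (`|N| ≥ n - a`, `2 a < n`): so `z` has all labels at time `t + 3` (use `mem_step`),
and if every vertex has every label then this remains true.
Note: `{w, w', z} ∈ H` implies that the three vertices are distinct (`CT.Unif 3 H`).
-/

set_option autoImplicit false

open Finset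

namespace CT3

variable {V : Type} [Fintype V] [DecidableEq V] {H : Finset (Finset V)} {a : ℝ}

theorem step_of_two {M : Type} [Fintype M] [DecidableEq M] {X : M → Finset V} {w w' : V} (hw : ∀ l, w ∈ X l)
    (hw' : ∀ l, w' ∈ X l) (ρ : M → M × M) (l : M) (z : V) (hz : ({w, w', z} : Finset V) ∈ H) :
    z ∈ step H ρ X l := by
  refine mem_filter.2 ⟨mem_univ _, fun j _ hc => ?_⟩
  exact (mem_filter.1 hc).2 w (hw _) w' (hw' _) hz

theorem step_univ {M : Type} [Fintype M] [DecidableEq M] (hU : CT.Unif 3 H)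
    (hcc : ∀ x y, x ≠ y → ((CC H x y).card : ℝ) ≤ a) (ha : 2 * a + 2 < Fintype.card V)
    {X : M → Finset V} {w w' : V} (hww : w ≠ w') (hX : ∀ l z, ({w, w', z} : Finset V) ∈ H → z ∈ X l)
    (ρ : M → M × M) (l : M) : step H ρ X l = univ := by
  have ha0 : 0 ≤ a := (Nat.cast_nonneg _).trans (hcc w w' hww)
  refine eq_univ_iff_forall.2 fun z => ?_
  -- a vertex outside three small sets
  have hex : ∀ B : Finset V, (B.card : ℝ) ≤ 2 * a + 2 → ∃ x, x ∉ B := by
    intro B hB
    by_contra hcon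
    push Not at hcon
    have h1 : B = univ := eq_univ_iff_forall.2 hcon
    rw [h1, card_univ] at hB
    linarith
  have hc1 := hcc w w' hww
  obtain ⟨x, hx⟩ := hex (insert z (CC H w w')) (by
    have h1 : ((insert z (CC H w w')).card : ℝ) ≤ (CC H w w').card + 1 := by
      exact_mod_cast card_insert_le _ _
    linarith)
  rw [mem_insert, not_or] at hx
  obtain ⟨hxz, hx⟩ := hx
  have hc2 := hcc z x (Ne.symm hxz)
  obtain ⟨y, hy⟩ := hex (CC H z x ∪ CC H w w') (by
    have h1 : ((CC H z x ∪ CC H w w').card : ℝ) ≤ (CC H z x).card + (CC H w w').card := by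
      exact_mod_cast card_union_le _ _
    linarith)
  rw [mem_union, not_or] at hy
  have hCC : ∀ p q r : V, r ∉ CC H p q → ({p, q, r} : Finset V) ∈ H := by
    intro p q r hr
    by_contra hcon
    exact hr (mem_filter.2 ⟨mem_univ _, hcon⟩)
  have hx1 : ∀ l, x ∈ X l := fun l => hX l x (hCC _ _ _ hx)
  have hy1 : ∀ l, y ∈ X l := fun l => hX l y (hCC _ _ _ hy.2)
  have hzxy : ({z, x, y} : Finset V) ∈ H := hCC _ _ _ hy.1
  refine step_of_two hx1 hy1 ρ l z ?_
  have he : ({x, y, z} : Finset V) = {z, x, y} := by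
    ext v
    simp only [mem_insert, mem_singleton]
    tauto
  rw [he]
  exact hzxy

theorem collapse {g κ : ℕ} (hU : CT.Unif 3 H) (hcc : ∀ x y, x ≠ y → ((CC H x y).card : ℝ) ≤ a)
    (ha : 2 * a + 2 < Fintype.card V) (st : Lab g κ → V × V) (t : ℕ)
    (hW : 2 ≤ (WW H (sched g κ t) (fam g κ H st t)).card) (t' : ℕ) (ht : t + 3 ≤ t') :
    ∀ l, fam g κ H st t' l = univ := by
  obtain ⟨w, hw, w', hw', hww⟩ := one_lt_card.1 hW
  have hstep : ∀ (ρ : Lab g κ → Lab g κ × Lab g κ) (X : Lab g κ → Finset V) (v : V),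
      v ∈ WW H ρ X → ∀ l, v ∈ step H ρ X l := by
    intro ρ X v hv l
    exact mem_filter.2 ⟨mem_univ _, fun j _ => (mem_filter.1 hv).2 j⟩
  have h1 : ∀ l, w ∈ fam g κ H st (t + 1) l := fun l => hstep _ _ _ hw l
  have h1' : ∀ l, w' ∈ fam g κ H st (t + 1) l := fun l => hstep _ _ _ hw' l
  have h2 : ∀ l z, ({w, w', z} : Finset V) ∈ H → z ∈ fam g κ H st (t + 2) l := fun l z hz =>
    step_of_two h1 h1' _ l z hz
  have h3 : ∀ l, fam g κ H st (t + 3) l = univ := fun l => step_univ hU hcc ha hww h2 _ l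
  induction t', ht using Nat.le_induction with
  | base => exact h3
  | succ s _ ih =>
    intro l
    exact step_univ hU hcc ha hww (fun l z _ => by rw [ih l]; exact mem_univ _) _ l

end CT3
end

section

/-!
# The class sizes

Proportions: `D c ↦ e z_c`, `A i, E i ↦ e`, `B b ↦ e (1 - L_b)`.  `fw_mem`: the sum is
`e (1 + g + κ + (g + 1) - 1/lam) = e (m - 1/lam) = 1` (`zsum`, `lsum`, `card_Lab`); `0 ≤ L_b ≤ ∑ L = 1/lam ≤ 1`, `e > 0`.
`exists_classes`: `CT.exists_colouring` gives the lower bounds `x_l n - 1`; the upper bound `n - ∑_{others}`.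
-/

set_option autoImplicit false

open Finset

namespace CT3

variable {g κ : ℕ} {p : Par g κ}

/-- the proportions -/
noncomputable def fw (l : LPar p) : FL g κ → ℝ
  | FL.D c => p.e * l.z c
  | FL.A _ => p.e
  | FL.B b => p.e * (1 - l.L b)
  | FL.E _ => p.e

private def flEquiv (g κ : ℕ) : FL g κ ≃ Fin (g + 1) ⊕ (Fin g ⊕ (Fin (g + 1) ⊕ Fin κ)) where
  toFun l := match l with
    | FL.D i => Sum.inl i
    | FL.A i => Sum.inr (Sum.inl i)
    | FL.B i => Sum.inr (Sum.inr (Sum.inl i))
    | FL.E i => Sum.inr (Sum.inr (Sum.inr i))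
  invFun l := match l with
    | Sum.inl i => FL.D i
    | Sum.inr (Sum.inl i) => FL.A i
    | Sum.inr (Sum.inr (Sum.inl i)) => FL.B i
    | Sum.inr (Sum.inr (Sum.inr i)) => FL.E i
  left_inv l := by cases l <;> rfl
  right_inv l := by
    rcases l with l | l | l | l <;> rfl

private theorem sum_FL {g κ : ℕ} (f : FL g κ → ℝ) :
    ∑ l, f l = ∑ i, f (FL.D i) + (∑ i, f (FL.A i) + (∑ i, f (FL.B i) + ∑ i, f (FL.E i))) := by
  rw [← (flEquiv g κ).symm.sum_comp f, Fintype.sum_sum_type, Fintype.sum_sum_type,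
    Fintype.sum_sum_type]
  rfl

theorem LPar.L_nonneg (l : LPar p) (b : ℕ) : 0 ≤ l.L b := by
  unfold LPar.L
  have := l.z0 b
  positivity

private theorem L_lam_pos (hg : 1 ≤ g) : 1 < p.lam := by
  have h1 := p.lam_gt hg
  have h2 : (0 : ℝ) ≤ κ := Nat.cast_nonneg κ
  linarith

private theorem L_sum (l : LPar p) : ∑ b ∈ range (g + 1), l.L b = 1 / p.lam := l.lsum

theorem LPar.L_le (l : LPar p) (hg : 1 ≤ g) (hκ : 1 ≤ κ) (b : ℕ) (hb : b ≤ g) : l.L b ≤ 1 := by
  have _ := hκ
  have h1 : l.L b ≤ ∑ b ∈ range (g + 1), l.L b :=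
    single_le_sum (f := fun b => l.L b) (fun i _ => l.L_nonneg i) (mem_range.2 (by omega))
  rw [L_sum l] at h1
  have h2 := L_lam_pos (p := p) hg
  have h3 : 1 / p.lam ≤ 1 := by
    rw [div_le_one (by linarith)]
    exact h2.le
  linarith

theorem fw_mem (l : LPar p) (hg : 1 ≤ g) (hκ : 1 ≤ κ) : fw l ∈ stdSimplex ℝ (FL g κ) := by
  have he := p.e_pos hg hκ
  have hlam := L_lam_pos (p := p) hg
  refine ⟨fun v => ?_, ?_⟩
  · cases v with
    | D c => exact mul_nonneg he.le (l.z0 _)
    | A i => exact he.le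
    | B b =>
      refine mul_nonneg he.le ?_
      have := l.L_le hg hκ b (by omega)
      linarith
    | E i => exact he.le
  · rw [sum_FL]
    have h1 : ∑ i : Fin (g + 1), fw l (FL.D i) = p.e := by
      change ∑ i : Fin (g + 1), p.e * l.z i = p.e
      rw [← mul_sum, Fin.sum_univ_eq_sum_range (fun i => l.z i) (g + 1), l.zsum, mul_one]
    have h2 : ∑ i : Fin g, fw l (FL.A i) = g * p.e := by
      change ∑ i : Fin g, p.e = g * p.e
      simp
    have h3 : ∑ i : Fin (g + 1), fw l (FL.B i) = p.e * ((g + 1 : ℝ) - 1 / p.lam) := by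
      change ∑ i : Fin (g + 1), p.e * (1 - l.L i) = p.e * ((g + 1 : ℝ) - 1 / p.lam)
      rw [← mul_sum, sum_sub_distrib, Fin.sum_univ_eq_sum_range (fun i => l.L i) (g + 1),
        L_sum l]
      simp
    have h4 : ∑ i : Fin κ, fw l (FL.E i) = κ * p.e := by
      change ∑ i : Fin κ, p.e = κ * p.e
      simp
    rw [h1, h2, h3, h4]
    have h5 : p.e * ((2 * g + 2 + κ : ℝ) - 1 / p.lam) = 1 := by
      have h6 : ((2 * g + 2 + κ : ℝ) - 1 / p.lam) ≠ 0 := by
        have h7 : 1 / p.lam < 1 := by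
          rw [div_lt_one (by linarith)]
          exact hlam
        have h8 : (0 : ℝ) ≤ g := Nat.cast_nonneg g
        have h9 : (0 : ℝ) ≤ κ := Nat.cast_nonneg κ
        have : 0 < ((2 * g + 2 + κ : ℝ) - 1 / p.lam) := by linarith
        exact this.ne'
      rw [Par.e, card_Lab]
      push_cast
      rw [one_div_mul_cancel h6]
    linarith

theorem exists_classes (l : LPar p) (hg : 1 ≤ g) (hκ : 1 ≤ κ) (n : ℕ) :
    ∃ χ : Fin n → FL g κ, ∀ v, ((univ.filter (fun i => χ i = v)).card : ℝ) ≤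
      fw l v * n + Fintype.card (FL g κ) := by
  obtain ⟨χ, hχ⟩ := CT.exists_colouring (fw_mem l hg hκ) n
  refine ⟨χ, fun v => ?_⟩
  have h1 : ∑ v, ((univ.filter (fun i => χ i = v)).card : ℝ) = n := by
    have h2 := card_eq_sum_card_fiberwise (f := χ) (s := univ) (t := univ)
      (fun _ _ => mem_coe.2 (mem_univ _))
    rw [card_univ, Fintype.card_fin] at h2
    conv_rhs => rw [h2]
    push_cast
    rfl
  have h3 : ∑ v, fw l v = 1 := (fw_mem l hg hκ).2
  have h4 : ∑ w ∈ univ.erase v, (fw l w * n - 1) ≤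
      ∑ w ∈ univ.erase v, ((univ.filter (fun i => χ i = w)).card : ℝ) :=
    sum_le_sum fun w _ => hχ w
  rw [← add_sum_erase univ _ (mem_univ v)] at h1 h3
  have h5 : ∑ w ∈ univ.erase v, (fw l w * n - 1) =
      (∑ w ∈ univ.erase v, fw l w) * n - ((univ.erase v).card : ℝ) := by
    rw [sum_sub_distrib, ← sum_mul]
    simp
  have h6 : ((univ.erase v).card : ℝ) ≤ Fintype.card (FL g κ) := by
    exact_mod_cast card_le_univ _
  have h7 : ∑ w ∈ univ.erase v, fw l w = 1 - fw l v := by linarith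
  rw [h5, h7] at h4
  linarith

end CT3
end

section

/-!
# The gadget is primitive positive

Both families in `Gad` have a positive time (`TT g κ = 2 + ..`), so `pp_fam` applies; the rest is built
with the closure properties (`∃ v`, then for every `b` there is `x : Fin (κ+1) → V` (`pp_ex`) such that ...;
`∃ a ∈ X, ..` again with `pp_ex` for `κ' = Unit`).
-/

set_option autoImplicit false

open Finset

namespace CT3

private theorem ppg_fam {ι : Type} (g κ : ℕ) (t : ℕ) (l : Lab g κ)
    (s : Lab g κ → ι) (s' : Lab g κ → ι) (a : ι) :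
    IsPP (fun V _ _ H (v : ι → V) =>
      v a ∈ fam g κ H (fun j => (v (s j), v (s' j))) (t + 1) l) := by
  have h := pp_rename (ι' := ι) (Sum.elim (fun p : Lab g κ × Bool => if p.2 then s' p.1 else s p.1)
    (fun _ : Unit => a)) (pp_fam g κ t l)
  exact h

private theorem ppg_ex1 {ι : Type} {P : Pred (ι ⊕ Unit)} (hP : IsPP P) :
    IsPP (fun V _ _ H (v : ι → V) => ∃ x : V, P V H (Sum.elim v (fun _ => x))) := by
  refine pp_congr (pp_ex (κ' := Unit) hP) ?_
  intro V _ _ H _ v
  constructor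
  · rintro ⟨x, hx⟩
    exact ⟨fun _ => x, hx⟩
  · rintro ⟨u, hu⟩
    exact ⟨u (), hu⟩

theorem pp_Gad (g κ : ℕ) :
    IsPP (fun V _ _ H (v : Lab g κ × Bool → V) => Gad g κ H (fun j => (v (j, false), v (j, true)))) := by
  have hT : TT g κ = (1 + (g + 1) * N0 g κ) + 1 := by unfold TT; ring
  -- innermost: `∃ a ∈ X (A b'), {v, x i, a} ∈ H`
  have h4 : ∀ (b' : Fin g) (i : Fin (κ + 1)),
      IsPP (fun V _ _ H (v : ((Lab g κ × Bool) ⊕ Unit) ⊕ Fin (κ + 1) → V) =>
        ∃ a : V, a ∈ fam g κ H (fun j => (v (Sum.inl (Sum.inl (j, false))),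
            v (Sum.inl (Sum.inl (j, true))))) (TT g κ) (Lab.A b') ∧
          ({v (Sum.inl (Sum.inr ())), v (Sum.inr i), a} : Finset V) ∈ H) := by
    intro b' i
    have hf := ppg_fam (ι := (((Lab g κ × Bool) ⊕ Unit) ⊕ Fin (κ + 1)) ⊕ Unit) g κ
      (1 + (g + 1) * N0 g κ) (Lab.A b')
      (fun j => Sum.inl (Sum.inl (Sum.inl (j, false))))
      (fun j => Sum.inl (Sum.inl (Sum.inl (j, true)))) (Sum.inr ())
    have ha := pp_atom (ι := (((Lab g κ × Bool) ⊕ Unit) ⊕ Fin (κ + 1)) ⊕ Unit)
      (Sum.inl (Sum.inl (Sum.inr ()))) (Sum.inl (Sum.inr i)) (Sum.inr ())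
    rw [← hT] at hf
    exact ppg_ex1 (pp_and hf ha)
  have h3 : ∀ b : Fin (g + 1),
      IsPP (fun V _ _ H (v : ((Lab g κ × Bool) ⊕ Unit) ⊕ Fin (κ + 1) → V) =>
        (∀ i, v (Sum.inr i) ∈ fam g κ H (fun j => (v (Sum.inl (Sum.inl (j, false))),
            v (Sum.inl (Sum.inl (j, true))))) (TT g κ) (Lab.B b)) ∧
        (∀ i j, i ≠ j →
          ({v (Sum.inl (Sum.inr ())), v (Sum.inr i), v (Sum.inr j)} : Finset V) ∈ H) ∧
        ∀ b' : Fin g, b = b'.castSucc → ∀ i,
          ∃ a : V, a ∈ fam g κ H (fun j => (v (Sum.inl (Sum.inl (j, false))),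
              v (Sum.inl (Sum.inl (j, true))))) (TT g κ) (Lab.A b') ∧
            ({v (Sum.inl (Sum.inr ())), v (Sum.inr i), a} : Finset V) ∈ H) := by
    intro b
    refine pp_and (pp_all fun i => ?_) (pp_and (pp_all fun i => pp_all fun j => pp_imp _ ?_)
      (pp_all fun b' => pp_imp _ (pp_all fun i => h4 b' i)))
    · have hf := ppg_fam (ι := ((Lab g κ × Bool) ⊕ Unit) ⊕ Fin (κ + 1)) g κ
        (1 + (g + 1) * N0 g κ) (Lab.B b)
        (fun j => Sum.inl (Sum.inl (j, false)))
        (fun j => Sum.inl (Sum.inl (j, true))) (Sum.inr i)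
      rw [← hT] at hf
      exact hf
    · exact pp_atom _ _ _
  have h2 : IsPP (fun V _ _ H (v : (Lab g κ × Bool) ⊕ Unit → V) =>
      v (Sum.inr ()) ∈ fam g κ H (fun j => (v (Sum.inl (j, false)),
            v (Sum.inl (j, true)))) (TT g κ + 1) Lab.D ∧
      Cond g κ H (fam g κ H (fun j => (v (Sum.inl (j, false)),
            v (Sum.inl (j, true)))) (TT g κ)) (v (Sum.inr ()))) := by
    refine pp_and (ppg_fam g κ (TT g κ) Lab.D _ _ _) ?_
    exact pp_all fun b => pp_ex (κ' := Fin (κ + 1)) (h3 b)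
  exact ppg_ex1 h2

end CT3
end

section

/-!
# Good 3-graphs do not satisfy the sentence

`fam_good`: induction on `t`: if `w ∈ step H ρ X l` with `X j ⊆ χ⁻¹ j` for all `j` and `ρ = can` or `ρ = rul i`,
then `χ w ≠ j` for all `j ≠ l` (for `(ρ j) = (j,j)` by the first property of `χ`, for `j = B i.succ`,
`ρ j = (A i, B i.castSucc)` by the second).  `sched` takes only the values `can`, `rul i`.
`Gad_good`: `Cond` is monotone in the family.
-/

set_option autoImplicit false

open Finset

namespace CT3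

variable {g κ : ℕ} {V : Type} [Fintype V] [DecidableEq V] {H : Finset (Finset V)}

theorem fam_good {χ : V → Lab g κ}
    (h1 : ∀ x y z, ({x, y, z} : Finset V) ∈ H → ¬ (χ x = χ y ∧ χ y = χ z))
    (h2 : ∀ x y z, ({x, y, z} : Finset V) ∈ H → ∀ i : Fin g,
      ¬ (χ x = Lab.A i ∧ χ y = Lab.B i.castSucc ∧ χ z = Lab.B i.succ))
    {st : Lab g κ → V × V} (hst : ∀ l, χ (st l).1 = l ∧ χ (st l).2 = l) (t : ℕ) :
    ∀ l, ∀ w ∈ fam g κ H st t l, χ w = l := by
  induction t with
  | zero =>
    intro l w hw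
    have hw' : w ∈ ({(st l).1, (st l).2} : Finset V) := hw
    rw [mem_insert, mem_singleton] at hw'
    rcases hw' with rfl | rfl
    · exact (hst l).1
    · exact (hst l).2
  | succ t ih =>
    intro l w hw
    have hw' : w ∈ step H (sched g κ t) (fam g κ H st t) l := hw
    by_contra hne
    have h3 : w ∉ core H (fam g κ H st t) (sched g κ t (χ w)) :=
      (mem_filter.1 hw').2 (χ w) hne
    have h4 : ∃ x ∈ fam g κ H st t (sched g κ t (χ w)).1,
        ∃ y ∈ fam g κ H st t (sched g κ t (χ w)).2, ({x, y, w} : Finset V) ∈ H := by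
      by_contra hc
      push Not at hc
      exact h3 (mem_filter.2 ⟨mem_univ _, hc⟩)
    obtain ⟨x, hx, y, hy, hxy⟩ := h4
    have hcx := ih _ x hx
    have hcy := ih _ y hy
    have hcan : sched g κ t (χ w) = (χ w, χ w) → False := by
      intro he
      rw [he] at hcx hcy
      exact h1 x y w hxy ⟨hcx.trans hcy.symm, hcy⟩
    unfold sched at hcan hcx hcy
    split_ifs at hcan hcx hcy with hi
    · by_cases hB : χ w = Lab.B hi.choose.succ
      · have hr : rul g κ hi.choose (χ w) = (Lab.A hi.choose, Lab.B hi.choose.castSucc) := by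
          unfold rul
          rw [hB, Function.update_self]
        rw [hr] at hcx hcy
        exact h2 x y w hxy hi.choose ⟨hcx, hcy, hB⟩
      · apply hcan
        unfold rul
        rw [Function.update_of_ne hB]
        rfl
    · exact hcan rfl

theorem Gad_good {χ : V → Lab g κ}
    (h1 : ∀ x y z, ({x, y, z} : Finset V) ∈ H → ¬ (χ x = χ y ∧ χ y = χ z))
    (h2 : ∀ x y z, ({x, y, z} : Finset V) ∈ H → ∀ i : Fin g,
      ¬ (χ x = Lab.A i ∧ χ y = Lab.B i.castSucc ∧ χ z = Lab.B i.succ))
    (h3 : ∀ v, χ v = Lab.D → ¬ Cond g κ H (fun l => univ.filter (fun w => χ w = l)) v)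
    {st : Lab g κ → V × V} (hst : ∀ l, χ (st l).1 = l ∧ χ (st l).2 = l) : ¬ Gad g κ H st := by
  rintro ⟨v, hv, hC⟩
  apply h3 v (fam_good h1 h2 hst _ _ v hv)
  intro b
  obtain ⟨x, hx1, hx2, hx3⟩ := hC b
  refine ⟨x, fun i => mem_filter.2 ⟨mem_univ _, fam_good h1 h2 hst _ _ _ (hx1 i)⟩, hx2, ?_⟩
  intro b' hb' i
  obtain ⟨a, ha, ha'⟩ := hx3 b' hb' i
  exact ⟨a, mem_filter.2 ⟨mem_univ _, fam_good h1 h2 hst _ _ _ ha⟩, ha'⟩

end CT3
end

section

/-!
# The root formula is primitive positive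

Induction on `r` (for all `k`).  `upd R k (u a, u b)` is a renaming of variables: with
`R = fun j => (v (j,false), v (j,true))` it is `fun j => (v' (j,false), v' (j,true))` for
`v' = Sum.elim v u ∘ ren`, `ren (j,c) = if j = k then inr (if c then b else a) else inl (j,c)`.
-/

set_option autoImplicit false

open Finset

namespace CT3

/-- the renaming of variables used in `pp_Root` -/
private def ren (m k : ℕ) (a b : Fin (m + 1)) :
    Fin m × Bool → (Fin m × Bool) ⊕ Fin (m + 1) :=
  fun p => if (p.1 : ℕ) = k then Sum.inr (if p.2 then b else a) else Sum.inl p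

private theorem ren_upd {V : Type} (m k : ℕ) (a b : Fin (m + 1))
    (v : (Fin m × Bool) ⊕ Fin (m + 1) → V) :
    upd (fun j : Fin m => (v (Sum.inl (j, false)), v (Sum.inl (j, true)))) k
      (v (Sum.inr a), v (Sum.inr b)) =
    fun j => ((v ∘ ren m k a b) (j, false), (v ∘ ren m k a b) (j, true)) := by
  funext j
  unfold upd ren
  by_cases h : (j : ℕ) = k
  · simp [h]
  · simp [h]

theorem pp_Root (g κ m : ℕ) (r : ℕ) : ∀ k : ℕ,
    IsPP (fun V _ _ H (v : Fin m × Bool → V) => Root g κ H m r k (fun j => (v (j, false), v (j, true)))) := by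
  induction r with
  | zero =>
    intro k
    have h : ∀ τ : Lab g κ → Fin m, IsPP (fun V _ _ H (v : Fin m × Bool → V) =>
        Gad g κ H (fun l => (v (τ l, false), v (τ l, true)))) := by
      intro τ
      exact pp_rename (fun p : Lab g κ × Bool => ((τ p.1, p.2) : Fin m × Bool)) (pp_Gad g κ)
    refine pp_congr (pp_all h) ?_
    intro V _ _ H _ v
    rfl
  | succ r ih =>
    intro k
    have h1 : ∀ i : Fin (m + 1), ∀ j : Fin m,
        IsPP (fun V _ _ H (v : (Fin m × Bool) ⊕ Fin (m + 1) → V) =>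
          (j : ℕ) < k → ({v (Sum.inl (j, false)), v (Sum.inl (j, true)), v (Sum.inr i)} : Finset V) ∈ H) := by
      intro i j
      exact pp_imp _ (pp_atom _ _ _)
    have h2 : ∀ a b : Fin (m + 1),
        IsPP (fun V _ _ H (v : (Fin m × Bool) ⊕ Fin (m + 1) → V) =>
          a ≠ b → Root g κ H m r (k + 1)
            (upd (fun j : Fin m => (v (Sum.inl (j, false)), v (Sum.inl (j, true)))) k
              (v (Sum.inr a), v (Sum.inr b)))) := by
      intro a b
      apply pp_imp
      refine pp_congr (pp_rename (ren m k a b) (ih (k + 1))) ?_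
      intro V _ _ H _ v
      rw [ren_upd]
    have h3 := pp_ex (pp_and (pp_all (fun i => pp_all (fun j => h1 i j)))
      (pp_all (fun a => pp_all (fun b => h2 a b))))
    refine pp_congr h3 ?_
    intro V _ _ H _ v
    rfl

end CT3
end

section

/-!
# Good 3-graphs do not satisfy the sentence, end

`Root_good`: induction on `r`: if `k + r = m = card (Lab g κ)` and the first `k` pairs of `R` are
monochromatic with pairwise distinct labels then `Root .. r k R` fails.  `r = 0`: all labels occur; let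
`τ j` be the index of the pair with label `j`; `Gad_good`.  `r + 1`: the labels of the `u i` avoid the `k`
labels of the first pairs (first property of `χ`), `m + 1 > m - k`, so two of the `u i` have the same
label, which is new.
-/

set_option autoImplicit false

open Finset

namespace CT3

variable {g κ : ℕ} {V : Type} [Fintype V] [DecidableEq V] {H : Finset (Finset V)}

theorem Root_good {χ : V → Lab g κ}
    (h1 : ∀ x y z, ({x, y, z} : Finset V) ∈ H → ¬ (χ x = χ y ∧ χ y = χ z))
    (h2 : ∀ x y z, ({x, y, z} : Finset V) ∈ H → ∀ i : Fin g,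
      ¬ (χ x = Lab.A i ∧ χ y = Lab.B i.castSucc ∧ χ z = Lab.B i.succ))
    (h3 : ∀ v, χ v = Lab.D → ¬ Cond g κ H (fun l => univ.filter (fun w => χ w = l)) v) (r : ℕ) :
    ∀ (k : ℕ) (R : Fin (Fintype.card (Lab g κ)) → V × V), k + r = Fintype.card (Lab g κ) →
      (∀ j : Fin (Fintype.card (Lab g κ)), (j : ℕ) < k → χ (R j).1 = χ (R j).2) →
      (∀ i j : Fin (Fintype.card (Lab g κ)), (i : ℕ) < k → (j : ℕ) < k → i ≠ j →
        χ (R i).1 ≠ χ (R j).1) →
      ¬ Root g κ H (Fintype.card (Lab g κ)) r k R := by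
  induction r with
  | zero =>
    intro k R hk hm hd hroot
    have hk' : k = Fintype.card (Lab g κ) := by omega
    subst hk'
    have hinj : Function.Injective (fun j : Fin (Fintype.card (Lab g κ)) => χ (R j).1) := by
      intro i j hij
      by_contra hne
      exact hd i j i.2 j.2 hne hij
    have hsurj : Function.Surjective (fun j : Fin (Fintype.card (Lab g κ)) => χ (R j).1) :=
      ((Fintype.bijective_iff_injective_and_card _).2 ⟨hinj, by simp⟩).2
    choose τ hτ using hsurj
    have hroot' := hroot τ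
    exact Gad_good h1 h2 h3 (st := fun l => R (τ l))
      (fun l => ⟨hτ l, by rw [← hm (τ l) (τ l).2]; exact hτ l⟩) hroot'
  | succ r ih =>
    intro k R hk hm hd hroot
    obtain ⟨u, hu1, hu2⟩ := hroot
    obtain ⟨a, b, hab, hχ⟩ := Fintype.exists_ne_map_eq_of_card_lt
      (fun i : Fin (Fintype.card (Lab g κ) + 1) => χ (u i)) (by simp)
    have hnew : ∀ j : Fin (Fintype.card (Lab g κ)), (j : ℕ) < k → χ (R j).1 ≠ χ (u a) := by
      intro j hj he
      exact h1 _ _ _ (hu1 a j hj) ⟨hm j hj, by rw [← hm j hj]; exact he⟩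
    refine ih (k + 1) (upd R k (u a, u b)) (by omega) ?_ ?_ (hu2 a b hab)
    · intro j hj
      by_cases hjk : (j : ℕ) = k
      · simp only [upd, hjk, if_true]
        exact hχ
      · simp only [upd, hjk, if_false]
        exact hm j (by omega)
    · intro i j hi hj hij
      by_cases hik : (i : ℕ) = k
      · by_cases hjk : (j : ℕ) = k
        · exact absurd (Fin.ext (hik.trans hjk.symm)) hij
        · simp only [upd, hik, hjk, if_true, if_false]
          exact (hnew j (by omega)).symm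
      · by_cases hjk : (j : ℕ) = k
        · simp only [upd, hik, hjk, if_true, if_false]
          exact hnew i (by omega)
        · simp only [upd, hik, hjk, if_false]
          exact hd i j (by omega) (by omega) hij

theorem Good3.not_Sent (h : Good3 g κ H) : ¬ Sent g κ H := by
  obtain ⟨χ, h1, h2, h3⟩ := h
  rintro ⟨R, hR⟩
  exact Root_good h1 h2 h3 (Fintype.card (Lab g κ)) 0 R (by omega)
    (fun j hj => absurd hj (Nat.not_lt_zero _)) (fun i j hi => absurd hi (Nat.not_lt_zero _)) hR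

end CT3
end

section

/-!
# A primitive positive sentence is given by one 3-graph

By `pp_ex` (with `ι = Empty ⊕ ι`) the predicate `∃ v, P V H v` is given by `f : E → Fin 3 → Empty ⊕ κ`.
Let `s = card κ`, `F = {image of (f e)}` transported to `Fin s`.  Since `P` holds in some 3-uniform `H`,
every `image (f e)` has exactly 3 elements (its image under `w` has 3 elements).  A map
`w : κ → V` satisfies the condition iff it is a homomorphism `F → H`.
-/

set_option autoImplicit false

open Finset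

namespace CT3

theorem pp_sentence {ι : Type} [Fintype ι] {P : Pred ι} (h : IsPP P)
    (hex : ∃ (V : Type) (_ : Fintype V) (_ : DecidableEq V) (H : Finset (Finset V)) (v : ι → V),
      CT.Unif 3 H ∧ P V H v) :
    ∃ (s : ℕ) (F : Finset (Finset (Fin s))), CT.Unif 3 F ∧
      ∀ (V : Type) [Fintype V] [DecidableEq V] (H : Finset (Finset V)), CT.Unif 3 H →
        (CT.HomTo F H ↔ ∃ v : ι → V, P V H v) := by
  obtain ⟨κ, E, _, _, f, hf⟩ := h
  let eqv := Fintype.equivFin (ι ⊕ κ)
  refine ⟨Fintype.card (ι ⊕ κ),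
    univ.image (fun e : E => univ.image (fun i : Fin 3 => eqv (f e i))), ?_, ?_⟩
  · obtain ⟨V, _, _, H, v, hH, hP⟩ := hex
    obtain ⟨w, hw⟩ := (hf V H hH v).1 hP
    intro S hS
    obtain ⟨e, _, rfl⟩ := mem_image.1 hS
    apply le_antisymm
    · exact card_image_le.trans (by simp)
    · have h1 := hH _ (hw e)
      have h2 : univ.image (fun i => Sum.elim v w (f e i))
          = (univ.image (fun i : Fin 3 => eqv (f e i))).image
              (fun j => Sum.elim v w (eqv.symm j)) := by
        rw [image_image]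
        congr 1
        funext i
        simp
      rw [h2] at h1
      calc 3 = _ := h1.symm
        _ ≤ _ := card_image_le
  · intro V _ _ H hH
    constructor
    · rintro ⟨φ, hφ⟩
      refine ⟨fun i => φ (eqv (Sum.inl i)), (hf V H hH _).2 ⟨fun i => φ (eqv (Sum.inr i)), ?_⟩⟩
      intro e
      have h1 := hφ _ (mem_image_of_mem (fun e : E => univ.image (fun i : Fin 3 => eqv (f e i)))
        (mem_univ e))
      rw [image_image] at h1
      convert h1 using 2
      funext i
      simp only [Function.comp]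
      rcases f e i with a | b <;> rfl
    · rintro ⟨v, hv⟩
      obtain ⟨w, hw⟩ := (hf V H hH v).1 hv
      refine ⟨fun j => Sum.elim v w (eqv.symm j), ?_⟩
      intro S hS
      obtain ⟨e, _, rfl⟩ := mem_image.1 hS
      rw [image_image]
      convert hw e using 2
      funext i
      simp

end CT3
end
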