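import Mathlib
import Pool.Agent.Lib.MP_63f67f_co_k3.L06
import Pool.Agent.Lib.MP_63f67f_co.B02

section

/-!
# The rest is small

Every vertex outside `WW` is in some core `core H X (ρ j)`; a vertex outside all `step H ρ X i`
is in at least two of them; `∑_j |core| ≤ m a`; hence
`(n - |WW|) + |rest| ≤ ∑_j |core H X (ρ j)| ≤ m a` (double counting).
-/

set_option autoImplicit false

open Finset

namespace CT3

instance (g κ : ℕ) : Nonempty (Lab g κ) := ⟨Lab.D⟩

variable {V : Type} [Fintype V] [DecidableEq V] {M : Type} [Fintype M] [DecidableEq M]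
  {H : Finset (Finset V)} {a : ℝ}

private theorem core_sum (X : M → Finset V) (ρ : M → M × M) :
    ∑ j, (core H X (ρ j)).card = ∑ w : V, (univ.filter (fun j : M => w ∈ core H X (ρ j))).card := by
  have h1 : ∀ j, (core H X (ρ j)).card = ∑ w : V, if w ∈ core H X (ρ j) then 1 else 0 := by
    intro j
    rw [← card_filter, filter_univ_mem]
  have h2 : ∀ w : V, (univ.filter (fun j : M => w ∈ core H X (ρ j))).card =
      ∑ j : M, if w ∈ core H X (ρ j) then 1 else 0 := fun w => card_filter _ _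
  simp_rw [h1, h2]
  exact sum_comm

private theorem core_sum_le {X : M → Finset V} {ρ : M → M × M}
    (hcore : ∀ j, ((core H X (ρ j)).card : ℝ) ≤ a) :
    ((∑ j, (core H X (ρ j)).card : ℕ) : ℝ) ≤ (Fintype.card M : ℝ) * a := by
  push_cast
  calc ∑ j, ((core H X (ρ j)).card : ℝ) ≤ ∑ _j : M, a := sum_le_sum fun j _ => hcore j
    _ = (Fintype.card M : ℝ) * a := by rw [sum_const, card_univ, nsmul_eq_mul]

private theorem one_le_of_notMem_WW {X : M → Finset V} {ρ : M → M × M} {w : V}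
    (hw : w ∉ WW H ρ X) : 1 ≤ (univ.filter (fun j : M => w ∈ core H X (ρ j))).card := by
  have h : ∃ j, w ∈ core H X (ρ j) := by
    by_contra h
    push Not at h
    exact hw (by simpa [WW] using h)
  obtain ⟨j, hj⟩ := h
  exact card_pos.2 ⟨j, by simpa using hj⟩

theorem card_rest [Nonempty M] {X : M → Finset V} {ρ : M → M × M}
    (hcore : ∀ j, ((core H X (ρ j)).card : ℝ) ≤ a) (hW : (WW H ρ X).card ≤ 1) :
    ((univ \ univ.biUnion (step H ρ X)).card : ℝ) ≤ (Fintype.card M : ℝ) * a - Fintype.card V + 1 := by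
  have h2 : ∀ w ∈ univ \ univ.biUnion (step H ρ X),
      2 ≤ (univ.filter (fun j : M => w ∈ core H X (ρ j))).card := by
    intro w hw
    have hw' : ∀ l : M, ∃ j, j ≠ l ∧ w ∈ core H X (ρ j) := by
      intro l
      by_contra h
      push Not at h
      refine (mem_sdiff.1 hw).2 (mem_biUnion.2 ⟨l, mem_univ _, ?_⟩)
      simpa [step] using h
    obtain ⟨j1, _, hj1⟩ := hw' (Classical.arbitrary M)
    obtain ⟨j2, hj2, hj2'⟩ := hw' j1
    exact one_lt_card.2 ⟨j1, by simpa using hj1, j2, by simpa using hj2', hj2.symm⟩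
  have hle : ∀ w : V, (if w ∉ WW H ρ X then 1 else 0) +
      (if w ∈ univ \ univ.biUnion (step H ρ X) then 1 else 0) ≤
        (univ.filter (fun j : M => w ∈ core H X (ρ j))).card := by
    intro w
    by_cases hr : w ∈ univ \ univ.biUnion (step H ρ X)
    · rw [if_pos hr]
      have := h2 w hr
      split_ifs <;> omega
    · rw [if_neg hr]
      by_cases hw : w ∈ WW H ρ X
      · rw [if_neg (not_not.2 hw)]
        exact Nat.zero_le _
      · rw [if_pos hw]
        exact one_le_of_notMem_WW hw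
  have hsum := sum_le_sum (s := (univ : Finset V)) fun w _ => hle w
  rw [sum_add_distrib, ← card_filter, ← card_filter, filter_univ_mem, ← core_sum] at hsum
  have hc : (univ.filter (fun w : V => w ∉ WW H ρ X)).card + (WW H ρ X).card = Fintype.card V := by
    have := card_filter_add_card_filter_not (s := (univ : Finset V)) (fun w => w ∈ WW H ρ X)
    rw [filter_univ_mem, card_univ] at this
    omega
  have h3 : Fintype.card V + (univ \ univ.biUnion (step H ρ X)).card ≤
      (∑ j, (core H X (ρ j)).card) + 1 := by omega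
  have h4 : (Fintype.card V : ℝ) + ((univ \ univ.biUnion (step H ρ X)).card : ℝ) ≤
      ((∑ j, (core H X (ρ j)).card : ℕ) : ℝ) + 1 := by exact_mod_cast h3
  have h5 := core_sum_le hcore
  linarith

theorem slack_ge {X : M → Finset V} {ρ : M → M × M}
    (hcore : ∀ j, ((core H X (ρ j)).card : ℝ) ≤ a) (hW : (WW H ρ X).card ≤ 1) :
    -1 ≤ (Fintype.card M : ℝ) * a - Fintype.card V := by
  have hle : ∀ w : V, (if w ∉ WW H ρ X then 1 else 0) ≤
        (univ.filter (fun j : M => w ∈ core H X (ρ j))).card := by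
    intro w
    by_cases hw : w ∈ WW H ρ X
    · rw [if_neg (not_not.2 hw)]
      exact Nat.zero_le _
    · rw [if_pos hw]
      exact one_le_of_notMem_WW hw
  have hsum := sum_le_sum (s := (univ : Finset V)) fun w _ => hle w
  rw [← card_filter, ← core_sum] at hsum
  have hc : (univ.filter (fun w : V => w ∉ WW H ρ X)).card + (WW H ρ X).card = Fintype.card V := by
    have := card_filter_add_card_filter_not (s := (univ : Finset V)) (fun w => w ∈ WW H ρ X)
    rw [filter_univ_mem, card_univ] at this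
    omega
  have h3 : Fintype.card V ≤ (∑ j, (core H X (ρ j)).card) + 1 := by omega
  have h4 : (Fintype.card V : ℝ) ≤ ((∑ j, (core H X (ρ j)).card : ℕ) : ℝ) + 1 := by exact_mod_cast h3
  have h5 := core_sum_le hcore
  linarith

end CT3
end

section

section

/-!
# A finite probability space for the colours

`Ω = Fin Q × Fin κ` with `Q` large (`3 / Q ≤ δ`), `q0 = ⌊r Q⌋` (so `q0 ≤ r Q < q0 + 1`), colour `0` if the first coordinate is `< q0`,
otherwise the second coordinate plus one.  `#{c a = c b ≠ 0} = (Q - q0)^2 κ`, `|Ω|^2 = Q^2 κ^2`, and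
`(Q - q0)/Q ≤ 1 - r + 1/Q`.  `#{c a = 0} = q0 κ ≤ r Q κ`.  If `r = 0` then `q0 = 0`.
-/

set_option autoImplicit false

open Finset

namespace CT3

theorem col_prob (κ : ℕ) (hκ : 1 ≤ κ) (r δ : ℝ) (h0 : 0 ≤ r) (h1 : r ≤ 1) (hδ : 0 < δ) :
    ∃ (Ω : Type) (_ : Fintype Ω) (_ : DecidableEq Ω) (c : Ω → Fin (κ + 1)), 0 < Fintype.card Ω ∧
      ((univ.filter (fun q : Ω × Ω => c q.1 = c q.2 ∧ c q.1 ≠ 0)).card : ℝ) ≤
        ((1 - r) ^ 2 / κ + δ) * (Fintype.card Ω : ℝ) ^ 2 ∧
      ((univ.filter (fun a : Ω => c a = 0)).card : ℝ) ≤ r * (Fintype.card Ω : ℝ) ∧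
      (r = 0 → ∀ a, c a ≠ 0) := by
  classical
  obtain ⟨Q, hQ1, hQδ⟩ : ∃ Q : ℕ, 1 ≤ Q ∧ 3 ≤ δ * (Q : ℝ) := by
    refine ⟨⌈3 / δ⌉₊ + 1, by omega, ?_⟩
    have h2 : 3 / δ ≤ (⌈3 / δ⌉₊ : ℝ) := Nat.le_ceil _
    have h3 : 3 / δ ≤ ((⌈3 / δ⌉₊ + 1 : ℕ) : ℝ) := by push_cast; linarith
    rw [div_le_iff₀ hδ] at h3
    linarith
  obtain ⟨q0, hq0, hq0', hq00⟩ : ∃ q0 : ℕ, (q0 : ℝ) ≤ r * Q ∧ r * Q < q0 + 1 ∧ (r = 0 → q0 = 0) := by
    refine ⟨⌊r * Q⌋₊, Nat.floor_le (by positivity), Nat.lt_floor_add_one _, fun h => by simp [h]⟩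
  have hQ1' : (1 : ℝ) ≤ Q := by exact_mod_cast hQ1
  have hκ' : (1 : ℝ) ≤ κ := by exact_mod_cast hκ
  have hq0Q : q0 ≤ Q := by
    have : (q0 : ℝ) ≤ Q := by nlinarith
    exact_mod_cast this
  let c : Fin Q × Fin κ → Fin (κ + 1) := fun a => if (a.1 : ℕ) < q0 then 0 else a.2.succ
  have hc0 : ∀ a, c a = 0 ↔ (a.1 : ℕ) < q0 := by
    intro a
    by_cases h : (a.1 : ℕ) < q0
    · simp [c, h]
    · simp [c, h]
  have hcs : ∀ a, ¬ (a.1 : ℕ) < q0 → c a = a.2.succ := by
    intro a h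
    simp [c, h]
  refine ⟨Fin Q × Fin κ, inferInstance, inferInstance, c, ?_, ?_, ?_, ?_⟩
  · rw [Fintype.card_prod, Fintype.card_fin, Fintype.card_fin]
    exact Nat.mul_pos (by omega) (by omega)
  · have hcard : (univ.filter (fun q : (Fin Q × Fin κ) × (Fin Q × Fin κ) => c q.1 = c q.2 ∧ c q.1 ≠ 0)).card
        ≤ (((Finset.Ico q0 Q) ×ˢ (Finset.Ico q0 Q)) ×ˢ (Finset.univ : Finset (Fin κ))).card := by
      refine Finset.card_le_card_of_injOn (fun q => (((q.1.1 : ℕ), (q.2.1 : ℕ)), q.1.2)) ?_ ?_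
      · intro q hq
        have hq' := (Finset.mem_filter.1 (Finset.mem_coe.1 hq)).2
        have h1 : ¬ (q.1.1 : ℕ) < q0 := fun h => hq'.2 ((hc0 _).2 h)
        have h2 : ¬ (q.2.1 : ℕ) < q0 := fun h => hq'.2 (hq'.1.trans ((hc0 _).2 h))
        simp only [Finset.coe_product, Set.mem_prod, Finset.mem_coe, Finset.mem_Ico, Finset.mem_univ, and_true]
        exact ⟨⟨by omega, q.1.1.2⟩, ⟨by omega, q.2.1.2⟩⟩
      · intro q hq q' hq' h
        have hq := (Finset.mem_filter.1 (Finset.mem_coe.1 hq)).2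
        have hq' := (Finset.mem_filter.1 (Finset.mem_coe.1 hq')).2
        have h1 : ¬ (q.1.1 : ℕ) < q0 := fun h => hq.2 ((hc0 _).2 h)
        have h2 : ¬ (q.2.1 : ℕ) < q0 := fun h => hq.2 (hq.1.trans ((hc0 _).2 h))
        have h1' : ¬ (q'.1.1 : ℕ) < q0 := fun h => hq'.2 ((hc0 _).2 h)
        have h2' : ¬ (q'.2.1 : ℕ) < q0 := fun h => hq'.2 (hq'.1.trans ((hc0 _).2 h))
        have e1 : q.1.2 = q.2.2 := by
          have := hq.1
          rw [hcs _ h1, hcs _ h2] at this
          exact Fin.succ_injective _ this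
        have e2 : q'.1.2 = q'.2.2 := by
          have := hq'.1
          rw [hcs _ h1', hcs _ h2'] at this
          exact Fin.succ_injective _ this
        simp only [Prod.mk.injEq] at h
        obtain ⟨⟨ha, hb⟩, hc⟩ := h
        refine Prod.ext (Prod.ext (Fin.ext ha) hc) (Prod.ext (Fin.ext hb) ?_)
        rw [← e1, ← e2, hc]
    rw [Finset.card_product, Finset.card_product, Nat.card_Ico, Finset.card_univ, Fintype.card_fin] at hcard
    have hcard' : ((univ.filter (fun q : (Fin Q × Fin κ) × (Fin Q × Fin κ) => c q.1 = c q.2 ∧ c q.1 ≠ 0)).card : ℝ)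
        ≤ ((Q : ℝ) - q0) * ((Q : ℝ) - q0) * κ := by
      have : ((univ.filter (fun q : (Fin Q × Fin κ) × (Fin Q × Fin κ) => c q.1 = c q.2 ∧ c q.1 ≠ 0)).card : ℝ)
          ≤ (((Q - q0) * (Q - q0) * κ : ℕ) : ℝ) := by exact_mod_cast hcard
      push_cast [Nat.cast_sub hq0Q] at this
      exact this
    refine hcard'.trans ?_
    rw [Fintype.card_prod, Fintype.card_fin, Fintype.card_fin]
    push_cast
    have hd : (Q : ℝ) - q0 ≤ (1 - r) * Q + 1 := by linarith
    have hd0 : 0 ≤ (Q : ℝ) - q0 := by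
      have : (q0 : ℝ) ≤ Q := by exact_mod_cast hq0Q
      linarith
    have h2 : ((Q : ℝ) - q0) * ((Q : ℝ) - q0) ≤ ((1 - r) * Q + 1) * ((1 - r) * Q + 1) :=
      mul_le_mul hd hd hd0 (hd0.trans hd)
    have h3 : ((1 - r) * Q + 1) * ((1 - r) * Q + 1) ≤ (1 - r) ^ 2 * (Q : ℝ) ^ 2 + 3 * Q := by
      nlinarith [mul_nonneg h0 (by linarith : (0 : ℝ) ≤ Q)]
    have h4 : (3 : ℝ) * Q ≤ δ * Q ^ 2 * κ := by
      have h5 : (3 : ℝ) * Q ≤ δ * Q * Q := mul_le_mul_of_nonneg_right hQδ (by linarith)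
      have h6 : δ * Q * Q ≤ δ * Q * Q * κ := le_mul_of_one_le_right (by positivity) hκ'
      calc (3 : ℝ) * Q ≤ δ * Q * Q * κ := h5.trans h6
        _ = δ * Q ^ 2 * κ := by ring
    have h7 : ((1 - r) ^ 2 / κ + δ) * ((Q : ℝ) * κ) ^ 2 = ((1 - r) ^ 2 * (Q : ℝ) ^ 2 + δ * Q ^ 2 * κ) * κ := by
      field_simp
    rw [h7]
    refine mul_le_mul_of_nonneg_right ?_ (by linarith)
    linarith
  · have hcard : (univ.filter (fun a : Fin Q × Fin κ => c a = 0)).card
        ≤ ((Finset.range q0) ×ˢ (Finset.univ : Finset (Fin κ))).card := by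
      refine Finset.card_le_card_of_injOn (fun a => ((a.1 : ℕ), a.2)) ?_ ?_
      · intro a ha
        have ha' := (hc0 a).1 (Finset.mem_filter.1 (Finset.mem_coe.1 ha)).2
        simp only [Finset.coe_product, Set.mem_prod, Finset.mem_coe, Finset.mem_range, Finset.mem_univ, and_true]
        exact ha'
      · intro a _ b _ h
        simp only [Prod.mk.injEq] at h
        exact Prod.ext (Fin.ext h.1) h.2
    rw [Finset.card_product, Finset.card_range, Finset.card_univ, Fintype.card_fin] at hcard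
    have hcard' : ((univ.filter (fun a : Fin Q × Fin κ => c a = 0)).card : ℝ) ≤ (q0 : ℝ) * κ := by
      exact_mod_cast hcard
    refine hcard'.trans ?_
    rw [Fintype.card_prod, Fintype.card_fin, Fintype.card_fin]
    push_cast
    calc (q0 : ℝ) * κ ≤ r * Q * κ := mul_le_mul_of_nonneg_right hq0 (by linarith)
      _ = r * (Q * κ) := by ring
  · intro hr a ha
    rw [hc0, hq00 hr] at ha
    omega

end CT3
end

section

/-!
# A real recursion

Claim: `a (g-1) < a b` for all `b < g - 1`.  Otherwise let `b < g - 1` be the least with `a b ≤ a (g-1)`; for `j < b` we have `a (g-1) < a j`, so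
`a (j+1) ^ 2 = a j / 2` for `j + 1 ≤ b` and hence (`formula`) `a b ^ (2^(b+1)) = (1/2)^(2^(b+1) - 1)`, which gives `a b > 1/2`,
`a (g-1) > 1/2`.  Then `a j < a (g-1)` for `b < j ≤ g - 1` by induction: `a j ^ 2 ≤ max (a (j-1)) (a (g-1)) / 2 = a (g-1) / 2 < a (g-1) ^ 2`;
contradiction for `j = g - 1`.  So `formula` holds for `b = g - 1`.
-/

set_option autoImplicit false

namespace CT3

theorem seq_formula (a : ℕ → ℝ) (b : ℕ) (h0 : a 0 ^ 2 = 1 / 2) (hstep : ∀ j, j < b → a (j + 1) ^ 2 = a j / 2) :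
    a b ^ (2 ^ (b + 1)) = (1 / 2) ^ (2 ^ (b + 1) - 1) := by
  induction b with
  | zero => norm_num [h0]
  | succ b ih =>
    have h1 := ih (fun j hj => hstep j (by omega))
    have h2 : (2 : ℕ) ^ (b + 1 + 1) = 2 * 2 ^ (b + 1) := by ring
    have h3 : 1 ≤ 2 ^ (b + 1) := Nat.one_le_two_pow
    rw [h2, pow_mul, hstep b (by omega), div_eq_mul_one_div, mul_pow, h1, ← pow_add]
    congr 1
    omega

theorem seq_lemma (g : ℕ) (hg : 1 ≤ g) (a : ℕ → ℝ) (hn : ∀ b, 0 ≤ a b) (h0 : a 0 ^ 2 = 1 / 2)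
    (hle : ∀ b, b + 1 < g → a (b + 1) ^ 2 ≤ max (a b) (a (g - 1)) / 2)
    (heq : ∀ b, b + 1 < g → a (g - 1) < a b → a (b + 1) ^ 2 = a b / 2) :
    a (g - 1) ^ (2 ^ g) = (1 / 2) ^ (2 ^ g - 1) := by
  have key : ∀ b, b < g - 1 → a (g - 1) < a b := by
    by_contra hcon
    push Not at hcon
    classical
    obtain ⟨b, hb, hmin⟩ : ∃ b, (b < g - 1 ∧ a b ≤ a (g - 1)) ∧
        ∀ j < b, ¬ (j < g - 1 ∧ a j ≤ a (g - 1)) :=
      ⟨Nat.find hcon, Nat.find_spec hcon, fun j hj => Nat.find_min hcon hj⟩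
    have hlt : ∀ j, j < b → a (g - 1) < a j := by
      intro j hj
      by_contra hc
      exact hmin j hj ⟨by omega, not_lt.1 hc⟩
    have hf := seq_formula a b h0 (fun j hj => heq j (by omega) (hlt j hj))
    have hab : 1 / 2 < a b := by
      by_contra hc
      have h1 : a b ^ (2 ^ (b + 1)) ≤ (1 / 2) ^ (2 ^ (b + 1)) :=
        pow_le_pow_left₀ (hn b) (not_lt.1 hc) _
      have h2 : ((1 : ℝ) / 2) ^ (2 ^ (b + 1)) < (1 / 2) ^ (2 ^ (b + 1) - 1) := by
        apply pow_lt_pow_right_of_lt_one₀ (by norm_num) (by norm_num)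
        have : 1 ≤ 2 ^ (b + 1) := Nat.one_le_two_pow
        omega
      linarith
    have hgt : 1 / 2 < a (g - 1) := lt_of_lt_of_le hab hb.2
    have hstep : ∀ j, j + 1 < g → a j ≤ a (g - 1) → a (j + 1) < a (g - 1) := by
      intro j hj hja
      have h1 := hle j hj
      rw [max_eq_right hja] at h1
      have h2 : a (j + 1) ^ 2 < a (g - 1) ^ 2 := by nlinarith
      exact lt_of_pow_lt_pow_left₀ 2 (hn _) h2
    have hind : ∀ k, b + k + 1 ≤ g - 1 → a (b + k + 1) < a (g - 1) := by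
      intro k
      induction k with
      | zero => exact fun hk => hstep b (by omega) hb.2
      | succ k ih => exact fun hk => hstep (b + k + 1) (by omega) (ih (by omega)).le
    have := hind (g - 1 - b - 1) (by omega)
    have he : b + (g - 1 - b - 1) + 1 = g - 1 := by omega
    rw [he] at this
    exact lt_irrefl _ this
  have hf := seq_formula a (g - 1) h0 (fun j hj => heq j (by omega) (key j hj))
  have he : g - 1 + 1 = g := by omega
  rw [he] at hf
  exact hf

end CT3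
end

section

/-!
# The 2-adic norms, I: everything is integral (paper, section 6, (a), (b))

`x b = Q b / 2`, so `κ x^2 = P (2 x - 1)`.  `lam_norm`: suppose `‖lam‖ > 1`.  From `Q (g-1) = lam - κ` (`‖κ‖ = 1`):
`‖Q (g-1)‖ = ‖lam‖`, `‖x (g-1)‖ = 2 ‖lam‖ > 2`.  If `‖x b‖ > 2` then `‖2 x b - 1‖ = ‖x b‖ / 2`, `‖P b‖ = 2 ‖x b‖`.  Downward induction
on `b`: `‖x b‖ ≥ 2 ‖lam‖`: `‖P b‖ = 2 ‖x b‖ > ‖lam‖`, `P b = lam - 2 x (b-1)`, so `‖2 x (b-1)‖ = ‖P b‖`, `‖x (b-1)‖ = 4 ‖x b‖`.
At `b = 0`: `‖lam‖ = ‖P 0‖ = 2 ‖x 0‖ > ‖lam‖`, contradiction.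
`int`: upward induction: `‖P b‖ ≤ 1` implies `‖x b‖ ≤ 1` (else `‖x‖^2 = ‖P‖ ‖2x - 1‖ ≤ max (‖x‖/2) 1 < ‖x‖^2`), so
`‖P (b+1)‖ ≤ 1`.
`units`: `‖lam - κ‖ = ‖2 x (g-1)‖ ≤ 1/2`, so `‖lam‖ = 1`; `‖P b - lam‖ ≤ 1/2` for `b ≥ 1`, so `‖P b‖ = 1`; `‖2 x b - 1‖ = 1`, so `‖x b‖ = 1`,
i.e. `‖Q b‖ = 1/2`.
-/

set_option autoImplicit false

namespace CT3

variable {K : Type*} [NormedField K] [IsUltrametricDist K]

private theorem n03_sub_le (a b : K) : ‖a - b‖ ≤ max ‖a‖ ‖b‖ := by
  have h := IsUltrametricDist.norm_add_le_max a (-b)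
  rw [norm_neg, ← sub_eq_add_neg] at h
  exact h

private theorem n03_sub_eq {a b : K} (h : ‖b‖ < ‖a‖) : ‖a - b‖ = ‖a‖ := by
  apply le_antisymm
  · have h1 := n03_sub_le a b
    rw [max_eq_left h.le] at h1
    exact h1
  · by_contra hcon
    have h1 : ‖a - b‖ < ‖a‖ := not_le.1 hcon
    have h2 : ‖a‖ ≤ max ‖a - b‖ ‖b‖ := by
      have h3 := IsUltrametricDist.norm_add_le_max (a - b) b
      rw [sub_add_cancel] at h3
      exact h3
    exact absurd h2 (not_le.2 (max_lt h1 h))

private theorem n03_norm4 (h2 : ‖(2 : K)‖ = 1 / 2) : ‖(4 : K)‖ = 1 / 4 := by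
  have h4 : (4 : K) = 2 * 2 := by norm_num
  rw [h4, norm_mul, h2]
  norm_num

private theorem n03_rel (h2 : ‖(2 : K)‖ = 1 / 2) {κ p q : K} (hκ : ‖κ‖ = 1)
    (rel : κ * q ^ 2 = 4 * p * (q - 1)) : ‖q‖ ^ 2 = 1 / 4 * ‖p‖ * ‖q - 1‖ := by
  have h := congrArg norm rel
  rw [norm_mul, norm_pow, hκ, one_mul, norm_mul, norm_mul, n03_norm4 h2] at h
  exact h

theorem lam_norm (h2 : ‖(2 : K)‖ = 1 / 2) (g : ℕ) (hg : 1 ≤ g) (κ lam : K) (hκ : ‖κ‖ = 1) (P Q : ℕ → K)
    (P0 : P 0 = lam) (Ps : ∀ b, b < g → P (b + 1) = lam - Q b)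
    (rel : ∀ b, b < g → κ * Q b ^ 2 = 4 * P b * (Q b - 1)) (Pg : P g = κ) : ‖lam‖ ≤ 1 := by
  by_contra hcon
  have hl : 1 < ‖lam‖ := not_le.1 hcon
  -- size of `P b` from the size of `Q b`
  have hP : ∀ b, b < g → ‖lam‖ ≤ ‖Q b‖ → ‖P b‖ = 4 * ‖Q b‖ := by
    intro b hb hQ
    have h1 : ‖Q b - 1‖ = ‖Q b‖ := n03_sub_eq (by rw [norm_one]; linarith)
    have h3 := n03_rel h2 hκ (rel b hb)
    rw [h1] at h3
    have hq : 0 < ‖Q b‖ := by linarith
    have h4 : ‖Q b‖ * (4 * ‖Q b‖) = ‖Q b‖ * ‖P b‖ := by nlinarith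
    exact (mul_left_cancel₀ hq.ne' h4).symm
  have key : ∀ k, k < g → ‖lam‖ ≤ ‖Q (g - 1 - k)‖ := by
    intro k
    induction k with
    | zero =>
      intro _
      have h1 := Ps (g - 1) (by omega)
      rw [Nat.sub_add_cancel hg, Pg] at h1
      have h3 : Q (g - 1 - 0) = lam - κ := by
        rw [Nat.sub_zero, h1]
        ring
      rw [h3, n03_sub_eq (by rw [hκ]; exact hl)]
    | succ k ih =>
      intro hk
      have h1 := ih (by omega)
      have h3 := hP (g - 1 - k) (by omega) h1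
      have h4 := Ps (g - 1 - (k + 1)) (by omega)
      have h5 : g - 1 - (k + 1) + 1 = g - 1 - k := by omega
      rw [h5] at h4
      have h6 : Q (g - 1 - (k + 1)) = lam - P (g - 1 - k) := by
        rw [h4]
        ring
      have h7 : ‖lam - P (g - 1 - k)‖ = ‖P (g - 1 - k)‖ := by
        rw [norm_sub_rev]
        exact n03_sub_eq (by rw [h3]; linarith)
      rw [h6, h7, h3]
      linarith
  have h1 := key (g - 1) (by omega)
  rw [Nat.sub_self] at h1
  have h3 := hP 0 (by omega) h1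
  rw [P0] at h3
  linarith

theorem int_norm (h2 : ‖(2 : K)‖ = 1 / 2) (g : ℕ) (κ lam : K) (hκ : ‖κ‖ = 1) (P Q : ℕ → K)
    (P0 : P 0 = lam) (Ps : ∀ b, b < g → P (b + 1) = lam - Q b)
    (rel : ∀ b, b < g → κ * Q b ^ 2 = 4 * P b * (Q b - 1)) (hlam : ‖lam‖ ≤ 1) (b : ℕ) (hb : b < g) :
    ‖P b‖ ≤ 1 ∧ ‖Q b‖ ≤ 1 / 2 := by
  have hQ : ∀ b, b < g → ‖P b‖ ≤ 1 → ‖Q b‖ ≤ 1 / 2 := by
    intro b hb hP
    by_contra hcon
    have hq : 1 / 2 < ‖Q b‖ := not_le.1 hcon
    have h3 := n03_rel h2 hκ (rel b hb)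
    have h4 := n03_sub_le (Q b) 1
    rw [norm_one] at h4
    have h5 : ‖Q b‖ ^ 2 ≤ 1 / 4 * ‖Q b - 1‖ := by
      rw [h3]
      have h6 : 0 ≤ ‖Q b - 1‖ := norm_nonneg _
      nlinarith
    rcases le_total ‖Q b‖ 1 with h | h
    · rw [max_eq_right h] at h4
      nlinarith
    · rw [max_eq_left h] at h4
      nlinarith
  induction b with
  | zero =>
    have h1 : ‖P 0‖ ≤ 1 := by rw [P0]; exact hlam
    exact ⟨h1, hQ 0 hb h1⟩
  | succ b ih =>
    obtain ⟨_, h1⟩ := ih (by omega)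
    have h3 : ‖P (b + 1)‖ ≤ 1 := by
      rw [Ps b (by omega)]
      exact (n03_sub_le _ _).trans (max_le hlam (h1.trans (by norm_num)))
    exact ⟨h3, hQ (b + 1) hb h3⟩

theorem units_norm (h2 : ‖(2 : K)‖ = 1 / 2) (g : ℕ) (hg : 1 ≤ g) (κ lam : K) (hκ : ‖κ‖ = 1) (P Q : ℕ → K)
    (P0 : P 0 = lam) (Ps : ∀ b, b < g → P (b + 1) = lam - Q b)
    (rel : ∀ b, b < g → κ * Q b ^ 2 = 4 * P b * (Q b - 1)) (Pg : P g = κ) (b : ℕ) (hb : b < g) :
    ‖P b‖ = 1 ∧ ‖Q b‖ = 1 / 2 := by
  have hlam : ‖lam‖ ≤ 1 := lam_norm h2 g hg κ lam hκ P Q P0 Ps rel Pg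
  have hint : ∀ b, b < g → ‖P b‖ ≤ 1 ∧ ‖Q b‖ ≤ 1 / 2 := fun b hb =>
    int_norm h2 g κ lam hκ P Q P0 Ps rel hlam b hb
  have hl1 : ‖lam‖ = 1 := by
    have h1 := Ps (g - 1) (by omega)
    rw [Nat.sub_add_cancel hg, Pg] at h1
    have h3 : lam = κ - -Q (g - 1) := by
      rw [h1]
      ring
    rw [h3, n03_sub_eq (by
      rw [norm_neg, hκ]
      exact (hint (g - 1) (by omega)).2.trans_lt (by norm_num)), hκ]
  have hP1 : ‖P b‖ = 1 := by
    rcases Nat.eq_zero_or_pos b with h0 | h0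
    · rw [h0, P0, hl1]
    · have h1 := Ps (b - 1) (by omega)
      rw [Nat.sub_add_cancel h0] at h1
      rw [h1, n03_sub_eq (by
        rw [hl1]
        exact (hint (b - 1) (by omega)).2.trans_lt (by norm_num)), hl1]
  have hQ1 : ‖Q b - 1‖ = 1 := by
    rw [norm_sub_rev, n03_sub_eq (by
      rw [norm_one]
      exact (hint b hb).2.trans_lt (by norm_num)), norm_one]
  refine ⟨hP1, ?_⟩
  have h3 := n03_rel h2 hκ (rel b hb)
  rw [hP1, hQ1] at h3
  have h4 : ‖Q b‖ ^ 2 = (1 / 2) ^ 2 := by rw [h3]; norm_num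
  exact (pow_left_inj₀ (norm_nonneg _) (by norm_num) (by norm_num)).1 h4

end CT3
end

section

/-!
# Bad events of small probability are rarely frequent

`few_bad'`: if `p + ε ≥ 1` there is no such `f` (at most `N` indices), any `ϑ` works; otherwise apply `CT.few_bad` with
`q = 1 - p` (`ε ≤ q ≤ 1`) to the complement of `B` : `#{i | f i ∉ B} = N - #{i | f i ∈ B} < (q - ε) N`.
`card_one`, `card_two`: product structure of `Fin n → Ω`.
-/

set_option autoImplicit false

open Finset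

namespace CT3

theorem few_bad' (p ε : ℝ) (hε : 0 < ε) (hp : 0 ≤ p) : ∃ ϑ : ℝ, 0 < ϑ ∧ ϑ < 1 ∧
    ∀ (Ω : Type) [Fintype Ω] [DecidableEq Ω] (B : Finset Ω), (B.card : ℝ) ≤ p * (Fintype.card Ω : ℝ) → ∀ N : ℕ,
      ((univ.filter (fun f : Fin N → Ω => (p + ε) * N < ((univ.filter (fun i => f i ∈ B)).card : ℝ))).card : ℝ)
        ≤ ϑ ^ N * (Fintype.card Ω : ℝ) ^ N := by
  rcases le_or_gt 1 (p + ε) with h | h
  · refine ⟨1 / 2, by norm_num, by norm_num, ?_⟩
    intro Ω _ _ B hB N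
    have h1 : univ.filter (fun f : Fin N → Ω =>
        (p + ε) * N < ((univ.filter (fun i => f i ∈ B)).card : ℝ)) = ∅ := by
      rw [filter_eq_empty_iff]
      intro f _ hf
      have h2 : (univ.filter (fun i => f i ∈ B)).card ≤ N := by
        refine (card_le_univ _).trans ?_
        simp
      have h3 : ((univ.filter (fun i => f i ∈ B)).card : ℝ) ≤ N := by exact_mod_cast h2
      have h4 : (0 : ℝ) ≤ N := Nat.cast_nonneg N
      nlinarith
    rw [h1, card_empty, Nat.cast_zero]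
    positivity
  · obtain ⟨ϑ, h0, h1, h2⟩ := CT.few_bad (1 - p) ε hε (by linarith) (by linarith)
    refine ⟨ϑ, h0, h1, ?_⟩
    intro Ω _ _ B hB N
    have h3 := h2 Ω (univ \ B) (by
      rw [card_sdiff_of_subset (subset_univ B), card_univ, Nat.cast_sub (card_le_univ B)]
      linarith) N
    refine le_trans ?_ h3
    norm_cast
    apply card_le_card
    intro f hf
    rw [mem_filter] at hf ⊢
    refine ⟨mem_univ _, ?_⟩
    have h4 : (univ.filter (fun i => f i ∈ univ \ B)).card + (univ.filter (fun i => f i ∈ B)).card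
        = N := by
      have h5 := card_filter_add_card_filter_not (s := (univ : Finset (Fin N)))
        (fun i => f i ∈ B)
      have h6 : univ.filter (fun i => f i ∈ univ \ B) = univ.filter (fun i => ¬ f i ∈ B) := by
        apply filter_congr
        intro i _
        simp
      rw [h6]
      rw [card_univ, Fintype.card_fin] at h5
      omega
    have h7 : ((univ.filter (fun i => f i ∈ univ \ B)).card : ℝ) +
        ((univ.filter (fun i => f i ∈ B)).card : ℝ) = N := by exact_mod_cast h4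
    have h8 := hf.2
    have h9 : ((univ.filter (fun i => f i ∈ univ \ B)).card : ℝ) ≤ (1 - p - ε) * N := by
      nlinarith
    exact h9

theorem card_one {n : ℕ} {Ω : Type} [Fintype Ω] [DecidableEq Ω] (P : Ω → Prop) [DecidablePred P]
    (x : Fin n) : (univ.filter (fun ω : Fin n → Ω => P (ω x))).card * Fintype.card Ω =
      (univ.filter (fun a : Ω => P a)).card * Fintype.card (Fin n → Ω) := by
  rw [← card_univ (α := Ω), ← card_univ (α := Fin n → Ω), ← card_product, ← card_product]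
  refine card_bij' (fun q _ => (q.1 x, Function.update q.1 x q.2))
    (fun q _ => (Function.update q.2 x q.1, q.2 x)) ?_ ?_ ?_ ?_
  · intro q hq
    rw [mem_product, mem_filter] at hq
    rw [mem_product, mem_filter]
    exact ⟨⟨mem_univ _, hq.1.2⟩, mem_univ _⟩
  · intro q hq
    rw [mem_product, mem_filter] at hq
    rw [mem_product, mem_filter]
    refine ⟨⟨mem_univ _, ?_⟩, mem_univ _⟩
    simpa using hq.1.2
  · intro q _
    simp
  · intro q _
    simp

theorem card_two {n : ℕ} {Ω : Type} [Fintype Ω] [DecidableEq Ω] (P : Ω → Ω → Prop) [DecidableRel P]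
    {x y : Fin n} (hxy : x ≠ y) :
    (univ.filter (fun ω : Fin n → Ω => P (ω x) (ω y))).card * Fintype.card Ω ^ 2 =
      (univ.filter (fun q : Ω × Ω => P q.1 q.2)).card * Fintype.card (Fin n → Ω) := by
  have h2 : Fintype.card Ω ^ 2 = Fintype.card (Ω × Ω) := by
    rw [Fintype.card_prod, sq]
  rw [h2, ← card_univ (α := Ω × Ω), ← card_univ (α := Fin n → Ω), ← card_product, ← card_product]
  refine card_bij' (fun q _ => ((q.1 x, q.1 y), Function.update (Function.update q.1 x q.2.1) y q.2.2))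
    (fun q _ => (Function.update (Function.update q.2 x q.1.1) y q.1.2, (q.2 x, q.2 y))) ?_ ?_ ?_ ?_
  · intro q hq
    rw [mem_product, mem_filter] at hq
    rw [mem_product, mem_filter]
    exact ⟨⟨mem_univ _, hq.1.2⟩, mem_univ _⟩
  · intro q hq
    rw [mem_product, mem_filter] at hq
    rw [mem_product, mem_filter]
    refine ⟨⟨mem_univ _, ?_⟩, mem_univ _⟩
    have := hq.1.2
    simpa [Function.update_of_ne hxy] using this
  · rintro ⟨ω, b, c⟩ _
    refine Prod.ext ?_ ?_
    · funext z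
      by_cases hz : z = y
      · subst hz
        simp
      · by_cases hz' : z = x
        · subst hz'
          simp [Function.update_of_ne hxy]
        · simp [Function.update_of_ne hz, Function.update_of_ne hz']
    · simp [Function.update_of_ne hxy]
  · rintro ⟨⟨a, b⟩, ω⟩ _
    refine Prod.ext ?_ ?_
    · simp [Function.update_of_ne hxy]
    · funext z
      by_cases hz : z = y
      · subst hz
        simp
      · by_cases hz' : z = x
        · subst hz'
          simp [Function.update_of_ne hxy]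
        · simp [Function.update_of_ne hz, Function.update_of_ne hz']

end CT3
end

section

/-!
# The 2-adic norms, II (paper, section 6, (c), (d))

`r b = 2 / Q b - 1`; `‖1 + r b‖ = 1`, `‖r b‖ ≤ 1`.  `r_sq`: `κ = P b (1 - r b ^ 2)`, so `‖r b‖^2 = ‖P b - κ‖`.  `b = 0`:
`P 0 - κ = lam - κ = Q (g-1)`, norm `1/2`.  `b + 1`: `P (b+1) - κ = Q (g-1) - Q b = 2 (1/(1 + r (g-1)) - 1/(1 + r b))`, of norm
`‖r b - r (g-1)‖ / 2`.  `seq_lemma` for `a b = ‖r b‖`; `‖r b - r (g-1)‖ = ‖r b‖` if `‖r (g-1)‖ < ‖r b‖`.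
-/

set_option autoImplicit false

namespace CT3

variable {K : Type*} [NormedField K] [IsUltrametricDist K]

private theorem n04_sub_le (a b : K) : ‖a - b‖ ≤ max ‖a‖ ‖b‖ := by
  have h := IsUltrametricDist.norm_add_le_max a (-b)
  rw [norm_neg, ← sub_eq_add_neg] at h
  exact h

private theorem n04_sub_eq {a b : K} (h : ‖b‖ < ‖a‖) : ‖a - b‖ = ‖a‖ := by
  apply le_antisymm
  · have h1 := n04_sub_le a b
    rw [max_eq_left h.le] at h1
    exact h1
  · by_contra hcon
    have h1 : ‖a - b‖ < ‖a‖ := not_le.1 hcon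
    have h2 : ‖a‖ ≤ max ‖a - b‖ ‖b‖ := by
      have h3 := IsUltrametricDist.norm_add_le_max (a - b) b
      rw [sub_add_cancel] at h3
      exact h3
    exact absurd h2 (not_le.2 (max_lt h1 h))

private theorem n04_ne {q : K} (hq : ‖q‖ = 1 / 2) : q ≠ 0 := by
  intro h
  rw [h, norm_zero] at hq
  norm_num at hq

/-- `‖r b‖ ^ 2 = ‖P b - κ‖` -/
private theorem n04_sq {κ p q : K} (hp : ‖p‖ = 1) (hq : ‖q‖ = 1 / 2)
    (rel : κ * q ^ 2 = 4 * p * (q - 1)) : ‖2 / q - 1‖ ^ 2 = ‖p - κ‖ := by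
  have hq0 : q ≠ 0 := n04_ne hq
  have h1 : κ = p * (1 - (2 / q - 1) ^ 2) := by
    have h2 : q ^ 2 ≠ 0 := pow_ne_zero 2 hq0
    apply mul_right_cancel₀ h2
    rw [rel]
    field_simp
    ring
  have h3 : p - κ = p * (2 / q - 1) ^ 2 := by
    linear_combination (-1 : K) * h1
  rw [h3, norm_mul, norm_pow, hp, one_mul]

/-- `‖q' - q‖ = ‖r - r'‖ / 2` -/
private theorem n04_diff (h2 : ‖(2 : K)‖ = 1 / 2) {q q' : K} (hq : ‖q‖ = 1 / 2) (hq' : ‖q'‖ = 1 / 2) :
    ‖q' - q‖ = ‖(2 / q - 1) - (2 / q' - 1)‖ / 2 := by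
  have hq0 : q ≠ 0 := n04_ne hq
  have hq0' : q' ≠ 0 := n04_ne hq'
  have h1 : (2 / q - 1) - (2 / q' - 1) = 2 * (q' - q) / (q * q') := by
    field_simp
    ring
  rw [h1, norm_div, norm_mul, norm_mul, h2, hq, hq']
  ring

theorem r_norms (h2 : ‖(2 : K)‖ = 1 / 2) (g : ℕ) (hg : 1 ≤ g) (κ lam : K) (hκ : ‖κ‖ = 1) (P Q : ℕ → K)
    (P0 : P 0 = lam) (Ps : ∀ b, b < g → P (b + 1) = lam - Q b)
    (rel : ∀ b, b < g → κ * Q b ^ 2 = 4 * P b * (Q b - 1)) (Pg : P g = κ) :
    ‖2 / Q 0 - 1‖ ^ 2 = 1 / 2 ∧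
      ∀ b, b + 1 < g → ‖2 / Q (b + 1) - 1‖ ^ 2 = ‖(2 / Q b - 1) - (2 / Q (g - 1) - 1)‖ / 2 := by
  have hu : ∀ b, b < g → ‖P b‖ = 1 ∧ ‖Q b‖ = 1 / 2 := fun b hb =>
    units_norm h2 g hg κ lam hκ P Q P0 Ps rel Pg b hb
  have hlast : κ = lam - Q (g - 1) := by
    have h1 := Ps (g - 1) (by omega)
    rw [Nat.sub_add_cancel hg, Pg] at h1
    exact h1
  refine ⟨?_, ?_⟩
  · obtain ⟨hp, hq⟩ := hu 0 (by omega)
    rw [n04_sq hp hq (rel 0 (by omega)), P0]
    have h3 : lam - κ = Q (g - 1) := by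
      rw [hlast]
      ring
    rw [h3]
    exact (hu (g - 1) (by omega)).2
  · intro b hb
    obtain ⟨hp, hq⟩ := hu (b + 1) hb
    rw [n04_sq hp hq (rel (b + 1) hb)]
    have h3 : P (b + 1) - κ = Q (g - 1) - Q b := by
      rw [Ps b (by omega), hlast]
      ring
    rw [h3]
    exact n04_diff h2 (hu b (by omega)).2 (hu (g - 1) (by omega)).2

theorem r_last (h2 : ‖(2 : K)‖ = 1 / 2) (g : ℕ) (hg : 1 ≤ g) (κ lam : K) (hκ : ‖κ‖ = 1) (P Q : ℕ → K)
    (P0 : P 0 = lam) (Ps : ∀ b, b < g → P (b + 1) = lam - Q b)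
    (rel : ∀ b, b < g → κ * Q b ^ 2 = 4 * P b * (Q b - 1)) (Pg : P g = κ) :
    ‖2 / Q (g - 1) - 1‖ ^ (2 ^ g) = (1 / 2) ^ (2 ^ g - 1) := by
  obtain ⟨h0, hs⟩ := r_norms h2 g hg κ lam hκ P Q P0 Ps rel Pg
  refine seq_lemma g hg (fun b => ‖2 / Q b - 1‖) (fun b => norm_nonneg _) h0 ?_ ?_
  · intro b hb
    have h1 := hs b hb
    have h3 := n04_sub_le (2 / Q b - 1) (2 / Q (g - 1) - 1)
    show ‖2 / Q (b + 1) - 1‖ ^ 2 ≤ max ‖2 / Q b - 1‖ ‖2 / Q (g - 1) - 1‖ / 2
    rw [h1]
    linarith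
  · intro b hb hlt
    have h1 := hs b hb
    have h3 : ‖(2 / Q b - 1) - (2 / Q (g - 1) - 1)‖ = ‖2 / Q b - 1‖ := n04_sub_eq hlt
    show ‖2 / Q (b + 1) - 1‖ ^ 2 = ‖2 / Q b - 1‖ / 2
    rw [h1, h3]

end CT3
end

section

/-!
# Colourings with few conflicts

`exists_col_fin`: if `N < ε n` take `col = 1` (constant).  Otherwise let `Ω, c` be as in `col_prob` with `δ = ε / 2`;
choose `f : Fin N → (Fin n → Ω)` outside the bad sets of `few_bad'` (with `ε / 2`) for the events
`{ω | c (ω x) = c (ω y) ≠ 0}`, `x ≠ y` (`card_two`) and `{ω | c (ω x) = 0}` (`card_one`): at most `2 n ^ 2` events, and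
`2 n ^ 2 ϑ ^ N < 1` for large `n`, as `N ≥ ε n`.  `col v x = c (f v x)`; `N ≤ n`.
`exists_col`: rows indexed by a set `S`: use an equivalence `S ≃ Fin |S|`, `|S| ≤ n`.
-/

set_option autoImplicit false

open Finset

namespace CT3

/-- A union bound. -/
private theorem L03_union {ι F : Type} [Fintype ι] [Fintype F] [DecidableEq F]
    (A : ι → Finset F) (t : ℝ) (hA : ∀ i, ((A i).card : ℝ) ≤ t * (Fintype.card F : ℝ))
    (ht : (Fintype.card ι : ℝ) * t < 1) (hF : 0 < Fintype.card F) : ∃ f : F, ∀ i, f ∉ A i := by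
  by_contra hcon
  push Not at hcon
  have h1 : (univ : Finset F) ⊆ univ.biUnion A := by
    intro f _
    obtain ⟨i, hi⟩ := hcon f
    exact mem_biUnion.2 ⟨i, mem_univ _, hi⟩
  have h2 : ((univ : Finset F).card : ℝ) ≤ ((univ.biUnion A).card : ℝ) := by
    exact_mod_cast card_le_card h1
  have h3 : (((univ : Finset ι).biUnion A).card : ℝ) ≤ ∑ i, ((A i).card : ℝ) := by
    exact_mod_cast card_biUnion_le
  have h4 : ∑ i, ((A i).card : ℝ) ≤ ∑ _i : ι, t * (Fintype.card F : ℝ) :=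
    sum_le_sum fun i _ => hA i
  rw [sum_const, nsmul_eq_mul, card_univ] at h4
  rw [card_univ] at h2
  have hF' : (0 : ℝ) < Fintype.card F := by exact_mod_cast hF
  nlinarith

private theorem L03_small (ϑ ε : ℝ) (h0 : 0 < ϑ) (h1 : ϑ < 1) (hε : 0 < ε) :
    ∃ n0 : ℕ, ∀ n : ℕ, n0 ≤ n → ∀ N : ℕ, ε * n ≤ N → (n : ℝ) ^ 2 * ϑ ^ N < 1 := by
  have hs0 : 0 < ϑ ^ ε := Real.rpow_pos_of_pos h0 ε
  have hs1 : ϑ ^ ε < 1 := Real.rpow_lt_one h0.le h1 hε
  have ht := tendsto_pow_const_mul_const_pow_of_abs_lt_one 2 (r := ϑ ^ ε)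
    (by rw [abs_of_pos hs0]; exact hs1)
  have hev := ht.eventually_lt_const (show (0 : ℝ) < 1 by norm_num)
  obtain ⟨n0, hn0⟩ := Filter.eventually_atTop.1 hev
  refine ⟨n0, fun n hn N hN => lt_of_le_of_lt ?_ (hn0 n hn)⟩
  have h2 : ϑ ^ N ≤ (ϑ ^ ε) ^ n := by
    rw [← Real.rpow_natCast, ← Real.rpow_natCast, ← Real.rpow_mul h0.le]
    exact Real.rpow_le_rpow_of_exponent_ge h0 h1.le hN
  exact mul_le_mul_of_nonneg_left h2 (by positivity)

theorem exists_col_fin (κ : ℕ) (hκ : 1 ≤ κ) (r ε : ℝ) (h0 : 0 ≤ r) (h1 : r ≤ 1) (hε : 0 < ε) :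
    ∃ n0 : ℕ, ∀ n : ℕ, n0 ≤ n → ∀ N : ℕ, N ≤ n → ∃ col : Fin N → Fin n → Fin (κ + 1),
      (∀ x y, x ≠ y → ((univ.filter (fun v => col v x = col v y ∧ col v x ≠ 0)).card : ℝ) ≤
        (1 - r) ^ 2 / κ * N + ε * n) ∧
      (∀ x, ((univ.filter (fun v => col v x = 0)).card : ℝ) ≤ r * N + ε * n) ∧
      (r = 0 → ∀ v x, col v x ≠ 0) := by
  obtain ⟨Ω, fΩ, dΩ, c, hΩ, hc2, hc1, hc0⟩ := col_prob κ hκ r (ε / 2) h0 h1 (by linarith)
  have hκ' : (0 : ℝ) < κ := by exact_mod_cast hκ
  have hp2 : 0 ≤ (1 - r) ^ 2 / κ + ε / 2 := by positivity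
  obtain ⟨ϑ2, h20, h21, hb2⟩ := few_bad' ((1 - r) ^ 2 / κ + ε / 2) (ε / 2) (by linarith) hp2
  obtain ⟨ϑ1, h10, h11, hb1⟩ := few_bad' r (ε / 2) (by linarith) h0
  obtain ⟨n0, hn0⟩ := L03_small (max ϑ1 ϑ2) ε (lt_max_of_lt_left h10) (max_lt h11 h21) hε
  refine ⟨n0, fun n hn N hN => ?_⟩
  have hNn : (N : ℝ) ≤ n := by exact_mod_cast hN
  have hN0 : (0 : ℝ) ≤ N := Nat.cast_nonneg N
  by_cases hsm : (N : ℝ) < ε * n
  · have hlast : Fin.last κ ≠ 0 := by
      intro h
      have := congrArg Fin.val h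
      simp at this
      omega
    refine ⟨fun _ _ => Fin.last κ, ?_, ?_, fun _ _ _ => hlast⟩
    · intro x y _
      have h3 : ((univ.filter (fun _v : Fin N =>
          Fin.last κ = Fin.last κ ∧ Fin.last κ ≠ 0)).card : ℝ) ≤ N := by
        have := card_filter_le (univ : Finset (Fin N))
          (fun _v : Fin N => Fin.last κ = Fin.last κ ∧ Fin.last κ ≠ 0)
        rw [card_univ, Fintype.card_fin] at this
        exact_mod_cast this
      have h4 : 0 ≤ (1 - r) ^ 2 / κ * N := by positivity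
      linarith
    · intro x
      rw [filter_false_of_mem (fun v _ => hlast), card_empty, Nat.cast_zero]
      positivity
  · push Not at hsm
    have hsm' := hn0 n hn N hsm
    have hΩ' : (0 : ℝ) < Fintype.card Ω := by exact_mod_cast hΩ
    set W : ℝ := (Fintype.card (Fin n → Ω) : ℝ) with hW
    have hW0 : 0 < W := by
      rw [hW]
      have : 0 < Fintype.card (Fin n → Ω) := by
        rw [Fintype.card_fun]
        positivity
      exact_mod_cast this
    -- the events
    let B2 : Fin n → Fin n → Finset (Fin n → Ω) := fun x y =>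
      univ.filter (fun ω : Fin n → Ω => c (ω x) = c (ω y) ∧ c (ω x) ≠ 0)
    let B1 : Fin n → Finset (Fin n → Ω) := fun x =>
      univ.filter (fun ω : Fin n → Ω => c (ω x) = 0)
    have hB2 : ∀ x y, x ≠ y → ((B2 x y).card : ℝ) ≤ ((1 - r) ^ 2 / κ + ε / 2) * W := by
      intro x y hxy
      have h3 := card_two (fun a b : Ω => c a = c b ∧ c a ≠ 0) hxy
      have h4 : ((B2 x y).card : ℝ) * (Fintype.card Ω : ℝ) ^ 2 =
          ((univ.filter (fun q : Ω × Ω => c q.1 = c q.2 ∧ c q.1 ≠ 0)).card : ℝ) * W := by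
        rw [hW]; exact_mod_cast h3
      have h5 : ((B2 x y).card : ℝ) * (Fintype.card Ω : ℝ) ^ 2 ≤
          (((1 - r) ^ 2 / κ + ε / 2) * W) * (Fintype.card Ω : ℝ) ^ 2 := by
        rw [h4]
        calc _ ≤ (((1 - r) ^ 2 / κ + ε / 2) * (Fintype.card Ω : ℝ) ^ 2) * W :=
              mul_le_mul_of_nonneg_right hc2 hW0.le
          _ = _ := by ring
      exact le_of_mul_le_mul_right h5 (by positivity)
    have hB1 : ∀ x, ((B1 x).card : ℝ) ≤ r * W := by
      intro x
      have h3 := card_one (fun a : Ω => c a = 0) x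
      have h4 : ((B1 x).card : ℝ) * (Fintype.card Ω : ℝ) =
          ((univ.filter (fun a : Ω => c a = 0)).card : ℝ) * W := by
        rw [hW]; exact_mod_cast h3
      have h5 : ((B1 x).card : ℝ) * (Fintype.card Ω : ℝ) ≤ (r * W) * (Fintype.card Ω : ℝ) := by
        rw [h4]
        calc _ ≤ (r * (Fintype.card Ω : ℝ)) * W := mul_le_mul_of_nonneg_right hc1 hW0.le
          _ = _ := by ring
      exact le_of_mul_le_mul_right h5 (by positivity)
    have hcardF : (Fintype.card (Fin N → Fin n → Ω) : ℝ) = W ^ N := by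
      rw [hW]
      have : Fintype.card (Fin N → Fin n → Ω) = Fintype.card (Fin n → Ω) ^ N := by
        rw [Fintype.card_fun, Fintype.card_fin]
      exact_mod_cast this
    let A : Fin n × Fin n → Finset (Fin N → Fin n → Ω) := fun q =>
      if q.1 = q.2 then
        univ.filter (fun f => (r + ε / 2) * N < ((univ.filter (fun i => f i ∈ B1 q.1)).card : ℝ))
      else
        univ.filter (fun f => ((1 - r) ^ 2 / κ + ε / 2 + ε / 2) * N <
          ((univ.filter (fun i => f i ∈ B2 q.1 q.2)).card : ℝ))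
    have hWN : 0 ≤ W ^ N := by positivity
    have hA : ∀ q, ((A q).card : ℝ) ≤ (max ϑ1 ϑ2) ^ N *
        (Fintype.card (Fin N → Fin n → Ω) : ℝ) := by
      intro q
      rw [hcardF]
      by_cases hq : q.1 = q.2
      · have h3 := hb1 (Fin n → Ω) (B1 q.1) (hB1 q.1) N
        have h4 : A q = univ.filter (fun f => (r + ε / 2) * N <
            ((univ.filter (fun i => f i ∈ B1 q.1)).card : ℝ)) := if_pos hq
        rw [h4]
        refine le_trans h3 (mul_le_mul_of_nonneg_right ?_ hWN)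
        exact pow_le_pow_left₀ h10.le (le_max_left _ _) N
      · have h3 := hb2 (Fin n → Ω) (B2 q.1 q.2) (hB2 q.1 q.2 hq) N
        have h4 : A q = univ.filter (fun f => ((1 - r) ^ 2 / κ + ε / 2 + ε / 2) * N <
            ((univ.filter (fun i => f i ∈ B2 q.1 q.2)).card : ℝ)) := if_neg hq
        rw [h4]
        refine le_trans h3 (mul_le_mul_of_nonneg_right ?_ hWN)
        exact pow_le_pow_left₀ h20.le (le_max_right _ _) N
    have hFpos : 0 < Fintype.card (Fin N → Fin n → Ω) := by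
      have : (0 : ℝ) < (Fintype.card (Fin N → Fin n → Ω) : ℝ) := by rw [hcardF]; positivity
      exact_mod_cast this
    obtain ⟨f, hf⟩ := L03_union A ((max ϑ1 ϑ2) ^ N) hA (by
      rw [Fintype.card_prod, Fintype.card_fin]
      push_cast
      calc (n : ℝ) * n * (max ϑ1 ϑ2) ^ N = (n : ℝ) ^ 2 * (max ϑ1 ϑ2) ^ N := by ring
        _ < 1 := hsm') hFpos
    refine ⟨fun v x => c (f v x), ?_, ?_, ?_⟩
    · intro x y hxy
      have h3 := hf (x, y)
      have h4 : A (x, y) = univ.filter (fun f => ((1 - r) ^ 2 / κ + ε / 2 + ε / 2) * N <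
          ((univ.filter (fun i => f i ∈ B2 x y)).card : ℝ)) := if_neg hxy
      rw [h4, mem_filter] at h3
      push Not at h3
      have h5 := h3 (mem_univ _)
      have h6 : (univ.filter (fun i => f i ∈ B2 x y)) =
          univ.filter (fun v => c (f v x) = c (f v y) ∧ c (f v x) ≠ 0) := by
        ext v; simp [B2]
      rw [h6] at h5
      have h7 : ε * N ≤ ε * n := mul_le_mul_of_nonneg_left hNn hε.le
      linarith
    · intro x
      have h3 := hf (x, x)
      have h4 : A (x, x) = univ.filter (fun f => (r + ε / 2) * N <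
          ((univ.filter (fun i => f i ∈ B1 x)).card : ℝ)) := if_pos rfl
      rw [h4, mem_filter] at h3
      push Not at h3
      have h5 := h3 (mem_univ _)
      have h6 : (univ.filter (fun i => f i ∈ B1 x)) =
          univ.filter (fun v => c (f v x) = 0) := by
        ext v; simp [B1]
      rw [h6] at h5
      have h7 : ε * N ≤ ε * n := mul_le_mul_of_nonneg_left hNn hε.le
      have h8 : 0 ≤ ε * N := by positivity
      linarith
    · intro hr v x
      exact hc0 hr _

theorem exists_col (κ : ℕ) (hκ : 1 ≤ κ) (r ε : ℝ) (h0 : 0 ≤ r) (h1 : r ≤ 1) (hε : 0 < ε) :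
    ∃ n0 : ℕ, ∀ n : ℕ, n0 ≤ n → ∀ S : Finset (Fin n), ∃ col : Fin n → Fin n → Fin (κ + 1),
      (∀ x y, x ≠ y → ((S.filter (fun v => col v x = col v y ∧ col v x ≠ 0)).card : ℝ) ≤
        (1 - r) ^ 2 / κ * S.card + ε * n) ∧
      (∀ x, ((S.filter (fun v => col v x = 0)).card : ℝ) ≤ r * S.card + ε * n) ∧
      (r = 0 → ∀ v x, col v x ≠ 0) := by
  obtain ⟨n0, hn0⟩ := exists_col_fin κ hκ r ε h0 h1 hε
  refine ⟨n0, fun n hn S => ?_⟩
  have hS : S.card ≤ n := by
    have := card_le_univ S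
    rwa [Fintype.card_fin] at this
  obtain ⟨col, hc1, hc2, hc3⟩ := hn0 n hn S.card hS
  have hlast : Fin.last κ ≠ 0 := by
    intro h
    have := congrArg Fin.val h
    simp at this
    omega
  let e := S.equivFin
  let col' : Fin n → Fin n → Fin (κ + 1) := fun v x =>
    if h : v ∈ S then col (e ⟨v, h⟩) x else Fin.last κ
  have hcol' : ∀ v (h : v ∈ S) x, col' v x = col (e ⟨v, h⟩) x := by
    intro v h x
    simp only [col', dif_pos h]
  have key : ∀ (P : Fin n → Prop) (Q : Fin S.card → Prop) [DecidablePred P] [DecidablePred Q],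
      (∀ v (h : v ∈ S), P v → Q (e ⟨v, h⟩)) →
      ((S.filter P).card : ℝ) ≤ ((univ.filter Q).card : ℝ) := by
    intro P Q _ _ hPQ
    have hsub : S.filter P ⊆ (univ.filter Q).image (fun i => ((e.symm i : S) : Fin n)) := by
      intro v hv
      rw [mem_filter] at hv
      refine mem_image.2 ⟨e ⟨v, hv.1⟩, mem_filter.2 ⟨mem_univ _, hPQ v hv.1 hv.2⟩, ?_⟩
      simp
    exact_mod_cast (card_le_card hsub).trans card_image_le
  refine ⟨col', ?_, ?_, ?_⟩
  · intro x y hxy
    refine le_trans (key _ (fun i => col i x = col i y ∧ col i x ≠ 0) ?_) (hc1 x y hxy)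
    intro v h hv
    rw [hcol' v h, hcol' v h] at hv
    exact hv
  · intro x
    refine le_trans (key _ (fun i => col i x = 0) ?_) (hc2 x)
    intro v h hv
    rw [hcol' v h] at hv
    exact hv
  · intro hr v x
    by_cases h : v ∈ S
    · rw [hcol' v h]; exact hc3 hr _ _
    · simp only [col', dif_neg h]; exact hlast

end CT3
end

section

/-!
# The skeleton, I

Put `C i = step H can X i`, `E i = step H can C i \ WW H can C`.
`skel_basic`: `disj` from `step_inter`, `cov` from `step_core` (`E i ⊆ core H C (i,i)`), `lowE` from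
`card_step_ge`, `upE`: `C i` has two elements, so `E i ⊆ CC H x y`; `rest`: `card_rest` (a vertex outside all
`E i` is outside all `step H can C i` or in `WW H can C`).
`skel_key`: if `x ≠ y` are in `step H can C i ∩ C i'` then `step H can (step H can C) i` has at least
`a - 2 s - 2` elements in `E i'`: apart from `WW` it is contained in `CC H x y` (at most `a` elements), `E i' ⊆ CC H x y`
has at least `a - s - 1` elements.
-/

set_option autoImplicit false

open Finset

namespace CT3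

variable {V : Type} [Fintype V] [DecidableEq V] {M : Type} [Fintype M] [DecidableEq M] [Nonempty M]
  {H : Finset (Finset V)} {a s : ℝ}

omit [Nonempty M] in
private lemma Y05_low (hs : (Fintype.card M : ℝ) * a = Fintype.card V + s)
    (hcc : ∀ x y, x ≠ y → ((CC H x y).card : ℝ) ≤ a) (C : M → Finset V)
    (hC : ∀ l, ∃ x ∈ C l, ∃ y ∈ C l, x ≠ y) (hW1 : (WW H (can M) C).card ≤ 1) (i : M) :
    a - s - 1 ≤ ((step H (can M) C i \ WW H (can M) C).card : ℝ) := by
  have h1 := card_step_ge (H := H) hcc (X := C) (ρ := can M) hC i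
  have h2 : (step H (can M) C i).card
      ≤ (step H (can M) C i \ WW H (can M) C).card + (WW H (can M) C).card := by
    have := Finset.le_card_sdiff (WW H (can M) C) (step H (can M) C i)
    omega
  have h3 : ((step H (can M) C i).card : ℝ)
      ≤ ((step H (can M) C i \ WW H (can M) C).card : ℝ) + 1 := by
    have : (step H (can M) C i).card ≤ (step H (can M) C i \ WW H (can M) C).card + 1 := by omega
    exact_mod_cast this
  linarith

omit [Nonempty M] in
private lemma Y05_sub (C : M → Finset V) {i : M} {x y : V} (hx : x ∈ C i) (hy : y ∈ C i) :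
    step H (can M) C i \ WW H (can M) C ⊆ CC H x y := by
  intro w hw
  have h1 : w ∈ core H C (i, i) := step_core (ρ := can M) i hw
  have h2 := (Finset.mem_filter.1 h1).2 x hx y hy
  exact Finset.mem_filter.2 ⟨Finset.mem_univ _, h2⟩

theorem skel_basic (hs : (Fintype.card M : ℝ) * a = Fintype.card V + s)
    (hcc : ∀ x y, x ≠ y → ((CC H x y).card : ℝ) ≤ a) (C : M → Finset V)
    (hC : ∀ l, ∃ x ∈ C l, ∃ y ∈ C l, x ≠ y) (hW1 : (WW H (can M) C).card ≤ 1) :
    (∀ i j, i ≠ j → Disjoint (step H (can M) C i \ WW H (can M) C) (step H (can M) C j \ WW H (can M) C)) ∧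
    (∀ i, ∀ x ∈ C i, ∀ y ∈ C i, x ≠ y → ∀ w ∈ step H (can M) C i \ WW H (can M) C,
      ({x, y, w} : Finset V) ∉ H) ∧
    (∀ i, a - s - 1 ≤ ((step H (can M) C i \ WW H (can M) C).card : ℝ)) ∧
    (∀ i, ((step H (can M) C i \ WW H (can M) C).card : ℝ) ≤ a) ∧
    ((univ \ univ.biUnion (fun i => step H (can M) C i \ WW H (can M) C)).card : ℝ) ≤ s + 2 := by
  refine ⟨fun i j hij => ?_, fun i x hx y hy _ w hw => ?_, fun i => Y05_low hs hcc C hC hW1 i,
    fun i => ?_, ?_⟩
  · rw [Finset.disjoint_left]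
    intro w hw hw'
    exact (Finset.mem_sdiff.1 hw).2 (step_inter hij
      (Finset.mem_inter.2 ⟨(Finset.mem_sdiff.1 hw).1, (Finset.mem_sdiff.1 hw').1⟩))
  · exact (Finset.mem_filter.1 (Y05_sub C hx hy hw)).2
  · obtain ⟨x, hx, y, hy, hxy⟩ := hC i
    have h1 := Finset.card_le_card (Y05_sub (H := H) C hx hy)
    have h2 : ((step H (can M) C i \ WW H (can M) C).card : ℝ) ≤ ((CC H x y).card : ℝ) := by
      exact_mod_cast h1
    exact h2.trans (hcc x y hxy)
  · have hcore : ∀ j, ((core H C ((can M) j)).card : ℝ) ≤ a := by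
      intro j
      obtain ⟨x, hx, y, hy, hxy⟩ := hC j
      exact card_core_le hcc (p := (can M) j) hx hy hxy
    have h1 := card_rest (H := H) (X := C) (ρ := can M) hcore hW1
    have h2 : (univ \ univ.biUnion (fun i => step H (can M) C i \ WW H (can M) C))
        ⊆ (univ \ univ.biUnion (step H (can M) C)) ∪ WW H (can M) C := by
      intro w hw
      by_cases hwW : w ∈ WW H (can M) C
      · exact Finset.mem_union_right _ hwW
      · apply Finset.mem_union_left
        rw [Finset.mem_sdiff]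
        refine ⟨Finset.mem_univ _, fun hh => (Finset.mem_sdiff.1 hw).2 ?_⟩
        obtain ⟨i, _, hi⟩ := Finset.mem_biUnion.1 hh
        exact Finset.mem_biUnion.2 ⟨i, Finset.mem_univ _, Finset.mem_sdiff.2 ⟨hi, hwW⟩⟩
    have h3 := (Finset.card_le_card h2).trans (Finset.card_union_le _ _)
    have h4 : ((univ \ univ.biUnion (fun i => step H (can M) C i \ WW H (can M) C)).card : ℝ)
        ≤ ((univ \ univ.biUnion (step H (can M) C)).card : ℝ) + 1 := by
      have : (univ \ univ.biUnion (fun i => step H (can M) C i \ WW H (can M) C)).card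
          ≤ (univ \ univ.biUnion (step H (can M) C)).card + 1 := by omega
      exact_mod_cast this
    linarith

theorem skel_key (hs : (Fintype.card M : ℝ) * a = Fintype.card V + s)
    (hcc : ∀ x y, x ≠ y → ((CC H x y).card : ℝ) ≤ a) (C E F : M → Finset V)
    (hE : ∀ i, E i = step H (can M) C i \ WW H (can M) C) (hF : F = step H (can M) C)
    (hC : ∀ l, ∃ x ∈ C l, ∃ y ∈ C l, x ≠ y) (hFF : ∀ l, ∃ x ∈ F l, ∃ y ∈ F l, x ≠ y)
    (hW1 : (WW H (can M) C).card ≤ 1) (hW2 : (WW H (can M) F).card ≤ 1)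
    {i i' : M} {x y : V} (hx : x ∈ F i ∩ C i') (hy : y ∈ F i ∩ C i') (hxy : x ≠ y) :
    a - 2 * s - 3 ≤ ((step H (can M) F i ∩ E i').card : ℝ) := by
  have hx1 : x ∈ F i := (Finset.mem_inter.1 hx).1
  have hx2 : x ∈ C i' := (Finset.mem_inter.1 hx).2
  have hy1 : y ∈ F i := (Finset.mem_inter.1 hy).1
  have hy2 : y ∈ C i' := (Finset.mem_inter.1 hy).2
  have l1 := Y05_low hs hcc F hFF hW2 i
  have l2 := Y05_low hs hcc C hC hW1 i'
  rw [← hE i'] at l2
  have s1 : step H (can M) F i \ WW H (can M) F ⊆ CC H x y := Y05_sub F hx1 hy1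
  have s2 : E i' ⊆ CC H x y := by
    rw [hE i']
    exact Y05_sub C hx2 hy2
  have c1 : ((step H (can M) F i \ WW H (can M) F) ∪ E i').card ≤ (CC H x y).card :=
    Finset.card_le_card (Finset.union_subset s1 s2)
  have c2 := Finset.card_union_add_card_inter (step H (can M) F i \ WW H (can M) F) (E i')
  have c3 : ((step H (can M) F i \ WW H (can M) F) ∩ E i').card
      ≤ (step H (can M) F i ∩ E i').card :=
    Finset.card_le_card (Finset.inter_subset_inter_right Finset.sdiff_subset)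
  have c4 : (step H (can M) F i \ WW H (can M) F).card + (E i').card
      ≤ (CC H x y).card + (step H (can M) F i ∩ E i').card := by omega
  have c5 : ((step H (can M) F i \ WW H (can M) F).card : ℝ) + ((E i').card : ℝ)
      ≤ ((CC H x y).card : ℝ) + ((step H (can M) F i ∩ E i').card : ℝ) := by exact_mod_cast c4
  have c6 := hcc x y hxy
  linarith

end CT3
end

section

/-!
# One canonical step along the skeleton

`pairs`: `|X j ∩ C (φ (ψ j))| ≥ |X j ∩ E (ψ j)| - |E (ψ j) \ C (φ (ψ j))| ≥ 2` gives two different elements.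
`claim_P`: with `x j ≠ y j` in `C (φ (ψ j))` the set `P = {w | ∀ l ≠ j, {x l, y l, w} ∈ H}` has at least
`n - (m-1) a = a - s` elements, and it is disjoint from all `E (φ (ψ l))`, `l ≠ j` (`cov`), so it is contained in
`E (φ (ψ j))` and the rest (`≤ s + 2`).
`claim_can`: `P ⊆ step H can X j` if `x j, y j ∈ X j`.
-/

set_option autoImplicit false

open Finset

namespace CT3

variable {V : Type} [Fintype V] [DecidableEq V] {M : Type} [Fintype M] [DecidableEq M]
  {H : Finset (Finset V)} {a s : ℝ} {C E : M → Finset V} {φ : Equiv.Perm M}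

theorem pairs (hsk : Skel H C E φ a s) (X : M → Finset V) (ψ : Equiv.Perm M)
    (hX : ∀ j, a - 4 * s - 5 ≤ ((X j ∩ E (ψ j)).card : ℝ)) (hbig : 5 * s + Fintype.card M + 8 ≤ a) :
    ∃ x y : M → V, ∀ j, x j ∈ X j ∩ C (φ (ψ j)) ∧ y j ∈ X j ∩ C (φ (ψ j)) ∧ x j ≠ y j := by
  have h : ∀ j, ∃ x y : V, x ∈ X j ∩ C (φ (ψ j)) ∧ y ∈ X j ∩ C (φ (ψ j)) ∧ x ≠ y := by
    intro j
    have h1 : X j ∩ E (ψ j) ⊆ (X j ∩ C (φ (ψ j))) ∪ (E (ψ j) \ C (φ (ψ j))) := by
      intro w hw
      rw [mem_inter] at hw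
      by_cases hc : w ∈ C (φ (ψ j))
      · exact mem_union_left _ (mem_inter.2 ⟨hw.1, hc⟩)
      · exact mem_union_right _ (mem_sdiff.2 ⟨hw.2, hc⟩)
    have h2 : ((X j ∩ E (ψ j)).card : ℝ) ≤
        ((X j ∩ C (φ (ψ j))).card : ℝ) + ((E (ψ j) \ C (φ (ψ j))).card : ℝ) := by
      exact_mod_cast (card_le_card h1).trans (card_union_le _ _)
    have h3 := hsk.mis (ψ j)
    have h4 := hX j
    have h5 : (1 : ℝ) < ((X j ∩ C (φ (ψ j))).card : ℝ) := by linarith
    have h6 : 1 < (X j ∩ C (φ (ψ j))).card := by exact_mod_cast h5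
    obtain ⟨x, hx, y, hy, hxy⟩ := one_lt_card.1 h6
    exact ⟨x, y, hx, hy, hxy⟩
  choose x y hxy using h
  exact ⟨x, y, hxy⟩

theorem claim_P (hs : (Fintype.card M : ℝ) * a = Fintype.card V + s)
    (hcc : ∀ x y, x ≠ y → ((CC H x y).card : ℝ) ≤ a) (hsk : Skel H C E φ a s) (ψ : Equiv.Perm M)
    (x y : M → V) (hxy : ∀ j, x j ∈ C (φ (ψ j)) ∧ y j ∈ C (φ (ψ j)) ∧ x j ≠ y j) (j : M) :
    a - 2 * s - 2 ≤ (((univ.filter (fun w => ∀ l, l ≠ j → ({x l, y l, w} : Finset V) ∈ H)) ∩
      E (φ (ψ j))).card : ℝ) := by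
  set P : Finset V := univ.filter (fun w => ∀ l, l ≠ j → ({x l, y l, w} : Finset V) ∈ H) with hP
  -- `P` is large
  have h1 : (univ : Finset V) ⊆ P ∪ (univ.erase j).biUnion (fun l => CC H (x l) (y l)) := by
    intro w _
    by_cases hw : w ∈ P
    · exact mem_union_left _ hw
    · apply mem_union_right
      rw [hP, mem_filter] at hw
      push Not at hw
      obtain ⟨l, hl, hlw⟩ := hw (mem_univ w)
      exact mem_biUnion.2 ⟨l, mem_erase.2 ⟨hl, mem_univ l⟩, mem_filter.2 ⟨mem_univ w, hlw⟩⟩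
  have h2 : (Fintype.card V : ℝ) ≤ (P.card : ℝ) + ((Fintype.card M : ℝ) - 1) * a := by
    have h3 : Fintype.card V ≤ P.card + ∑ l ∈ univ.erase j, (CC H (x l) (y l)).card := by
      rw [← card_univ]
      exact (card_le_card h1).trans ((card_union_le _ _).trans
        (Nat.add_le_add_left card_biUnion_le _))
    have h4 : (Fintype.card V : ℝ) ≤
        (P.card : ℝ) + ∑ l ∈ univ.erase j, ((CC H (x l) (y l)).card : ℝ) := by exact_mod_cast h3
    have h5 : ∑ l ∈ univ.erase j, ((CC H (x l) (y l)).card : ℝ) ≤ ∑ _l ∈ univ.erase j, a :=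
      sum_le_sum fun l _ => hcc _ _ (hxy l).2.2
    rw [sum_const, card_erase_of_mem (mem_univ j), card_univ, nsmul_eq_mul,
      Nat.cast_sub (Fintype.card_pos_iff.2 ⟨j⟩), Nat.cast_one] at h5
    linarith
  -- `P` lies in `E (φ (ψ j))` and the rest
  have h6 : P ⊆ (P ∩ E (φ (ψ j))) ∪ (univ \ univ.biUnion E) := by
    intro w hw
    by_cases hE : w ∈ univ.biUnion E
    · apply mem_union_left
      obtain ⟨i, _, hi⟩ := mem_biUnion.1 hE
      obtain ⟨l, rfl⟩ : ∃ l, φ (ψ l) = i := ⟨ψ.symm (φ.symm i), by simp⟩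
      by_cases hl : l = j
      · subst hl
        exact mem_inter.2 ⟨hw, hi⟩
      · exfalso
        rw [hP, mem_filter] at hw
        exact hsk.cov (φ (ψ l)) (x l) (hxy l).1 (y l) (hxy l).2.1 (hxy l).2.2 w hi (hw.2 l hl)
    · exact mem_union_right _ (mem_sdiff.2 ⟨mem_univ w, hE⟩)
  have h7 : (P.card : ℝ) ≤ ((P ∩ E (φ (ψ j))).card : ℝ) + ((univ \ univ.biUnion E).card : ℝ) := by
    exact_mod_cast (card_le_card h6).trans (card_union_le _ _)
  have h8 := hsk.rest
  linarith

theorem claim_can (hs : (Fintype.card M : ℝ) * a = Fintype.card V + s)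
    (hcc : ∀ x y, x ≠ y → ((CC H x y).card : ℝ) ≤ a) (hsk : Skel H C E φ a s) (X : M → Finset V)
    (ψ : Equiv.Perm M) (hX : ∀ j, a - 4 * s - 5 ≤ ((X j ∩ E (ψ j)).card : ℝ))
    (hbig : 5 * s + Fintype.card M + 8 ≤ a) (j : M) :
    a - 2 * s - 2 ≤ ((step H (can M) X j ∩ E (φ (ψ j))).card : ℝ) := by
  obtain ⟨x, y, hxy⟩ := pairs hsk X ψ hX hbig
  have h1 := claim_P hs hcc hsk ψ x y (fun l => ⟨(mem_inter.1 (hxy l).1).2,
    (mem_inter.1 (hxy l).2.1).2, (hxy l).2.2⟩) j
  refine h1.trans ?_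
  have h2 : (univ.filter (fun w => ∀ l, l ≠ j → ({x l, y l, w} : Finset V) ∈ H)) ∩ E (φ (ψ j)) ⊆
      step H (can M) X j ∩ E (φ (ψ j)) := by
    apply inter_subset_inter_right
    intro w hw
    rw [mem_filter] at hw
    refine mem_filter.2 ⟨mem_univ w, fun l hl hc => ?_⟩
    exact (mem_filter.1 hc).2 (x l) (mem_inter.1 (hxy l).1).1 (y l) (mem_inter.1 (hxy l).2.1).1
      (hw.2 l hl)
  exact_mod_cast card_le_card h2

end CT3
end

section

/-!
# The skeleton, II

`C = step H can X`, `F = step H can C`, `E i = F i \ WW H can C`, `X3 = step H can F`.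
Existence: `|E i \ ⋃ C| ≤ s + 1` (`card_rest` for `X`), so `|E i ∩ ⋃ C| ≥ a - 2 s - 2 > m`, and some `C i'` contains two
elements of `E i`.  Uniqueness: two indices `i' ≠ i''` would give (`skel_key`, `E i'`, `E i''` disjoint) at least
`2 (a - 2 s - 3)` elements in `X3 i`, which is (apart from `WW H can F`) contained in some `CC H x y`, at most `a + 1`
elements.  So `φ i` is well defined; injective: if `φ i = φ j = i'`, `i ≠ j` then `X3 i ∩ E i'` and `X3 j ∩ E i'` have at
most 1 common element, and `|E i'| ≤ a`.  `mis`: `E i \ C (φ i)` consists of at most `s + 1` elements outside `⋃ C`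
and at most one element in each other `C i''`.
-/

set_option autoImplicit false

open Finset

namespace CT3

variable {V : Type} [Fintype V] [DecidableEq V] {M : Type} [Fintype M] [DecidableEq M] [Nonempty M]
  {H : Finset (Finset V)} {a s : ℝ}

/-- a certified set has two elements -/
private theorem two_in_step (hs : (Fintype.card M : ℝ) * a = Fintype.card V + s)
    (hcc : ∀ x y, x ≠ y → ((CC H x y).card : ℝ) ≤ a) (X : M → Finset V)
    (hX : ∀ l, ∃ x ∈ X l, ∃ y ∈ X l, x ≠ y) (h1 : 1 < a - s) :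
    ∀ l, ∃ x ∈ step H (can M) X l, ∃ y ∈ step H (can M) X l, x ≠ y := by
  intro l
  have h2 := card_step_ge (H := H) (a := a) hcc (X := X) (ρ := can M) (fun j => hX j) l
  have h3 : (1 : ℝ) < ((step H (can M) X l).card : ℝ) := by
    refine lt_of_lt_of_le h1 (le_trans (le_of_eq ?_) h2)
    linear_combination hs
  have h4 : 1 < (step H (can M) X l).card := by exact_mod_cast h3
  rw [Finset.one_lt_card] at h4
  exact h4

theorem exists_skel (hs : (Fintype.card M : ℝ) * a = Fintype.card V + s)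
    (hcc : ∀ x y, x ≠ y → ((CC H x y).card : ℝ) ≤ a) (X : M → Finset V)
    (hX : ∀ l, ∃ x ∈ X l, ∃ y ∈ X l, x ≠ y) (hW0 : (WW H (can M) X).card ≤ 1)
    (hW1 : (WW H (can M) (step H (can M) X)).card ≤ 1)
    (hW2 : (WW H (can M) (step H (can M) (step H (can M) X))).card ≤ 1)
    (hs1 : -1 ≤ s) (hbig : 4 * s + Fintype.card M + 20 < a) :
    ∃ φ : Equiv.Perm M, Skel H (step H (can M) X)
      (fun i => step H (can M) (step H (can M) X) i \ WW H (can M) (step H (can M) X)) φ a s := by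
  classical
  have hm0 : (0 : ℝ) ≤ Fintype.card M := Nat.cast_nonneg _
  have h1as : 1 < a - s := by linarith
  set C : M → Finset V := step H (can M) X with hCdef
  set F : M → Finset V := step H (can M) C with hFdef
  set E : M → Finset V := fun i => F i \ WW H (can M) C with hEdef
  have hC : ∀ l, ∃ x ∈ C l, ∃ y ∈ C l, x ≠ y := two_in_step hs hcc X hX h1as
  have hF : ∀ l, ∃ x ∈ F l, ∃ y ∈ F l, x ≠ y := two_in_step hs hcc C hC h1as
  obtain ⟨hdisj, hcov, hlow, hup, hrest⟩ := skel_basic hs hcc C hC hW1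
  have hdisj' : ∀ i j, i ≠ j → Disjoint (E i) (E j) := hdisj
  have hlow' : ∀ i, a - s - 1 ≤ ((E i).card : ℝ) := hlow
  have hup' : ∀ i, ((E i).card : ℝ) ≤ a := hup
  -- the rest of `C`
  have hrC : ((univ \ univ.biUnion C).card : ℝ) ≤ s + 1 := by
    have h1 : ∀ j, ((core H X (can M j)).card : ℝ) ≤ a := by
      intro j
      obtain ⟨x, hx, y, hy, hxy⟩ := hX j
      exact card_core_le hcc (X := X) (p := can M j) hx hy hxy
    have h2 := card_rest (H := H) (a := a) (X := X) (ρ := can M) h1 hW0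
    have h3 : (Fintype.card M : ℝ) * a - Fintype.card V + 1 = s + 1 := by
      rw [hs]; ring
    rw [h3] at h2
    exact h2
  have hEC : ∀ i, ((E i \ univ.biUnion C).card : ℝ) ≤ s + 1 := by
    intro i
    refine le_trans ?_ hrC
    have : (E i \ univ.biUnion C).card ≤ (univ \ univ.biUnion C).card :=
      Finset.card_le_card (Finset.sdiff_subset_sdiff (Finset.subset_univ _) (Finset.Subset.refl _))
    exact_mod_cast this
  -- the size of `X3 i`
  have hX3 : ∀ i, ((step H (can M) F i).card : ℝ) ≤ a + 1 := by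
    intro i
    obtain ⟨x, hx, y, hy, hxy⟩ := hF i
    have h1 : ((core H F (can M i)).card : ℝ) ≤ a :=
      card_core_le hcc (X := F) (p := can M i) hx hy hxy
    have h2 : (step H (can M) F i \ WW H (can M) F) ⊆ core H F (can M i) := step_core i
    have h3 : (step H (can M) F i).card ≤
        (step H (can M) F i \ WW H (can M) F).card + (WW H (can M) F).card := by
      have h4 : step H (can M) F i ⊆ (step H (can M) F i \ WW H (can M) F) ∪ WW H (can M) F := by
        intro w hw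
        by_cases hw' : w ∈ WW H (can M) F
        · exact Finset.mem_union_right _ hw'
        · exact Finset.mem_union_left _ (Finset.mem_sdiff.2 ⟨hw, hw'⟩)
      exact (Finset.card_le_card h4).trans (Finset.card_union_le _ _)
    have h5 := Finset.card_le_card h2
    have h6 : (step H (can M) F i).card ≤ (core H F (can M i)).card + 1 := by omega
    have h7 : ((step H (can M) F i).card : ℝ) ≤ ((core H F (can M i)).card : ℝ) + 1 := by
      exact_mod_cast h6
    linarith
  -- the key estimate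
  have hkey : ∀ i i', 1 < (E i ∩ C i').card →
      a - 2 * s - 3 ≤ ((step H (can M) F i ∩ E i').card : ℝ) := by
    intro i i' h
    rw [Finset.one_lt_card] at h
    obtain ⟨x, hx, y, hy, hxy⟩ := h
    have hsub : ∀ w, w ∈ E i ∩ C i' → w ∈ F i ∩ C i' := by
      intro w hw
      rw [Finset.mem_inter] at hw ⊢
      exact ⟨(Finset.mem_sdiff.1 hw.1).1, hw.2⟩
    exact skel_key hs hcc C E F (fun _ => rfl) hFdef hC hF hW1 hW2 (hsub x hx) (hsub y hy) hxy
  -- existence
  have hex : ∀ i, ∃ i', 1 < (E i ∩ C i').card := by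
    intro i
    by_contra hcon
    push Not at hcon
    have h1 : (E i).card ≤ (E i \ univ.biUnion C).card + ∑ i' : M, (E i ∩ C i').card := by
      have h2 : E i ⊆ (E i \ univ.biUnion C) ∪ univ.biUnion (fun i' => E i ∩ C i') := by
        intro w hw
        by_cases hw' : w ∈ univ.biUnion C
        · rw [Finset.mem_biUnion] at hw'
          obtain ⟨i', _, hi'⟩ := hw'
          refine Finset.mem_union_right _ ?_
          rw [Finset.mem_biUnion]
          exact ⟨i', Finset.mem_univ _, Finset.mem_inter.2 ⟨hw, hi'⟩⟩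
        · exact Finset.mem_union_left _ (Finset.mem_sdiff.2 ⟨hw, hw'⟩)
      refine (Finset.card_le_card h2).trans ((Finset.card_union_le _ _).trans ?_)
      exact Nat.add_le_add_left Finset.card_biUnion_le _
    have h3 : ∑ i' : M, (E i ∩ C i').card ≤ Fintype.card M := by
      calc ∑ i' : M, (E i ∩ C i').card ≤ ∑ _i' : M, 1 := Finset.sum_le_sum (fun i' _ => hcon i')
        _ = Fintype.card M := by simp
    have h4 : ((E i).card : ℝ) ≤ ((E i \ univ.biUnion C).card : ℝ) + Fintype.card M := by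
      exact_mod_cast h1.trans (Nat.add_le_add_left h3 _)
    have h5 := hlow' i
    have h6 := hEC i
    linarith
  -- uniqueness
  have huniq : ∀ i i' i'', 1 < (E i ∩ C i').card → 1 < (E i ∩ C i'').card → i' = i'' := by
    intro i i' i'' h1 h2
    by_contra hne
    have h3 := hkey i i' h1
    have h4 := hkey i i'' h2
    have h5 : (step H (can M) F i ∩ E i').card + (step H (can M) F i ∩ E i'').card ≤
        (step H (can M) F i).card := by
      rw [← Finset.card_union_of_disjoint]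
      · apply Finset.card_le_card
        exact Finset.union_subset Finset.inter_subset_left Finset.inter_subset_left
      · exact (hdisj' i' i'' hne).mono Finset.inter_subset_right Finset.inter_subset_right
    have h6 : ((step H (can M) F i ∩ E i').card : ℝ) + ((step H (can M) F i ∩ E i'').card : ℝ) ≤
        ((step H (can M) F i).card : ℝ) := by exact_mod_cast h5
    have h7 := hX3 i
    linarith
  -- the permutation
  choose f hf using hex
  have hinj : Function.Injective f := by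
    intro i j hij
    by_contra hne
    have h1 := hkey i (f i) (hf i)
    have h2 := hkey j (f i) (by rw [hij]; exact hf j)
    have h3 : (step H (can M) F i ∩ E (f i)).card + (step H (can M) F j ∩ E (f i)).card ≤
        (E (f i)).card + 1 := by
      rw [← Finset.card_union_add_card_inter]
      apply Nat.add_le_add
      · apply Finset.card_le_card
        exact Finset.union_subset Finset.inter_subset_right Finset.inter_subset_right
      · refine le_trans (Finset.card_le_card ?_) hW2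
        intro w hw
        rw [Finset.mem_inter, Finset.mem_inter, Finset.mem_inter] at hw
        exact step_inter hne (Finset.mem_inter.2 ⟨hw.1.1, hw.2.1⟩)
    have h4 : ((step H (can M) F i ∩ E (f i)).card : ℝ) + ((step H (can M) F j ∩ E (f i)).card : ℝ) ≤
        ((E (f i)).card : ℝ) + 1 := by exact_mod_cast h3
    have h5 := hup' (f i)
    linarith
  have hbij : Function.Bijective f := Finite.injective_iff_bijective.1 hinj
  refine ⟨Equiv.ofBijective f hbij, ?_⟩
  refine ⟨hdisj', hcov, hlow', hup', hrest, ?_⟩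
  intro i
  have hfi : (Equiv.ofBijective f hbij) i = f i := rfl
  rw [hfi]
  have h1 : (E i \ C (f i)).card ≤ (E i \ univ.biUnion C).card +
      ∑ i' ∈ univ.erase (f i), (E i ∩ C i').card := by
    have h2 : E i \ C (f i) ⊆ (E i \ univ.biUnion C) ∪
        (univ.erase (f i)).biUnion (fun i' => E i ∩ C i') := by
      intro w hw
      rw [Finset.mem_sdiff] at hw
      by_cases hw' : w ∈ univ.biUnion C
      · rw [Finset.mem_biUnion] at hw'
        obtain ⟨i', _, hi'⟩ := hw'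
        refine Finset.mem_union_right _ ?_
        rw [Finset.mem_biUnion]
        refine ⟨i', Finset.mem_erase.2 ⟨?_, Finset.mem_univ _⟩, Finset.mem_inter.2 ⟨hw.1, hi'⟩⟩
        rintro rfl
        exact hw.2 hi'
      · exact Finset.mem_union_left _ (Finset.mem_sdiff.2 ⟨hw.1, hw'⟩)
    refine (Finset.card_le_card h2).trans ((Finset.card_union_le _ _).trans ?_)
    exact Nat.add_le_add_left Finset.card_biUnion_le _
  have h3 : ∑ i' ∈ univ.erase (f i), (E i ∩ C i').card ≤ Fintype.card M - 1 := by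
    calc ∑ i' ∈ univ.erase (f i), (E i ∩ C i').card ≤ ∑ _i' ∈ univ.erase (f i), 1 := by
          apply Finset.sum_le_sum
          intro i' hi'
          by_contra hcon
          push Not at hcon
          exact (Finset.mem_erase.1 hi').1 (huniq i i' (f i) hcon (hf i))
      _ = Fintype.card M - 1 := by
          rw [Finset.sum_const, smul_eq_mul, mul_one, Finset.card_erase_of_mem (Finset.mem_univ _),
            Finset.card_univ]
  have h4 : 1 ≤ Fintype.card M := Fintype.card_pos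
  have h5 : (E i \ C (f i)).card + 1 ≤ (E i \ univ.biUnion C).card + Fintype.card M := by omega
  have h6 : ((E i \ C (f i)).card : ℝ) + 1 ≤ ((E i \ univ.biUnion C).card : ℝ) + Fintype.card M := by
    exact_mod_cast h5
  have h7 := hEC i
  show ((E i \ C (f i)).card : ℝ) ≤ s + Fintype.card M
  linarith

end CT3
end

section

/-!
# One step with the rule `rul i` along the skeleton

Let `c = B i.succ`.  Choose `x j ≠ y j` in `X j ∩ C (φ (ψ j))` (`pairs`).
`j = c`: the set `P c` of `claim_P` is contained in `step H (rul i) X c`.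
`j ≠ c`: choose `x' ∈ X (A i)`, `y' ∈ X (B i.castSucc)` with `x' ≠ y'` (both sets have at least 2 elements) and
`P' = {w | {x', y', w} ∈ H ∧ ∀ l, l ≠ j → l ≠ c → {x l, y l, w} ∈ H}`, contained in `step H (rul i) X j`, with at least
`n - (m-1) a = a - s` elements (`card_common`, index set `univ.erase j`, the pair at `c` replaced by `x', y'`).
`P'` is disjoint from `E (φ (ψ l))` for `l ≠ j, c`.  The elements of `P' ∩ E (φ (ψ c))` are in
`E (φ (ψ c)) \ P c` (at most `a - (a - 2 s - 2) = 2 s + 2`) or in `P c ∩ N(x',y') ⊆ WW H (rul i) X` (at most 1).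
So `|P' ∩ E (φ (ψ j))| ≥ (a - s) - (s + 2) - (2 s + 2) - 1`.
-/

set_option autoImplicit false

open Finset

namespace CT3

variable {V : Type} [Fintype V] [DecidableEq V] {H : Finset (Finset V)} {a s : ℝ} {g κ : ℕ}
  {C E : Lab g κ → Finset V} {φ : Equiv.Perm (Lab g κ)}

theorem claim_rul (hs : (Fintype.card (Lab g κ) : ℝ) * a = Fintype.card V + s)
    (hcc : ∀ x y, x ≠ y → ((CC H x y).card : ℝ) ≤ a) (hsk : Skel H C E φ a s) (X : Lab g κ → Finset V)
    (ψ : Equiv.Perm (Lab g κ)) (hX : ∀ j, a - 4 * s - 5 ≤ ((X j ∩ E (ψ j)).card : ℝ))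
    (hbig : 5 * s + Fintype.card (Lab g κ) + 8 ≤ a) (hs1 : -1 ≤ s) (i : Fin g)
    (hW : (WW H (rul g κ i) X).card ≤ 1) (j : Lab g κ) :
    a - 4 * s - 5 ≤ ((step H (rul g κ i) X j ∩ E (φ (ψ j))).card : ℝ) := by
  obtain ⟨x, y, hxy⟩ := pairs hsk X ψ hX hbig
  have hxX : ∀ l, x l ∈ X l := fun l => (mem_inter.1 (hxy l).1).1
  have hyX : ∀ l, y l ∈ X l := fun l => (mem_inter.1 (hxy l).2.1).1
  have hxy' : ∀ l, x l ∈ C (φ (ψ l)) ∧ y l ∈ C (φ (ψ l)) ∧ x l ≠ y l := fun l =>
    ⟨(mem_inter.1 (hxy l).1).2, (mem_inter.1 (hxy l).2.1).2, (hxy l).2.2⟩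
  obtain ⟨c, hc⟩ : ∃ c : Lab g κ, c = Lab.B i.succ := ⟨_, rfl⟩
  have hrc : rul g κ i c = (Lab.A i, Lab.B i.castSucc) := by
    rw [hc]
    exact Function.update_self _ _ _
  have hrj : ∀ l, l ≠ c → rul g κ i l = (l, l) := by
    intro l hl
    rw [hc] at hl
    exact Function.update_of_ne hl _ _
  obtain ⟨P, hP⟩ : ∃ P : Finset V, P = univ.filter (fun w => ∀ l, l ≠ c → ({x l, y l, w} : Finset V) ∈ H) :=
    ⟨_, rfl⟩
  have hPc : a - 2 * s - 2 ≤ ((P ∩ E (φ (ψ c))).card : ℝ) := by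
    rw [hP]
    exact claim_P hs hcc hsk ψ x y hxy' c
  by_cases hjc : j = c
  · subst hjc
    have hsub : P ∩ E (φ (ψ j)) ⊆ step H (rul g κ i) X j ∩ E (φ (ψ j)) := by
      refine inter_subset_inter_right ?_
      intro w hw
      rw [hP, mem_filter] at hw
      rw [step, mem_filter]
      refine ⟨mem_univ _, fun l hl hcore => ?_⟩
      rw [hrj l hl, core, mem_filter] at hcore
      exact hcore.2 (x l) (hxX l) (y l) (hyX l) (hw.2 l hl)
    have h1 : ((P ∩ E (φ (ψ j))).card : ℝ) ≤ ((step H (rul g κ i) X j ∩ E (φ (ψ j))).card : ℝ) := by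
      exact_mod_cast card_le_card hsub
    linarith
  · -- the pair of type `(A i, B i)`
    obtain ⟨x', y', hx', hy', hxy2⟩ : ∃ x' y', x' ∈ X (Lab.A i) ∧ y' ∈ X (Lab.B i.castSucc) ∧ x' ≠ y' := by
      by_cases h : x (Lab.A i) = x (Lab.B i.castSucc)
      · refine ⟨x (Lab.A i), y (Lab.B i.castSucc), hxX _, hyX _, ?_⟩
        rw [h]
        exact (hxy _).2.2
      · exact ⟨x (Lab.A i), x (Lab.B i.castSucc), hxX _, hxX _, h⟩
    obtain ⟨x2, hx2⟩ : ∃ x2 : Lab g κ → V, x2 = Function.update x c x' := ⟨_, rfl⟩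
    obtain ⟨y2, hy2⟩ : ∃ y2 : Lab g κ → V, y2 = Function.update y c y' := ⟨_, rfl⟩
    have hx2c : x2 c = x' := by rw [hx2, Function.update_self]
    have hy2c : y2 c = y' := by rw [hy2, Function.update_self]
    have hx2l : ∀ l, l ≠ c → x2 l = x l := fun l hl => by rw [hx2, Function.update_of_ne hl]
    have hy2l : ∀ l, l ≠ c → y2 l = y l := fun l hl => by rw [hy2, Function.update_of_ne hl]
    obtain ⟨P', hP'⟩ : ∃ P' : Finset V, P' = univ.filter
      (fun w => ∀ l ∈ univ.erase j, ({x2 l, y2 l, w} : Finset V) ∈ H) := ⟨_, rfl⟩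
    have hP'1 : ∀ w ∈ P', ({x', y', w} : Finset V) ∈ H := by
      intro w hw
      rw [hP', mem_filter] at hw
      have := hw.2 c (mem_erase.2 ⟨fun h => hjc h.symm, mem_univ _⟩)
      rwa [hx2c, hy2c] at this
    have hP'2 : ∀ w ∈ P', ∀ l, l ≠ j → l ≠ c → ({x l, y l, w} : Finset V) ∈ H := by
      intro w hw l hlj hlc
      rw [hP', mem_filter] at hw
      have := hw.2 l (mem_erase.2 ⟨hlj, mem_univ _⟩)
      rwa [hx2l l hlc, hy2l l hlc] at this
    have hcard : a - s ≤ (P'.card : ℝ) := by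
      have h0 : ∀ l ∈ univ.erase j, x2 l ≠ y2 l := by
        intro l _
        by_cases hlc : l = c
        · rw [hlc, hx2c, hy2c]
          exact hxy2
        · rw [hx2l l hlc, hy2l l hlc]
          exact (hxy l).2.2
      have h1 : (Fintype.card V : ℝ) - ((univ.erase j).card : ℝ) * a ≤ (P'.card : ℝ) := by
        rw [hP']
        convert card_common (H := H) (a := a) (univ.erase j) x2 y2 hcc h0
      have h2 : ((univ.erase j).card : ℝ) = (Fintype.card (Lab g κ) : ℝ) - 1 := by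
        have h3 : (univ.erase j).card + 1 = Fintype.card (Lab g κ) := by
          rw [card_erase_add_one (mem_univ j)]
          rfl
        have h4 : ((univ.erase j).card : ℝ) + 1 = (Fintype.card (Lab g κ) : ℝ) := by exact_mod_cast h3
        linarith
      rw [h2] at h1
      nlinarith
    have hsub1 : P' ∩ E (φ (ψ j)) ⊆ step H (rul g κ i) X j ∩ E (φ (ψ j)) := by
      refine inter_subset_inter_right ?_
      intro w hw
      rw [step, mem_filter]
      refine ⟨mem_univ _, fun l hl hcore => ?_⟩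
      by_cases hlc : l = c
      · rw [hlc, hrc, core, mem_filter] at hcore
        exact hcore.2 x' hx' y' hy' (hP'1 w hw)
      · rw [hrj l hlc, core, mem_filter] at hcore
        exact hcore.2 (x l) (hxX l) (y l) (hyX l) (hP'2 w hw l hl hlc)
    have hsub2 : P' ⊆ (P' ∩ E (φ (ψ j))) ∪ ((P' ∩ E (φ (ψ c))) ∪ (univ \ univ.biUnion E)) := by
      intro w hw
      rw [mem_union, mem_union, mem_inter, mem_inter, mem_sdiff]
      by_cases hwE : w ∈ univ.biUnion E
      · obtain ⟨k, -, hk⟩ := mem_biUnion.1 hwE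
        obtain ⟨l, hl⟩ : ∃ l, φ (ψ l) = k := ⟨ψ.symm (φ.symm k), by simp⟩
        rw [← hl] at hk
        by_cases hlj : l = j
        · left
          rw [← hlj]
          exact ⟨hw, hk⟩
        · by_cases hlc : l = c
          · right
            left
            rw [← hlc]
            exact ⟨hw, hk⟩
          · exact absurd (hP'2 w hw l hlj hlc) (hsk.cov (φ (ψ l)) (x l) (hxy' l).1 (y l) (hxy' l).2.1 (hxy' l).2.2 w hk)
      · right
        right
        exact ⟨mem_univ _, hwE⟩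
    have hsub3 : P' ∩ E (φ (ψ c)) ⊆ (E (φ (ψ c)) \ P) ∪ WW H (rul g κ i) X := by
      intro w hw
      rw [mem_inter] at hw
      rw [mem_union, mem_sdiff]
      by_cases hwP : w ∈ P
      · right
        rw [WW, mem_filter]
        refine ⟨mem_univ _, fun l hcore => ?_⟩
        by_cases hlc : l = c
        · rw [hlc, hrc, core, mem_filter] at hcore
          exact hcore.2 x' hx' y' hy' (hP'1 w hw.1)
        · rw [hrj l hlc, core, mem_filter] at hcore
          rw [hP, mem_filter] at hwP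
          exact hcore.2 (x l) (hxX l) (y l) (hyX l) (hwP.2 l hlc)
      · left
        exact ⟨hw.2, hwP⟩
    have h3 : ((P' ∩ E (φ (ψ c))).card : ℝ) ≤ ((E (φ (ψ c)) \ P).card : ℝ) + 1 := by
      have h4 : (P' ∩ E (φ (ψ c))).card ≤ (E (φ (ψ c)) \ P).card + 1 :=
        (card_le_card hsub3).trans ((card_union_le _ _).trans (by omega))
      exact_mod_cast h4
    have h5 : ((E (φ (ψ c)) \ P).card : ℝ) ≤ 2 * s + 2 := by
      have h6 : (E (φ (ψ c)) \ P).card + (P ∩ E (φ (ψ c))).card = (E (φ (ψ c))).card := by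
        rw [inter_comm]
        exact card_sdiff_add_card_inter _ _
      have h7 : ((E (φ (ψ c)) \ P).card : ℝ) + ((P ∩ E (φ (ψ c))).card : ℝ) = ((E (φ (ψ c))).card : ℝ) := by
        exact_mod_cast h6
      have h8 := hsk.upE (φ (ψ c))
      linarith
    have h9 : (P'.card : ℝ) ≤ ((P' ∩ E (φ (ψ j))).card : ℝ) + (((P' ∩ E (φ (ψ c))).card : ℝ) +
        ((univ \ univ.biUnion E).card : ℝ)) := by
      have h10 : P'.card ≤ (P' ∩ E (φ (ψ j))).card + ((P' ∩ E (φ (ψ c))).card + (univ \ univ.biUnion E).card) :=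
        (card_le_card hsub2).trans ((card_union_le _ _).trans (Nat.add_le_add_left (card_union_le _ _) _))
      exact_mod_cast h10
    have h11 : ((P' ∩ E (φ (ψ j))).card : ℝ) ≤ ((step H (rul g κ i) X j ∩ E (φ (ψ j))).card : ℝ) := by
      exact_mod_cast card_le_card hsub1
    have h12 := hsk.rest
    linarith

end CT3
end
end
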