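import Mathlib
import Pool.Agent.Lib.MP_63f67f_co_k3.Defs
import Pool.Agent.Lib.MP_63f67f_co_k3.L06
import Pool.Agent.Lib.MP_63f67f_co_k3.Y08
import Pool.Agent.Lib.MP_63f67f_co_k3.P06
import Pool.Agent.Lib.MP_63f67f_co.D19
import Pool.Agent.Lib.MP_63f67f_co.B08

section

section

/-!
# Turan's theorem for ordered pairs

The graph on `S` (as a subtype) with adjacency `adj` has no clique with `κ + 1` vertices; Mathlib:
`SimpleGraph.CliqueFree.card_edgeFinset_le` (or `mul_card_edgeFinset_turanGraph_le`).  The number of ordered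
adjacent pairs is twice the number of edges, at most `(1 - 1/κ) |S|^2`.
-/

set_option autoImplicit false

open Finset

namespace CT3

theorem turan_pairs {V : Type} [DecidableEq V] (S : Finset V) (adj : V → V → Prop) [DecidableRel adj]
    (hsymm : ∀ x y, adj x y → adj y x) (hirr : ∀ x, ¬ adj x x) (κ : ℕ) (hκ : 1 ≤ κ)
    (hfree : ¬ ∃ x : Fin (κ + 1) → V, (∀ i, x i ∈ S) ∧ ∀ i j, i ≠ j → adj (x i) (x j)) :
    ((S.card : ℝ)) ^ 2 ≤ (κ : ℝ) * (((S ×ˢ S).filter (fun q => ¬ adj q.1 q.2)).card : ℝ) := by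
  classical
  let G : SimpleGraph {x // x ∈ S} :=
    { Adj := fun a b => adj a.1 b.1
      symm := ⟨fun a b h => hsymm _ _ h⟩
      loopless := ⟨fun a h => hirr _ h⟩ }
  have hcf : G.CliqueFree (κ + 1) := by
    by_contra hc
    rw [SimpleGraph.not_cliqueFree_iff_top_isContained] at hc
    obtain ⟨e⟩ := hc
    apply hfree
    refine ⟨fun i => (e i).1, fun i => (e i).2, fun i j hij => ?_⟩
    have : G.Adj (e i) (e j) := e.toHom.map_adj (by simpa using hij)
    exact this
  have : DecidableRel G.Adj := Classical.decRel _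
  -- number of edges
  have hE : 2 * κ * G.edgeFinset.card ≤ (κ - 1) * S.card ^ 2 := by
    obtain ⟨H, _, maxH⟩ := SimpleGraph.exists_isTuranMaximal (V := {x // x ∈ S}) (r := κ) (by omega)
    have h1 : G.edgeFinset.card ≤ H.edgeFinset.card := by
      exact maxH.2 hcf
    have h2 := ((SimpleGraph.isTuranMaximal_iff_nonempty_iso_turanGraph (by omega)).mp maxH).some.card_edgeFinset_eq
    have h3 := SimpleGraph.mul_card_edgeFinset_turanGraph_le (n := Fintype.card {x // x ∈ S}) (r := κ)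
    rw [← h2] at h3
    have h4 : Fintype.card {x // x ∈ S} = S.card := by simp
    rw [h4] at h3
    calc 2 * κ * G.edgeFinset.card ≤ 2 * κ * H.edgeFinset.card := Nat.mul_le_mul_left _ h1
      _ ≤ _ := h3
  -- ordered pairs
  have hP : ((S ×ˢ S).filter (fun q => adj q.1 q.2)).card = 2 * G.edgeFinset.card := by
    rw [← SimpleGraph.sum_degrees_eq_twice_card_edges]
    have h1 : ((S ×ˢ S).filter (fun q => adj q.1 q.2)).card = ∑ x ∈ S, (S.filter (fun y => adj x y)).card := by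
      rw [Finset.card_filter, Finset.sum_product]
      refine Finset.sum_congr rfl fun x _ => ?_
      rw [Finset.card_filter]
    rw [h1, ← Finset.sum_coe_sort]
    refine Finset.sum_congr rfl fun x _ => ?_
    rw [← SimpleGraph.card_neighborFinset_eq_degree]
    symm
    refine Finset.card_bij (fun y _ => y.1) ?_ ?_ ?_
    · intro y hy
      rw [SimpleGraph.mem_neighborFinset] at hy
      exact Finset.mem_filter.2 ⟨y.2, hy⟩
    · intro a _ b _ h
      exact Subtype.ext h
    · intro b hb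
      rw [Finset.mem_filter] at hb
      refine ⟨⟨b, hb.1⟩, ?_, rfl⟩
      rw [SimpleGraph.mem_neighborFinset]
      exact hb.2
  have hT : ((S ×ˢ S).filter (fun q => adj q.1 q.2)).card
      + ((S ×ˢ S).filter (fun q => ¬ adj q.1 q.2)).card = S.card ^ 2 := by
    rw [Finset.card_filter_add_card_filter_not, Finset.card_product, sq]
  have hE' : (2 * κ * G.edgeFinset.card : ℝ) ≤ ((κ : ℝ) - 1) * (S.card : ℝ) ^ 2 := by
    have : ((2 * κ * G.edgeFinset.card : ℕ) : ℝ) ≤ (((κ - 1) * S.card ^ 2 : ℕ) : ℝ) := by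
      exact_mod_cast hE
    push_cast [Nat.cast_sub hκ] at this
    exact this
  have hT' : (2 * (G.edgeFinset.card : ℝ)) + (((S ×ˢ S).filter (fun q => ¬ adj q.1 q.2)).card : ℝ)
      = (S.card : ℝ) ^ 2 := by
    rw [hP] at hT
    exact_mod_cast hT
  nlinarith [hE', hT']

/-- completing the square -/
theorem quad_ineq {κ p q Λ r : ℝ} (hκ : 0 < κ) (hp : 0 < p) (h : κ * q ^ 2 = 4 * p * (q - Λ)) :
    Λ ≤ p * (1 - r) ^ 2 / κ + q * r := by
  have h1 : Λ = q - κ * q ^ 2 / (4 * p) := by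
    rw [h]; field_simp; ring
  have h2 : p * (1 - r) ^ 2 / κ + κ * q ^ 2 / (4 * p) - q * (1 - r)
      = (2 * p * (1 - r) - κ * q) ^ 2 / (4 * p * κ) := by
    field_simp; ring
  have h3 : 0 ≤ (2 * p * (1 - r) - κ * q) ^ 2 / (4 * p * κ) := by positivity
  linarith

end CT3
end

section

/-!
# Elementary facts on the proportions `ms`

`sum_ms`: double counting: `∑_w #{(x,y) : xyw ∉ H} = ∑_{(x,y)} |CC x y|`, at most `a` for `x ≠ y`, at most `n`
for `x = y`, and there are at most `|X p.1|` pairs with `x = y`.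
-/

set_option autoImplicit false

open Finset

namespace CT3

variable {V : Type} [Fintype V] [DecidableEq V] {M : Type} {H : Finset (Finset V)}
  {X : M → Finset V}

theorem ms_nonneg (p : M × M) (w : V) : 0 ≤ ms H X p w := by
  unfold ms
  positivity

theorem ms_core [Fintype M] [DecidableEq M] {p : M × M} {w : V} (h1 : (X p.1).Nonempty)
    (h2 : (X p.2).Nonempty) (hw : w ∈ core H X p) : ms H X p w = 1 := by
  have hw' : ∀ x ∈ X p.1, ∀ y ∈ X p.2, ({x, y, w} : Finset V) ∉ H := by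
    have h := hw
    unfold core at h
    exact (mem_filter.mp h).2
  have hf : (X p.1 ×ˢ X p.2).filter (fun q => ({q.1, q.2, w} : Finset V) ∉ H) =
      X p.1 ×ˢ X p.2 := by
    apply filter_true_of_mem
    intro q hq
    rw [mem_product] at hq
    exact hw' q.1 hq.1 q.2 hq.2
  have c1 : (0 : ℝ) < ((X p.1).card : ℝ) := by exact_mod_cast h1.card_pos
  have c2 : (0 : ℝ) < ((X p.2).card : ℝ) := by exact_mod_cast h2.card_pos
  unfold ms
  rw [hf, card_product, Nat.cast_mul]
  exact div_self (mul_pos c1 c2).ne'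

private theorem s02_swap (p : M × M) :
    ∑ w : V, (((X p.1 ×ˢ X p.2).filter (fun q => ({q.1, q.2, w} : Finset V) ∉ H)).card : ℝ) =
      ∑ q ∈ X p.1 ×ˢ X p.2, ((CC H q.1 q.2).card : ℝ) := by
  have h1 : ∀ w : V,
      (((X p.1 ×ˢ X p.2).filter (fun q => ({q.1, q.2, w} : Finset V) ∉ H)).card : ℝ) =
        ∑ q ∈ X p.1 ×ˢ X p.2, if ({q.1, q.2, w} : Finset V) ∉ H then (1 : ℝ) else 0 := by
    intro w
    rw [card_filter]
    push_cast
    rfl
  have h2 : ∀ q : V × V, ((CC H q.1 q.2).card : ℝ) =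
      ∑ w : V, if ({q.1, q.2, w} : Finset V) ∉ H then (1 : ℝ) else 0 := by
    intro q
    unfold CC
    rw [card_filter]
    push_cast
    rfl
  rw [sum_congr rfl (fun w _ => h1 w), sum_congr rfl (fun q _ => h2 q), sum_comm]

private theorem s02_diag (A B : Finset V) :
    ((A ×ˢ B).filter (fun q => q.1 = q.2)).card ≤ A.card := by
  apply card_le_card_of_injOn Prod.fst
  · intro q hq
    have hq' := mem_filter.mp (mem_coe.mp hq)
    exact mem_coe.mpr (mem_product.mp hq'.1).1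
  · intro q hq q' hq' h
    have h1 := (mem_filter.mp (mem_coe.mp hq)).2
    have h2 := (mem_filter.mp (mem_coe.mp hq')).2
    exact Prod.ext h (by rw [← h1, ← h2]; exact h)

theorem sum_ms {a : ℝ} (ha : 0 ≤ a) (hcc : ∀ x y, x ≠ y → ((CC H x y).card : ℝ) ≤ a) (p : M × M)
    (h1 : (X p.1).Nonempty) (h2 : (X p.2).Nonempty) :
    ∑ w, ms H X p w ≤ a + (Fintype.card V : ℝ) / ((X p.2).card : ℝ) := by
  have c1 : (0 : ℝ) < ((X p.1).card : ℝ) := by exact_mod_cast h1.card_pos
  have c2 : (0 : ℝ) < ((X p.2).card : ℝ) := by exact_mod_cast h2.card_pos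
  unfold ms
  rw [← sum_div, s02_swap, div_le_iff₀ (mul_pos c1 c2)]
  have hb : ∀ q ∈ X p.1 ×ˢ X p.2, ((CC H q.1 q.2).card : ℝ) ≤
      a + if q.1 = q.2 then (Fintype.card V : ℝ) else 0 := by
    intro q _
    by_cases h : q.1 = q.2
    · rw [if_pos h]
      have : ((CC H q.1 q.2).card : ℝ) ≤ (Fintype.card V : ℝ) := by
        exact_mod_cast card_le_univ _
      linarith
    · rw [if_neg h, add_zero]
      exact hcc _ _ h
  refine (sum_le_sum hb).trans ?_
  rw [sum_add_distrib, sum_const, card_product, ← sum_filter, sum_const, nsmul_eq_mul,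
    nsmul_eq_mul, Nat.cast_mul]
  have hd : ((((X p.1 ×ˢ X p.2).filter (fun q => q.1 = q.2)).card : ℕ) : ℝ) ≤
      ((X p.1).card : ℝ) := by
    exact_mod_cast s02_diag (X p.1) (X p.2)
  have hn : (0 : ℝ) ≤ (Fintype.card V : ℝ) := Nat.cast_nonneg _
  have e1 : (a + (Fintype.card V : ℝ) / ((X p.2).card : ℝ)) *
      (((X p.1).card : ℝ) * ((X p.2).card : ℝ)) =
        ((X p.1).card : ℝ) * ((X p.2).card : ℝ) * a +
          ((X p.1).card : ℝ) * (Fintype.card V : ℝ) := by
    field_simp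
  rw [e1]
  have := mul_le_mul_of_nonneg_right hd hn
  linarith

end CT3
end

section

/-!
# Losses in the link of one vertex

`ms_link`: let `S` be the set of the `x ∈ X B` such that some `a ∈ X A` has `{v,x,a} ∈ H`, `|S| = (1-r)|X B|`.
All pairs `(a, x)`, `x ∈ X B \ S` miss `v`; `S` contains no `κ + 1` vertices with pairwise `{v,x,y} ∈ H`.
`ms_link'` is the case without marks (`S = X B`).
(The sets `{x, y, v}`, `{v, x, y}` are equal; `{v,x,x}` has at most 2 elements, so it is not in `H`.)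
-/

set_option autoImplicit false

open Finset

namespace CT3

variable {V : Type} [Fintype V] [DecidableEq V] {M : Type} {H : Finset (Finset V)}
  {X : M → Finset V}

omit [Fintype V] in
/-- the common core: a subset `S` of `X B` without a clique in the link of `v` -/
private theorem ms_core_set (hU : CT.Unif 3 H) (κ : ℕ) (hκ : 1 ≤ κ) (B : M) (hB : (X B).Nonempty)
    (v : V) (S : Finset V) (hS : S ⊆ X B)
    (hfree : ¬ ∃ x : Fin (κ + 1) → V, (∀ i, x i ∈ S) ∧
      (∀ i j, i ≠ j → ({v, x i, x j} : Finset V) ∈ H)) :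
    ((S.card : ℝ) / ((X B).card : ℝ)) ^ 2 / κ ≤ ms H X (B, B) v := by
  have hκ' : (0 : ℝ) < κ := by exact_mod_cast hκ
  have hb : (0 : ℝ) < ((X B).card : ℝ) := by exact_mod_cast hB.card_pos
  have hT := turan_pairs S (fun x y => ({v, x, y} : Finset V) ∈ H) (by
      intro x y hxy
      have h : ({v, y, x} : Finset V) = {v, x, y} := by
        rw [Finset.pair_comm]
      rw [h]; exact hxy) (by
      intro x hx
      have h1 := hU _ hx
      have h2 : ({v, x, x} : Finset V) = {v, x} := by simp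
      rw [h2] at h1
      have h3 := Finset.card_le_two (a := v) (b := x)
      omega) κ hκ hfree
  have hsub : (S ×ˢ S).filter (fun q => ¬ ({v, q.1, q.2} : Finset V) ∈ H) ⊆
      (X B ×ˢ X B).filter (fun q => ({q.1, q.2, v} : Finset V) ∉ H) := by
    intro q hq
    rw [Finset.mem_filter, Finset.mem_product] at hq ⊢
    refine ⟨⟨hS hq.1.1, hS hq.1.2⟩, ?_⟩
    have h : ({q.1, q.2, v} : Finset V) = {v, q.1, q.2} := by
      ext z; simp only [Finset.mem_insert, Finset.mem_singleton]; tauto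
    rw [h]; exact hq.2
  have hcard : (((S ×ˢ S).filter (fun q => ¬ ({v, q.1, q.2} : Finset V) ∈ H)).card : ℝ) ≤
      (((X B ×ˢ X B).filter (fun q => ({q.1, q.2, v} : Finset V) ∉ H)).card : ℝ) := by
    exact_mod_cast Finset.card_le_card hsub
  have h5 : (S.card : ℝ) ^ 2 ≤ κ *
      (((X B ×ˢ X B).filter (fun q => ({q.1, q.2, v} : Finset V) ∉ H)).card : ℝ) :=
    hT.trans (mul_le_mul_of_nonneg_left hcard hκ'.le)
  unfold ms
  rw [div_pow, div_div, div_le_div_iff₀ (by positivity) (by positivity)]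
  simp only
  nlinarith [mul_le_mul_of_nonneg_right h5 (mul_pos hb hb).le]

theorem ms_link (hU : CT.Unif 3 H) (κ : ℕ) (hκ : 1 ≤ κ) (A B : M) (hA : (X A).Nonempty) (hB : (X B).Nonempty)
    (v : V) (hno : ¬ ∃ x : Fin (κ + 1) → V, (∀ i, x i ∈ X B) ∧
      (∀ i j, i ≠ j → ({v, x i, x j} : Finset V) ∈ H) ∧ ∀ i, ∃ a ∈ X A, ({v, x i, a} : Finset V) ∈ H) :
    ∃ r : ℝ, (1 - r) ^ 2 / κ ≤ ms H X (B, B) v ∧ r ≤ ms H X (A, B) v := by
  classical
  set S : Finset V := (X B).filter (fun x => ∃ a ∈ X A, ({v, x, a} : Finset V) ∈ H) with hSdef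
  have hS : S ⊆ X B := Finset.filter_subset _ _
  have ha : (0 : ℝ) < ((X A).card : ℝ) := by exact_mod_cast hA.card_pos
  have hb : (0 : ℝ) < ((X B).card : ℝ) := by exact_mod_cast hB.card_pos
  refine ⟨1 - (S.card : ℝ) / ((X B).card : ℝ), ?_, ?_⟩
  · have h := ms_core_set (X := X) hU κ hκ B hB v S hS (by
      rintro ⟨x, hx1, hx2⟩
      refine hno ⟨x, fun i => hS (hx1 i), hx2, fun i => ?_⟩
      exact (Finset.mem_filter.1 (hx1 i)).2)
    have h2 : (1 : ℝ) - (1 - (S.card : ℝ) / ((X B).card : ℝ)) = (S.card : ℝ) / ((X B).card : ℝ) := by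
      ring
    rw [h2]; exact h
  · have hsub : X A ×ˢ (X B \ S) ⊆
        (X A ×ˢ X B).filter (fun q => ({q.1, q.2, v} : Finset V) ∉ H) := by
      intro q hq
      rw [Finset.mem_product, Finset.mem_sdiff] at hq
      rw [Finset.mem_filter, Finset.mem_product]
      refine ⟨⟨hq.1, hq.2.1⟩, fun hmem => hq.2.2 ?_⟩
      rw [hSdef, Finset.mem_filter]
      refine ⟨hq.2.1, q.1, hq.1, ?_⟩
      have h : ({v, q.2, q.1} : Finset V) = {q.1, q.2, v} := by
        ext z; simp only [Finset.mem_insert, Finset.mem_singleton]; tauto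
      rw [h]; exact hmem
    have hcard := Finset.card_le_card hsub
    rw [Finset.card_product, Finset.card_sdiff_of_subset hS] at hcard
    have hle := Finset.card_le_card hS
    have h1 : ((X A).card : ℝ) * (((X B).card : ℝ) - (S.card : ℝ)) ≤
        (((X A ×ˢ X B).filter (fun q => ({q.1, q.2, v} : Finset V) ∉ H)).card : ℝ) := by
      have : (((X A).card * ((X B).card - S.card) : ℕ) : ℝ) ≤
        (((X A ×ˢ X B).filter (fun q => ({q.1, q.2, v} : Finset V) ∉ H)).card : ℝ) := by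
        exact_mod_cast hcard
      rw [Nat.cast_mul, Nat.cast_sub hle] at this
      exact this
    unfold ms
    rw [le_div_iff₀ (mul_pos ha hb)]
    have h2 : (1 - (S.card : ℝ) / ((X B).card : ℝ)) * (((X A).card : ℝ) * ((X B).card : ℝ)) =
        ((X A).card : ℝ) * (((X B).card : ℝ) - (S.card : ℝ)) := by
      field_simp
    simp only at h1 ⊢
    rw [h2]; exact h1

theorem ms_link' (hU : CT.Unif 3 H) (κ : ℕ) (hκ : 1 ≤ κ) (B : M) (hB : (X B).Nonempty)
    (v : V) (hno : ¬ ∃ x : Fin (κ + 1) → V, (∀ i, x i ∈ X B) ∧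
      (∀ i j, i ≠ j → ({v, x i, x j} : Finset V) ∈ H)) :
    1 / (κ : ℝ) ≤ ms H X (B, B) v := by
  have h := ms_core_set (X := X) hU κ hκ B hB v (X B) (Finset.Subset.refl _) hno
  have hb : ((X B).card : ℝ) ≠ 0 := by exact_mod_cast hB.card_pos.ne'
  rw [div_self hb, one_pow] at h
  exact h

end CT3
end

section

/-!
# Every vertex has weight at least one

`cnt_core2`: `w` in the cores of two canonical types `(j,j)`, `(j',j')`: both weights are at least `1/2`.
`cnt_core1`: `w` in the core of `(j,j)` with weight 1 (`j = A i`, `E i` or `B 0`).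
`cnt_coreB`: `w` in the cores of `(B i.succ, B i.succ)` and of `(A i, B i.castSucc)`.
`cnt_coreD`: `v` in the core of `(D,D)` and `¬ Cond`: there is `b` such that the part of `Cond` with index `b`
fails; for `b = i.castSucc` use `ms_link` (`A = Lab.A i`, `B = Lab.B b`) and `quad_ineq` with `p = P i / lam`,
`q = Q i / lam`, `Λ = 1/lam`; for `b = Fin.last g` use `ms_link'`.
(All other terms of `cnt` are nonnegative.)
-/

set_option autoImplicit false

open Finset

namespace CT3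

variable {V : Type} [Fintype V] [DecidableEq V] {H : Finset (Finset V)} {g κ : ℕ} (p : Par g κ)
  {X : Lab g κ → Finset V}

theorem s05_nn1 (hg : 1 ≤ g) (hκ : 4 ≤ κ) (w : V) (j : Lab g κ) : 0 ≤ p.wt j * ms H X (j, j) w :=
  mul_nonneg (by linarith [p.wt_half hg hκ j]) (ms_nonneg _ _)

theorem s05_lam_pos (hg : 1 ≤ g) : 0 < p.lam := by
  have h := p.lam_gt hg
  have h2 : (0 : ℝ) ≤ κ := Nat.cast_nonneg κ
  linarith

theorem s05_nn2 (hg : 1 ≤ g) (w : V) (i : Fin g) :
    0 ≤ p.Q i / p.lam * ms H X (Lab.A i, Lab.B i.castSucc) w :=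
  mul_nonneg (div_nonneg (by linarith [p.Q1 i i.2]) (s05_lam_pos p hg).le) (ms_nonneg _ _)

theorem s05_lb2 (hg : 1 ≤ g) (hκ : 4 ≤ κ) (w : V) {j j' : Lab g κ} (hj : j ≠ j') :
    p.wt j * ms H X (j, j) w + p.wt j' * ms H X (j', j') w ≤ ∑ j, p.wt j * ms H X (j, j) w := by
  rw [← Finset.sum_pair (f := fun j => p.wt j * ms H X (j, j) w) hj]
  exact Finset.sum_le_sum_of_subset_of_nonneg (Finset.subset_univ _)
    (fun l _ _ => s05_nn1 p hg hκ w l)

theorem s05_lb1 (hg : 1 ≤ g) (hκ : 4 ≤ κ) (w : V) (j : Lab g κ) :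
    p.wt j * ms H X (j, j) w ≤ ∑ j, p.wt j * ms H X (j, j) w :=
  Finset.single_le_sum (f := fun j => p.wt j * ms H X (j, j) w) (fun l _ => s05_nn1 p hg hκ w l)
    (Finset.mem_univ j)

theorem s05_lbQ (hg : 1 ≤ g) (w : V) (i : Fin g) :
    p.Q i / p.lam * ms H X (Lab.A i, Lab.B i.castSucc) w ≤
      ∑ i : Fin g, p.Q i / p.lam * ms H X (Lab.A i, Lab.B i.castSucc) w :=
  Finset.single_le_sum (f := fun i : Fin g => p.Q i / p.lam * ms H X (Lab.A i, Lab.B i.castSucc) w)
    (fun l _ => s05_nn2 p hg w l) (Finset.mem_univ i)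

theorem s05_lbQ0 (hg : 1 ≤ g) (w : V) :
    0 ≤ ∑ i : Fin g, p.Q i / p.lam * ms H X (Lab.A i, Lab.B i.castSucc) w :=
  Finset.sum_nonneg (fun l _ => s05_nn2 p hg w l)

theorem cnt_core2 (hg : 1 ≤ g) (hκ : 4 ≤ κ) (hX : ∀ l, (X l).Nonempty) {w : V} {j j' : Lab g κ} (hj : j ≠ j')
    (h1 : w ∈ core H X (j, j)) (h2 : w ∈ core H X (j', j')) : 1 ≤ cnt p H X w := by
  have a1 := s05_lb2 (H := H) (X := X) p hg hκ w hj
  have a2 := s05_lbQ0 (H := H) (X := X) p hg w
  rw [ms_core (hX j) (hX j) h1, ms_core (hX j') (hX j') h2] at a1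
  have b1 := p.wt_half hg hκ j
  have b2 := p.wt_half hg hκ j'
  unfold cnt
  linarith

theorem cnt_core1 (hg : 1 ≤ g) (hκ : 4 ≤ κ) (hX : ∀ l, (X l).Nonempty) {w : V} {j : Lab g κ} (hj : p.wt j = 1)
    (h1 : w ∈ core H X (j, j)) : 1 ≤ cnt p H X w := by
  have a1 := s05_lb1 (H := H) (X := X) p hg hκ w j
  have a2 := s05_lbQ0 (H := H) (X := X) p hg w
  rw [ms_core (hX j) (hX j) h1, hj] at a1
  unfold cnt
  linarith

theorem cnt_coreB (hg : 1 ≤ g) (hκ : 4 ≤ κ) (hX : ∀ l, (X l).Nonempty) {w : V} (i : Fin g)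
    (h1 : w ∈ core H X (Lab.B i.succ, Lab.B i.succ)) (h2 : w ∈ core H X (Lab.A i, Lab.B i.castSucc)) :
    1 ≤ cnt p H X w := by
  have a1 := s05_lb1 (H := H) (X := X) p hg hκ w (Lab.B i.succ)
  have a2 := s05_lbQ (H := H) (X := X) p hg w i
  rw [ms_core (hX _) (hX _) h1] at a1
  rw [ms_core (hX _) (hX _) h2] at a2
  have b := p.wt_succ hg (by omega) i
  unfold cnt
  linarith

theorem cnt_coreD (hU : CT.Unif 3 H) (hg : 1 ≤ g) (hκ : 4 ≤ κ) (hX : ∀ l, (X l).Nonempty) {v : V}
    (h1 : v ∈ core H X (Lab.D, Lab.D)) (h2 : ¬ Cond g κ H X v) : 1 ≤ cnt p H X v := by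
  have hl := s05_lam_pos p hg
  have hκ0 : (0 : ℝ) < κ := by
    have : 0 < κ := by omega
    exact_mod_cast this
  unfold Cond at h2
  rw [not_forall] at h2
  obtain ⟨b, hb⟩ := h2
  have hDB : (Lab.D : Lab g κ) ≠ Lab.B b := by
    intro h
    cases h
  have a1 := s05_lb2 (H := H) (X := X) p hg hκ v hDB
  rw [ms_core (hX _) (hX _) h1] at a1
  have hwD : p.wt Lab.D = 1 - 1 / p.lam := rfl
  have hwB : p.wt (Lab.B b) = p.P b / p.lam := rfl
  rw [hwD, hwB] at a1
  induction b using Fin.lastCases with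
  | last =>
    have hno : ¬ ∃ x : Fin (κ + 1) → V, (∀ i, x i ∈ X (Lab.B (Fin.last g))) ∧
        (∀ i j, i ≠ j → ({v, x i, x j} : Finset V) ∈ H) := by
      rintro ⟨x, hx1, hx2⟩
      apply hb
      refine ⟨x, hx1, hx2, ?_⟩
      intro b' hb'
      exfalso
      have h3 := congrArg Fin.val hb'
      simp only [Fin.val_last, Fin.val_castSucc] at h3
      have := b'.2
      omega
    have hm := ms_link' (X := X) hU κ (by omega) (Lab.B (Fin.last g)) (hX _) v hno
    have a2 := s05_lbQ0 (H := H) (X := X) p hg v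
    have hP : p.P ((Fin.last g : Fin (g + 1)) : ℕ) = κ := by
      rw [Fin.val_last]
      exact p.Pg
    rw [hP] at a1
    have h5 : 1 / p.lam ≤ (κ : ℝ) / p.lam * ms H X (Lab.B (Fin.last g), Lab.B (Fin.last g)) v := by
      calc 1 / p.lam = (κ : ℝ) / p.lam * (1 / κ) := by
            field_simp
        _ ≤ _ := mul_le_mul_of_nonneg_left hm (div_nonneg hκ0.le hl.le)
    unfold cnt
    linarith
  | cast i =>
    have hno : ¬ ∃ x : Fin (κ + 1) → V, (∀ j, x j ∈ X (Lab.B i.castSucc)) ∧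
        (∀ i j, i ≠ j → ({v, x i, x j} : Finset V) ∈ H) ∧
        ∀ j, ∃ a ∈ X (Lab.A i), ({v, x j, a} : Finset V) ∈ H := by
      rintro ⟨x, hx1, hx2, hx3⟩
      apply hb
      refine ⟨x, hx1, hx2, ?_⟩
      intro b' hb'
      have h3 := Fin.castSucc_injective g hb'
      subst h3
      exact hx3
    obtain ⟨r, hr1, hr2⟩ := ms_link (X := X) hU κ (by omega) (Lab.A i) (Lab.B i.castSucc) (hX _) (hX _) v hno
    have a2 := s05_lbQ (H := H) (X := X) p hg v i
    have hPp : 0 < p.P ((i.castSucc : Fin (g + 1)) : ℕ) := p.P_pos (by omega) _ (by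
      rw [Fin.val_castSucc]
      exact i.2.le)
    have hq : 1 / p.lam ≤ (p.P ((i.castSucc : Fin (g + 1)) : ℕ) / p.lam) * (1 - r) ^ 2 / κ + (p.Q i / p.lam) * r := by
      apply quad_ineq hκ0 (div_pos hPp hl)
      have hrel := p.rel i i.2
      rw [Fin.val_castSucc]
      field_simp
      linarith
    have hQ : 0 ≤ p.Q i / p.lam := div_nonneg (by linarith [p.Q1 i i.2]) hl.le
    have c1 : (p.P ((i.castSucc : Fin (g + 1)) : ℕ) / p.lam) * (1 - r) ^ 2 / κ ≤
        (p.P ((i.castSucc : Fin (g + 1)) : ℕ) / p.lam) * ms H X (Lab.B i.castSucc, Lab.B i.castSucc) v := by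
      rw [mul_div_assoc]
      exact mul_le_mul_of_nonneg_left hr1 (div_nonneg hPp.le hl.le)
    have c2 : (p.Q i / p.lam) * r ≤ p.Q i / p.lam * ms H X (Lab.A i, Lab.B i.castSucc) v :=
      mul_le_mul_of_nonneg_left hr2 hQ
    unfold cnt
    linarith

end CT3
end

section

/-!
# The static part of the upper bound (paper, section 4)

`cnt_ge`: if `w` is in no core `(j,j)` then `w ∈ WW can`; if in two: `cnt_core2`; if in exactly one, `(j,j)`:
`j = D`: `w ∈ step can X D`, `cnt_coreD`; `j = B i.succ`: if `w` is not in the core of `(A i, B i.castSucc)` then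
`w ∈ WW (rul i) X`, else `cnt_coreB`; otherwise (`j = A i`, `E i`, `B 0`; `wt = 1`, for `B 0` since `P 0 = lam`) `cnt_core1`.
`static_bound`: sum over all `w`: at most `g + 1` exceptions; `sum_ms` and `Par.wt_total`
(the weights `wt j`, `Q i / lam` are nonnegative).
-/

set_option autoImplicit false

open Finset

namespace CT3

variable {V : Type} [Fintype V] [DecidableEq V] {H : Finset (Finset V)} {g κ : ℕ} (p : Par g κ)
  {X : Lab g κ → Finset V}

private theorem S06_core_can {j : Lab g κ} {w : V} :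
    w ∈ core H X (can (Lab g κ) j) ↔ w ∈ core H X (j, j) := Iff.rfl

private theorem S06_lam_pos (hg : 1 ≤ g) : 0 < p.lam := by
  have h1 := p.lam_gt hg
  have h2 : (0 : ℝ) ≤ κ := Nat.cast_nonneg κ
  linarith

theorem cnt_ge (hU : CT.Unif 3 H) (hg : 1 ≤ g) (hκ : 4 ≤ κ) (hX : ∀ l, (X l).Nonempty) {w : V}
    (hcan : w ∉ WW H (can (Lab g κ)) X) (hrul : ∀ i : Fin g, w ∉ WW H (rul g κ i) X)
    (hD : w ∈ step H (can (Lab g κ)) X Lab.D → ¬ Cond g κ H X w) : 1 ≤ cnt p H X w := by
  classical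
  have h1 : ∃ j, w ∈ core H X (j, j) := by
    by_contra hc
    push Not at hc
    apply hcan
    unfold WW
    rw [mem_filter]
    exact ⟨mem_univ _, fun j => hc j⟩
  obtain ⟨j, hj⟩ := h1
  by_cases h2 : ∃ j', j' ≠ j ∧ w ∈ core H X (j', j')
  · obtain ⟨j', hne, hj'⟩ := h2
    exact cnt_core2 p hg hκ hX hne hj' hj
  · push Not at h2
    cases j with
    | D =>
      apply cnt_coreD p hU hg hκ hX hj
      apply hD
      unfold step
      rw [mem_filter]
      exact ⟨mem_univ _, fun l hl => h2 l hl⟩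
    | A i => exact cnt_core1 p hg hκ hX (j := Lab.A i) rfl hj
    | E i => exact cnt_core1 p hg hκ hX (j := Lab.E i) rfl hj
    | B b =>
      rcases Fin.eq_zero_or_eq_succ b with hb | ⟨i, hb⟩
      · subst hb
        refine cnt_core1 p hg hκ hX (j := Lab.B 0) ?_ hj
        have hl := S06_lam_pos p hg
        show p.P ((0 : Fin (g + 1)) : ℕ) / p.lam = 1
        rw [Fin.val_zero, p.P0]
        exact div_self hl.ne'
      · subst hb
        by_cases h3 : w ∈ core H X (Lab.A i, Lab.B i.castSucc)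
        · exact cnt_coreB p hg hκ hX i hj h3
        · exfalso
          apply hrul i
          unfold WW
          rw [mem_filter]
          refine ⟨mem_univ _, fun l => ?_⟩
          by_cases hl : l = Lab.B i.succ
          · subst hl
            unfold rul
            rw [Function.update_self]
            exact h3
          · unfold rul
            rw [Function.update_of_ne hl]
            exact h2 l hl

private theorem S06_cnt_nonneg (hg : 1 ≤ g) (hκ : 4 ≤ κ) (w : V) : 0 ≤ cnt p H X w := by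
  unfold cnt
  have hl := S06_lam_pos p hg
  apply add_nonneg
  · apply sum_nonneg
    intro j _
    have := p.wt_half hg hκ j
    exact mul_nonneg (by linarith) (ms_nonneg _ _)
  · apply sum_nonneg
    intro i _
    have := p.Q1 i i.2
    exact mul_nonneg (div_nonneg (by linarith) hl.le) (ms_nonneg _ _)

theorem static_bound (hU : CT.Unif 3 H) (hg : 1 ≤ g) (hκ : 4 ≤ κ) {a c : ℝ} (ha : 0 ≤ a) (hc : 0 < c)
    (hcc : ∀ x y, x ≠ y → ((CC H x y).card : ℝ) ≤ a) (hX : ∀ l, c ≤ ((X l).card : ℝ))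
    (hcan : (WW H (can (Lab g κ)) X).card ≤ 1) (hrul : ∀ i : Fin g, (WW H (rul g κ i) X).card ≤ 1)
    (hD : ∀ v ∈ step H (can (Lab g κ)) X Lab.D, ¬ Cond g κ H X v) :
    (Fintype.card V : ℝ) - (g + 1) ≤
      ((Fintype.card (Lab g κ) : ℝ) - 1 / p.lam) * (a + (Fintype.card V : ℝ) / c) := by
  classical
  have hlam := S06_lam_pos p hg
  have hXne : ∀ l, (X l).Nonempty := by
    intro l
    rw [← card_pos]
    have := hX l
    have h2 : (0 : ℝ) < ((X l).card : ℝ) := by linarith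
    exact_mod_cast h2
  set Exc : Finset V := WW H (can (Lab g κ)) X ∪
    (univ : Finset (Fin g)).biUnion (fun i => WW H (rul g κ i) X) with hExc
  have hExcard : Exc.card ≤ g + 1 := by
    calc Exc.card ≤ (WW H (can (Lab g κ)) X).card +
          ((univ : Finset (Fin g)).biUnion (fun i => WW H (rul g κ i) X)).card := card_union_le _ _
      _ ≤ 1 + ∑ i : Fin g, (WW H (rul g κ i) X).card := by
          gcongr
          exact card_biUnion_le
      _ ≤ 1 + ∑ _i : Fin g, 1 := by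
          gcongr with i _
          exact hrul i
      _ = g + 1 := by
          simp
          ring
  have hge : ∀ w, w ∉ Exc → 1 ≤ cnt p H X w := by
    intro w hw
    rw [hExc, mem_union, not_or] at hw
    refine cnt_ge p hU hg hκ hXne hw.1 ?_ (fun h => hD w h)
    intro i hi
    exact hw.2 (mem_biUnion.2 ⟨i, mem_univ _, hi⟩)
  have hlow : (Fintype.card V : ℝ) - (g + 1) ≤ ∑ w, cnt p H X w := by
    calc (Fintype.card V : ℝ) - (g + 1) ≤ ((univ \ Exc).card : ℝ) := by
          have h1 : (univ \ Exc).card = Fintype.card V - Exc.card := by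
            rw [card_sdiff_of_subset (subset_univ _), card_univ]
          have h2 : Exc.card ≤ Fintype.card V := card_le_univ _
          rw [h1, Nat.cast_sub h2]
          have h3 : (Exc.card : ℝ) ≤ (g : ℝ) + 1 := by exact_mod_cast hExcard
          linarith
      _ = ∑ _w ∈ univ \ Exc, (1 : ℝ) := by simp
      _ ≤ ∑ w ∈ univ \ Exc, cnt p H X w := by
          apply sum_le_sum
          intro w hw
          rw [mem_sdiff] at hw
          exact hge w hw.2
      _ ≤ ∑ w, cnt p H X w :=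
          sum_le_sum_of_subset_of_nonneg (sdiff_subset)
            (fun w _ _ => S06_cnt_nonneg p hg hκ w)
  have hsum : ∀ q : Lab g κ × Lab g κ, ∑ w, ms H X q w ≤ a + (Fintype.card V : ℝ) / c := by
    intro q
    refine (sum_ms ha hcc q (hXne _) (hXne _)).trans ?_
    have h1 : (Fintype.card V : ℝ) / ((X q.2).card : ℝ) ≤ (Fintype.card V : ℝ) / c :=
      div_le_div_of_nonneg_left (Nat.cast_nonneg _) hc (hX _)
    linarith
  have hup : ∑ w, cnt p H X w ≤
      ((Fintype.card (Lab g κ) : ℝ) - 1 / p.lam) * (a + (Fintype.card V : ℝ) / c) := by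
    rw [← p.wt_total hg (by omega), add_mul, sum_mul, sum_mul]
    unfold cnt
    rw [sum_add_distrib]
    apply add_le_add
    · rw [sum_comm]
      apply sum_le_sum
      intro j _
      rw [← mul_sum]
      have := p.wt_half hg hκ j
      exact mul_le_mul_of_nonneg_left (hsum _) (by linarith)
    · rw [sum_comm]
      apply sum_le_sum
      intro i _
      rw [← mul_sum]
      have := p.Q1 i i.2
      exact mul_le_mul_of_nonneg_left (hsum _) (div_nonneg (by linarith) hlam.le)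
  linarith

end CT3
end
end

section

section

/-!
# The skeleton persists

The schedule: `sched t = can` unless `t = 2 + (i+1) N0`; `N0 ≥ 3` (`m ≥ 4` as `g ≥ 1`).
Induction on `t` from `2` to `TT`: at `t + 1` the permutation is `φ^(t+1-2) = φ * φ^(t-2)`; if `sched t = can` use `claim_can`
(and `-1 ≤ s`), if `sched t = rul i` then `t = 2 + (i+1) N0 ≤ TT - N0 ≤ TT - 3`, use `claim_rul`.
-/

set_option autoImplicit false

open Finset

namespace CT3

theorem N0_ge (g κ : ℕ) (hg : 1 ≤ g) : 3 ≤ N0 g κ := by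
  have h1 : 3 ≤ Fintype.card (Lab g κ) := by
    have h2 : ({Lab.D, Lab.A ⟨0, hg⟩, Lab.B 0} : Finset (Lab g κ)).card = 3 := by
      rw [Finset.card_insert_of_notMem, Finset.card_insert_of_notMem, Finset.card_singleton]
      · simp
      · simp
    rw [← h2]
    exact Finset.card_le_univ _
  exact h1.trans (Nat.self_le_factorial _)

theorem sched_rul (g κ : ℕ) (i : Fin g) : sched g κ (2 + ((i : ℕ) + 1) * N0 g κ) = rul g κ i := by
  have h : ∃ i' : Fin g, 2 + ((i : ℕ) + 1) * N0 g κ = 2 + ((i' : ℕ) + 1) * N0 g κ := ⟨i, rfl⟩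
  unfold sched
  rw [dif_pos h]
  have h1 := h.choose_spec
  have h2 : 0 < N0 g κ := Nat.factorial_pos _
  have h3 : ((i : ℕ) + 1) * N0 g κ = ((h.choose : ℕ) + 1) * N0 g κ := by omega
  have h4 := Nat.eq_of_mul_eq_mul_right h2 h3
  have h5 : h.choose = i := by
    apply Fin.ext
    omega
  rw [h5]

theorem sched_cases (g κ : ℕ) (t : ℕ) : sched g κ t = can (Lab g κ) ∨
    ∃ i : Fin g, t = 2 + ((i : ℕ) + 1) * N0 g κ ∧ sched g κ t = rul g κ i := by
  by_cases h : ∃ i : Fin g, t = 2 + ((i : ℕ) + 1) * N0 g κ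
  · obtain ⟨i, hi⟩ := h
    right
    refine ⟨i, hi, ?_⟩
    rw [hi]
    exact sched_rul g κ i
  · left
    unfold sched
    rw [dif_neg h]

theorem sched_can (g κ : ℕ) (t : ℕ) (ht : t ≤ 2 ∨ TT g κ ≤ t) (hg : 1 ≤ g) :
    sched g κ t = can (Lab g κ) := by
  have h2 : 0 < N0 g κ := Nat.factorial_pos _
  have h : ¬ ∃ i : Fin g, t = 2 + ((i : ℕ) + 1) * N0 g κ := by
    rintro ⟨i, hi⟩
    have h3 : (i : ℕ) < g := i.2
    have h4 : 0 < ((i : ℕ) + 1) * N0 g κ := Nat.mul_pos (Nat.succ_pos _) h2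
    have h5 : ((i : ℕ) + 1) * N0 g κ < (g + 1) * N0 g κ :=
      Nat.mul_lt_mul_of_pos_right (by omega) h2
    unfold TT at ht
    omega
  unfold sched
  rw [dif_neg h]

variable {V : Type} [Fintype V] [DecidableEq V] {H : Finset (Finset V)} {a s : ℝ} {g κ : ℕ}
  {C E : Lab g κ → Finset V} {φ : Equiv.Perm (Lab g κ)}

theorem claim_all (hg : 1 ≤ g) (hs : (Fintype.card (Lab g κ) : ℝ) * a = Fintype.card V + s)
    (hcc : ∀ x y, x ≠ y → ((CC H x y).card : ℝ) ≤ a) (hsk : Skel H C E φ a s)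
    (st : Lab g κ → V × V) (h2 : ∀ j, E j ⊆ fam g κ H st 2 j)
    (hW : ∀ t, t + 3 ≤ TT g κ → (WW H (sched g κ t) (fam g κ H st t)).card ≤ 1)
    (hbig : 5 * s + Fintype.card (Lab g κ) + 8 ≤ a) (hs1 : -1 ≤ s) :
    ∀ t, 2 ≤ t → t ≤ TT g κ → ∀ j, a - 4 * s - 5 ≤ ((fam g κ H st t j ∩ E ((φ ^ (t - 2)) j)).card : ℝ) := by
  intro t ht
  induction t, ht using Nat.le_induction with
  | base =>
    intro _ j
    have h3 : fam g κ H st 2 j ∩ E ((φ ^ (2 - 2)) j) = E j := by
      have h4 : (φ ^ (2 - 2)) j = j := by simp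
      rw [h4]
      exact Finset.inter_eq_right.2 (h2 j)
    rw [h3]
    have h4 := hsk.lowE j
    linarith
  | succ t ht ih =>
    intro hT j
    have ih' := ih (by omega)
    have h3 : (φ ^ (t + 1 - 2)) j = φ ((φ ^ (t - 2)) j) := by
      have h4 : t + 1 - 2 = (t - 2) + 1 := by omega
      rw [h4, pow_succ']
      rfl
    rw [h3]
    have h4 : fam g κ H st (t + 1) j = step H (sched g κ t) (fam g κ H st t) j := rfl
    rw [h4]
    rcases sched_cases g κ t with h5 | ⟨i, hi, h5⟩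
    · rw [h5]
      have h6 := claim_can hs hcc hsk (fam g κ H st t) (φ ^ (t - 2)) ih' hbig j
      linarith
    · have h6 : t + 3 ≤ TT g κ := by
        have h7 := N0_ge g κ hg
        have h8 : (i : ℕ) < g := i.2
        have h9 : ((i : ℕ) + 1) * N0 g κ ≤ g * N0 g κ := Nat.mul_le_mul_right _ (by omega)
        have h10 : (g + 1) * N0 g κ = g * N0 g κ + N0 g κ := by ring
        unfold TT
        omega
      have h7 := hW t h6
      rw [h5] at h7 ⊢
      exact claim_rul hs hcc hsk (fam g κ H st t) (φ ^ (t - 2)) ih' hbig hs1 i h7 j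

end CT3
end

section

/-!
# The 3-graph `F`

`Sent` is `∃ R, Root ..` and `R` is a tuple of `2 m` vertices; use `pp_Root` and `pp_sentence`
with `ι = Fin m × Bool`.
-/

set_option autoImplicit false

open Finset

namespace CT3

private theorem sent_iff (g κ : ℕ) (V : Type) [Fintype V] [DecidableEq V]
    (H : Finset (Finset V)) :
    Sent g κ H ↔ ∃ v : Fin (Fintype.card (Lab g κ)) × Bool → V,
      Root g κ H (Fintype.card (Lab g κ)) (Fintype.card (Lab g κ)) 0
        (fun j => (v (j, false), v (j, true))) := by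
  constructor
  · rintro ⟨R, hR⟩
    refine ⟨fun p => if p.2 then (R p.1).2 else (R p.1).1, ?_⟩
    simpa using hR
  · rintro ⟨v, hv⟩
    exact ⟨_, hv⟩

theorem exists_F (g κ : ℕ)
    (hex : ∃ (V : Type) (_ : Fintype V) (_ : DecidableEq V) (H : Finset (Finset V)),
      CT.Unif 3 H ∧ Sent g κ H) :
    ∃ (s : ℕ) (F : Finset (Finset (Fin s))), CT.Unif 3 F ∧
      ∀ (V : Type) [Fintype V] [DecidableEq V] (H : Finset (Finset V)), CT.Unif 3 H →
        (CT.HomTo F H ↔ Sent g κ H) := by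
  have hpp := pp_Root g κ (Fintype.card (Lab g κ)) (Fintype.card (Lab g κ)) 0
  obtain ⟨s, F, hF, hiff⟩ := pp_sentence hpp (by
    obtain ⟨V, i1, i2, H, hH, hS⟩ := hex
    obtain ⟨v, hv⟩ := (sent_iff g κ V H).1 hS
    exact ⟨V, i1, i2, H, v, hH, hv⟩)
  refine ⟨s, F, hF, ?_⟩
  intro V _ _ H hH
  rw [hiff V H hH, sent_iff]

end CT3
end

section

/-!
# The classes and the colourings

Let `C = card (FL g κ)`, `δ = ε / 2`, `n0` larger than the `n0` of `exists_col` for all `r = l.r c`, `c ≤ g` (with `δ`), and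
`δ n0 ≥ (g + 2) C`.  Take `χ` from `exists_classes`, `col_c` from `exists_col` with `S = {v | χ v = D c}`, `r = l.r c`, and
`col v x = col_c v x` if `χ v = D c` (anything otherwise).
`hD`: sum over `c`, `∑ z_c = 1`.  `hBB`: `e (1 - L_b) n + C + (1 - r_b)^2/κ (e z_b n + C) + δ n`, with `(1-r_b)^2/κ z_b = L_b`,
`(1-r_b)^2/κ ≤ 1`.  `hAB`: `e (1 - L_(i+1)) n + C + r_i (e z_i n + C) + δ n`, with `z_i r_i = L_(i+1)` (`next`), `r_i ≤ 1`.
`last`: `l.r g = 0`.
-/

set_option autoImplicit false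

open Finset

namespace CT3

variable {g κ : ℕ} {p : Par g κ}

/-- the colouring glued from the colourings of the classes -/
private def l05_col {n : ℕ} (χ : Fin n → FL g κ) (f : Fin (g + 1) → Fin n → Fin n → Fin (κ + 1)) :
    Fin n → Fin n → Fin (κ + 1) :=
  fun v x => match χ v with
    | FL.D c => f c v x
    | _ => 0

private theorem l05_col_D {n : ℕ} {χ : Fin n → FL g κ} {f : Fin (g + 1) → Fin n → Fin n → Fin (κ + 1)}
    {v : Fin n} {c : Fin (g + 1)} (h : χ v = FL.D c) (x : Fin n) : l05_col χ f v x = f c v x := by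
  simp only [l05_col, h]

theorem exists_LB (l : LPar p) (hg : 1 ≤ g) (hκ : 1 ≤ κ) (ε : ℝ) (hε : 0 < ε) :
    ∃ n0 : ℕ, ∀ n : ℕ, n0 ≤ n → ∃ (χ : Fin n → FL g κ) (col : Fin n → Fin n → Fin (κ + 1)),
      LB χ col ((p.e + ε) * n) := by
  have he := Par.e_pos (p := p) hg hκ
  have hδ : 0 < ε / 2 := by positivity
  choose N hN using fun c : Fin (g + 1) =>
    exists_col κ hκ (l.r c) (ε / 2) (l.r0 c) (l.r1 c) hδ
  set C : ℝ := (Fintype.card (FL g κ) : ℝ) with hC
  have hC0 : 0 ≤ C := by positivity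
  obtain ⟨n1, hn1⟩ := exists_nat_gt (((g : ℝ) + 2) * C / (ε / 2))
  refine ⟨max n1 (univ.sup N), fun n hn => ?_⟩
  have hnn1 : n1 ≤ n := (le_max_left _ _).trans hn
  have hnN : ∀ c, N c ≤ n := fun c =>
    (Finset.le_sup (f := N) (mem_univ c)).trans ((le_max_right _ _).trans hn)
  have hbig : ((g : ℝ) + 2) * C ≤ ε / 2 * n := by
    have h1 : ((g : ℝ) + 2) * C / (ε / 2) ≤ n := hn1.le.trans (by exact_mod_cast hnn1)
    rw [div_le_iff₀ hδ] at h1
    linarith
  have hg1 : (1 : ℝ) ≤ g := by exact_mod_cast hg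
  have hn0 : (0 : ℝ) ≤ n := Nat.cast_nonneg n
  have hgC : (0 : ℝ) ≤ (g : ℝ) * C := by positivity
  have hδn : (0 : ℝ) ≤ ε / 2 * n := by positivity
  have h2C : 2 * C ≤ ε / 2 * n := by nlinarith
  obtain ⟨χ, hχ⟩ := exists_classes l hg hκ n
  rw [← hC] at hχ
  choose f hf using fun c : Fin (g + 1) => hN c n (hnN c) (univ.filter (fun v => χ v = FL.D c))
  have hκ0 : (0 : ℝ) < κ := by exact_mod_cast hκ
  have hκ1 : (1 : ℝ) ≤ κ := by exact_mod_cast hκ
  refine ⟨χ, l05_col χ f, ⟨?_, ?_, ?_, ?_, ?_, ?_, ?_⟩⟩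
  · -- hD
    have h1 : univ.filter (fun w => (χ w).lab = Lab.D) ⊆
        univ.biUnion (fun c : Fin (g + 1) => univ.filter (fun w => χ w = FL.D c)) := by
      intro w hw
      simp only [mem_filter, mem_univ, true_and] at hw
      simp only [mem_biUnion, mem_filter, mem_univ, true_and]
      cases hw' : χ w with
      | D c => exact ⟨c, rfl⟩
      | A i => rw [hw'] at hw; simp [FL.lab] at hw
      | B i => rw [hw'] at hw; simp [FL.lab] at hw
      | E i => rw [hw'] at hw; simp [FL.lab] at hw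
    have h2 : ((univ.filter (fun w => (χ w).lab = Lab.D)).card : ℝ) ≤
        ∑ c : Fin (g + 1), ((univ.filter (fun w => χ w = FL.D c)).card : ℝ) := by
      exact_mod_cast (card_le_card h1).trans card_biUnion_le
    have h3 : ∑ c : Fin (g + 1), ((univ.filter (fun w => χ w = FL.D c)).card : ℝ) ≤
        ∑ c : Fin (g + 1), (p.e * l.z c * n + C) := sum_le_sum (fun c _ => hχ (FL.D c))
    have h4 : ∑ c : Fin (g + 1), (p.e * l.z c * n + C) = p.e * n + ((g : ℝ) + 1) * C := by
      rw [sum_add_distrib, ← Finset.sum_mul, ← Finset.mul_sum,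
        Fin.sum_univ_eq_sum_range (fun b => l.z b) (g + 1), l.zsum]
      simp
    rw [h4] at h3
    nlinarith
  · intro i
    have h1 := hχ (FL.A i)
    simp only [fw] at h1
    nlinarith
  · intro b
    have h1 := hχ (FL.B b)
    simp only [fw] at h1
    have h2 := LPar.L_nonneg l b
    have h3 : 0 ≤ p.e * l.L b * n := by positivity
    nlinarith
  · intro i
    have h1 := hχ (FL.E i)
    simp only [fw] at h1
    nlinarith
  · intro b x y hxy
    have h1 := hχ (FL.B b)
    simp only [fw] at h1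
    have h2 := hχ (FL.D b)
    simp only [fw] at h2
    have h3 := (hf b).1 x y hxy
    have h4 : univ.filter (fun w => χ w = FL.D b ∧ l05_col χ f w x = l05_col χ f w y ∧
        l05_col χ f w x ≠ 0) = (univ.filter (fun v => χ v = FL.D b)).filter
        (fun v => f b v x = f b v y ∧ f b v x ≠ 0) := by
      ext w
      simp only [mem_filter, mem_univ, true_and]
      constructor
      · rintro ⟨hw, h5, h6⟩
        rw [l05_col_D hw, l05_col_D hw] at h5
        rw [l05_col_D hw] at h6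
        exact ⟨hw, h5, h6⟩
      · rintro ⟨hw, h5, h6⟩
        rw [l05_col_D hw, l05_col_D hw]
        exact ⟨hw, h5, h6⟩
    rw [h4]
    have hq0 : 0 ≤ (1 - l.r b) ^ 2 / κ := by positivity
    have hq1 : (1 - l.r b) ^ 2 / κ ≤ 1 := by
      rw [div_le_one hκ0]
      have h5 := l.r0 b
      have h6 := l.r1 b
      nlinarith
    have h7 : (1 - l.r b) ^ 2 / κ * ((univ.filter (fun v => χ v = FL.D b)).card : ℝ) ≤
        (1 - l.r b) ^ 2 / κ * (p.e * l.z b * n + C) := mul_le_mul_of_nonneg_left h2 hq0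
    have h8 : (1 - l.r b) ^ 2 / κ * (p.e * l.z b * n + C) =
        p.e * l.L b * n + (1 - l.r b) ^ 2 / κ * C := by
      rw [LPar.L]; ring
    have h9 : (1 - l.r b) ^ 2 / κ * C ≤ 1 * C := mul_le_mul_of_nonneg_right hq1 hC0
    nlinarith
  · intro i x
    have h1 := hχ (FL.B i.succ)
    simp only [fw] at h1
    have h2 := hχ (FL.D i.castSucc)
    simp only [fw] at h2
    have h3 := (hf i.castSucc).2.1 x
    have h4 : univ.filter (fun w => χ w = FL.D i.castSucc ∧ l05_col χ f w x = 0) =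
        (univ.filter (fun v => χ v = FL.D i.castSucc)).filter
        (fun v => f i.castSucc v x = 0) := by
      ext w
      simp only [mem_filter, mem_univ, true_and]
      constructor
      · rintro ⟨hw, h5⟩
        rw [l05_col_D hw] at h5
        exact ⟨hw, h5⟩
      · rintro ⟨hw, h5⟩
        rw [l05_col_D hw]
        exact ⟨hw, h5⟩
    rw [h4]
    have hc : ((i.castSucc : Fin (g + 1)) : ℕ) = (i : ℕ) := by simp
    have hs : ((i.succ : Fin (g + 1)) : ℕ) = (i : ℕ) + 1 := by simp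
    rw [hc] at h2 h3
    rw [hs] at h1
    have hnext : l.z i * l.r i = l.L ((i : ℕ) + 1) := by
      rw [LPar.L]; exact l.next i i.2
    have h7 : l.r i * ((univ.filter (fun v => χ v = FL.D i.castSucc)).card : ℝ) ≤
        l.r i * (p.e * l.z i * n + C) := mul_le_mul_of_nonneg_left h2 (l.r0 i)
    have h8 : l.r i * (p.e * l.z i * n + C) = p.e * l.L ((i : ℕ) + 1) * n + l.r i * C := by
      rw [← hnext]; ring
    have h9 : l.r i * C ≤ 1 * C := mul_le_mul_of_nonneg_right (l.r1 i) hC0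
    nlinarith
  · intro v x hv
    rw [l05_col_D hv]
    have h1 : l.r ((Fin.last g : Fin (g + 1)) : ℕ) = 0 := by
      rw [Fin.val_last]; exact l.rg
    exact (hf (Fin.last g)).2.2 h1 v x

end CT3
end

section

/-!
# The dynamic part of the upper bound (paper, section 5)

Suppose `¬ Gad`.  If `|WW| ≥ 2` at some time `t ≤ TT - 3` then (`collapse`) all sets are `univ` at the times `TT`, `TT + 1`
and `Cond_univ` gives `Gad`.  So `|WW| ≤ 1` for all `t + 3 ≤ TT`.  `exists_skel` for `X = fam 0`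
(`sched 0 = sched 1 = sched 2 = can`, `fam 1 = step H can (fam 0)` etc., `TT ≥ 2 + 2 N0`), `-1 ≤ s` from `slack_ge`;
`claim_all`.  Put `X l = ⋂_{k < g+2} fam (2 + k N0) l`.  `φ ^ (k N0) = 1` (`N0 = card (Perm (Lab g κ))`), so
`|E l \ fam (2 + k N0) l| ≤ a - (a - 4 s - 5)` and `|X l| ≥ (a - s - 1) - (g + 2)(4 s + 5)`.
`WW_mono`, `step_mono` and monotonicity of `Cond` give the remaining claims (`k = 0`: `can`; `k = i + 1`: `rul i`;
`k = g + 1`: time `TT`).
-/

set_option autoImplicit false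

open Finset

namespace CT3

variable {V : Type} [Fintype V] [DecidableEq V] {H : Finset (Finset V)} {a s : ℝ} {g κ : ℕ}

theorem Cond_mono {X X' : Lab g κ → Finset V} (h : ∀ l, X l ⊆ X' l) {v : V} (hc : Cond g κ H X v) :
    Cond g κ H X' v := by
  intro b
  obtain ⟨x, h1, h2, h3⟩ := hc b
  refine ⟨x, fun i => h _ (h1 i), h2, ?_⟩
  intro b' hb i
  obtain ⟨a, ha, hH⟩ := h3 b' hb i
  exact ⟨a, h _ ha, hH⟩

theorem no_collapse (hg : 1 ≤ g) (hU : CT.Unif 3 H) (ha0 : 0 ≤ a)
    (hcc : ∀ x y, x ≠ y → ((CC H x y).card : ℝ) ≤ a)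
    (ha2 : 2 * a + 2 < Fintype.card V) (hak : ((κ : ℝ) + 1) * a + 2 < Fintype.card V)
    (st : Lab g κ → V × V) (hno : ¬ Gad g κ H st) (t : ℕ) (ht : t + 3 ≤ TT g κ) :
    (WW H (sched g κ t) (fam g κ H st t)).card ≤ 1 := by
  by_contra hcon
  have hW : 2 ≤ (WW H (sched g κ t) (fam g κ H st t)).card := by omega
  have h1 := collapse hU hcc ha2 st t hW (TT g κ) ht
  have h2 := collapse hU hcc ha2 st t hW (TT g κ + 1) (by omega)
  have h3 : 0 < Fintype.card V := by
    have : (0 : ℝ) < Fintype.card V := by linarith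
    exact_mod_cast this
  obtain ⟨v⟩ := Fintype.card_pos_iff.1 h3
  apply hno
  refine ⟨v, ?_, ?_⟩
  · rw [h2]
    exact mem_univ _
  · exact Cond_univ hU ha0 hcc hak _ h1 v

end CT3
end

section

/-!
# The lower bound

`BW_card`: all cases of `L07` (`BW_symm`).  `HH_minCo`: `S = {x, y}`; a vertex outside `CT.nb (HH χ col) S` is `x`, `y` or in `BW χ col x y`
(`{w, x, y} = {x', y', z'}` means that `x', y', z'` is one of the six orders).
`lower`: `exists_LB` with `ε / 2` and `ε n / 2 ≥ 2`.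
-/

set_option autoImplicit false

open Finset

namespace CT3

variable {g κ : ℕ}

theorem BW_card {V : Type} [Fintype V] [DecidableEq V] {χ : V → FL g κ} {col : V → V → Fin (κ + 1)} {a : ℝ}
    (ha : 0 ≤ a) (h : LB χ col a) {x y : V} (hxy : x ≠ y) : ((BW χ col x y).card : ℝ) ≤ a := by
  rcases hx : χ x with c | i | b | i
  · exact BW_D ha h hx
  · rcases hy : χ y with c' | j | b' | j
    · rw [BW_symm]
      exact BW_D ha h hy
    · exact BW_AA ha h hx hy
    · exact BW_AB ha h hx hy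
    · rw [BW_symm]
      exact BW_E ha h hy
  · rcases hy : χ y with c' | j | b' | j
    · rw [BW_symm]
      exact BW_D ha h hy
    · rw [BW_symm]
      exact BW_AB ha h hy hx
    · exact BW_BB ha h hxy hx hy
    · rw [BW_symm]
      exact BW_E ha h hy
  · exact BW_E ha h hx

private theorem l08_six {V : Type} [DecidableEq V] {w x y x' y' z' : V} (h1 : w ≠ x) (h2 : w ≠ y)
    (h3 : x ≠ y) (h : ({w, x, y} : Finset V) = {x', y', z'}) :
    (x' = x ∧ y' = y ∧ z' = w) ∨ (x' = x ∧ y' = w ∧ z' = y) ∨ (x' = y ∧ y' = x ∧ z' = w) ∨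
    (x' = y ∧ y' = w ∧ z' = x) ∨ (x' = w ∧ y' = x ∧ z' = y) ∨ (x' = w ∧ y' = y ∧ z' = x) := by
  have hc : ({x', y', z'} : Finset V).card = 3 := by
    rw [← h]
    exact Finset.card_eq_three.2 ⟨w, x, y, h1, h2, h3, rfl⟩
  have hxy : x' ≠ y' := by
    rintro rfl
    rw [Finset.insert_eq_of_mem (Finset.mem_insert_self _ _)] at hc
    have := Finset.card_le_two (a := x') (b := z')
    omega
  have hxz : x' ≠ z' := by
    rintro rfl
    rw [Finset.insert_eq_of_mem (by simp)] at hc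
    have := Finset.card_le_two (a := y') (b := x')
    omega
  have hyz : y' ≠ z' := by
    rintro rfl
    rw [Finset.insert_eq_of_mem (Finset.mem_singleton_self _)] at hc
    have := Finset.card_le_two (a := x') (b := y')
    omega
  have m1 : x' ∈ ({w, x, y} : Finset V) := by rw [h]; simp
  have m2 : y' ∈ ({w, x, y} : Finset V) := by rw [h]; simp
  have m3 : z' ∈ ({w, x, y} : Finset V) := by rw [h]; simp
  simp only [Finset.mem_insert, Finset.mem_singleton] at m1 m2 m3
  rcases m1 with rfl | rfl | rfl <;> rcases m2 with rfl | rfl | rfl <;>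
    rcases m3 with rfl | rfl | rfl <;>
    (first | exact absurd rfl hxy | exact absurd rfl hxz | exact absurd rfl hyz | tauto)

theorem HH_minCo {V : Type} [Fintype V] [DecidableEq V] {χ : V → FL g κ} {col : V → V → Fin (κ + 1)} {a : ℝ}
    (ha : 0 ≤ a) (h : LB χ col a) : CT.MinCo 2 (HH χ col) ((Fintype.card V : ℝ) - a - 2) := by
  classical
  intro S hS
  obtain ⟨x, y, hxy, rfl⟩ := Finset.card_eq_two.1 hS
  have hsub : (Finset.univ : Finset V) ⊆
      CT.nb (HH χ col) {x, y} ∪ (({x, y} : Finset V) ∪ BW χ col x y) := by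
    intro w _
    by_cases h1 : w ∈ ({x, y} : Finset V)
    · exact Finset.mem_union_right _ (Finset.mem_union_left _ h1)
    by_cases h2 : w ∈ BW χ col x y
    · exact Finset.mem_union_right _ (Finset.mem_union_right _ h2)
    apply Finset.mem_union_left
    have hwx : w ≠ x := fun h0 => h1 (by rw [h0]; simp)
    have hwy : w ≠ y := fun h0 => h1 (by rw [h0]; simp)
    unfold CT.nb
    rw [Finset.mem_filter]
    refine ⟨Finset.mem_univ _, h1, ?_⟩
    unfold HH
    rw [Finset.mem_filter, Finset.mem_powersetCard]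
    refine ⟨⟨Finset.subset_univ _, ?_⟩, ?_⟩
    · exact Finset.card_eq_three.2 ⟨w, x, y, hwx, hwy, hxy, rfl⟩
    · intro x' y' z' he hb
      apply h2
      unfold BW
      rw [Finset.mem_filter]
      refine ⟨Finset.mem_univ _, ?_⟩
      rcases l08_six hwx hwy hxy he with ⟨rfl, rfl, rfl⟩ | ⟨rfl, rfl, rfl⟩ | ⟨rfl, rfl, rfl⟩ |
        ⟨rfl, rfl, rfl⟩ | ⟨rfl, rfl, rfl⟩ | ⟨rfl, rfl, rfl⟩
      · exact Or.inl hb
      · exact Or.inr (Or.inl hb)
      · exact Or.inr (Or.inr (Or.inl hb))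
      · exact Or.inr (Or.inr (Or.inr (Or.inl hb)))
      · exact Or.inr (Or.inr (Or.inr (Or.inr (Or.inl hb))))
      · exact Or.inr (Or.inr (Or.inr (Or.inr (Or.inr hb))))
  have hc1 : Fintype.card V ≤ (CT.nb (HH χ col) {x, y}).card + (2 + (BW χ col x y).card) := by
    rw [← Finset.card_univ]
    refine (Finset.card_le_card hsub).trans ((Finset.card_union_le _ _).trans ?_)
    refine Nat.add_le_add_left ((Finset.card_union_le _ _).trans ?_) _
    exact Nat.add_le_add_right Finset.card_le_two _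
  have hc2 : (Fintype.card V : ℝ) ≤ ((CT.nb (HH χ col) {x, y}).card : ℝ) +
      (2 + ((BW χ col x y).card : ℝ)) := by exact_mod_cast hc1
  have hc3 := BW_card ha h hxy
  linarith

theorem lower {p : Par g κ} (l : LPar p) (hg : 1 ≤ g) (hκ : 1 ≤ κ) (ε : ℝ) (hε : 0 < ε) :
    ∃ n0 : ℕ, ∀ n : ℕ, n0 ≤ n → ∃ H : Finset (Finset (Fin n)),
      CT.Unif 3 H ∧ CT.MinCo 2 H ((1 - p.e - ε) * n) ∧ Good3 g κ H := by
  have he := Par.e_pos (p := p) hg hκ
  obtain ⟨n0, hn0⟩ := exists_LB l hg hκ (ε / 2) (by positivity)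
  obtain ⟨n1, hn1⟩ := exists_nat_gt (2 / (ε / 2))
  refine ⟨max n0 n1, fun n hn => ?_⟩
  obtain ⟨χ, col, hL⟩ := hn0 n ((le_max_left _ _).trans hn)
  have hn1' : (n1 : ℝ) ≤ n := by exact_mod_cast (le_max_right _ _).trans hn
  have hbig : 2 ≤ ε / 2 * n := by
    have h1 : 2 / (ε / 2) ≤ n := hn1.le.trans hn1'
    rw [div_le_iff₀ (by positivity)] at h1
    linarith
  have ha : 0 ≤ (p.e + ε / 2) * n := by positivity
  refine ⟨HH χ col, HH_unif χ col, ?_, HH_good χ col hL.last⟩
  intro S hS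
  have h1 := HH_minCo ha hL S hS
  rw [Fintype.card_fin] at h1
  nlinarith

end CT3
end

section

/-!
# The dynamic part of the upper bound, end

See the docstring of `Y10` and the paper, section 5.
-/

set_option autoImplicit false

open Finset

namespace CT3

variable {V : Type} [Fintype V] [DecidableEq V] {H : Finset (Finset V)} {a s : ℝ} {g κ : ℕ}

private theorem pow_N0 (φ : Equiv.Perm (Lab g κ)) (k : ℕ) : φ ^ (k * N0 g κ) = 1 := by
  have h1 : φ ^ N0 g κ = 1 := by
    unfold N0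
    rw [← Fintype.card_perm]
    exact pow_card_eq_one
  rw [mul_comm, pow_mul, h1, one_pow]

theorem dyn (hg : 1 ≤ g) (hU : CT.Unif 3 H) (ha0 : 0 ≤ a)
    (hs : (Fintype.card (Lab g κ) : ℝ) * a = Fintype.card V + s)
    (hcc : ∀ x y, x ≠ y → ((CC H x y).card : ℝ) ≤ a)
    (ha2 : 2 * a + 2 < Fintype.card V) (hak : ((κ : ℝ) + 1) * a + 2 < Fintype.card V)
    (hbig : 5 * s + Fintype.card (Lab g κ) + 30 ≤ a)
    (hbig2 : a / 4 ≤ (a - s - 1) - ((g : ℝ) + 2) * (4 * s + 5))
    (hbig3 : (Fintype.card (Lab g κ) : ℝ) + 30 ≤ a)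
    (st : Lab g κ → V × V) (hst : ∀ l, (st l).1 ≠ (st l).2) (hno : ¬ Gad g κ H st) :
    ∃ X : Lab g κ → Finset V, (∀ l, a / 4 ≤ ((X l).card : ℝ)) ∧
      (WW H (can (Lab g κ)) X).card ≤ 1 ∧ (∀ i : Fin g, (WW H (rul g κ i) X).card ≤ 1) ∧
      ∀ v ∈ step H (can (Lab g κ)) X Lab.D, ¬ Cond g κ H X v := by
  have hN := N0_ge g κ hg
  have hTT : TT g κ = 2 + (g + 1) * N0 g κ := rfl
  have hT8 : 8 ≤ TT g κ := by
    rw [hTT]
    have : 2 * 3 ≤ (g + 1) * N0 g κ := Nat.mul_le_mul (by omega) hN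
    omega
  have hW : ∀ t, t + 3 ≤ TT g κ → (WW H (sched g κ t) (fam g κ H st t)).card ≤ 1 :=
    fun t ht => no_collapse hg hU ha0 hcc ha2 hak st hno t ht
  have hc0 : sched g κ 0 = can (Lab g κ) := sched_can g κ 0 (Or.inl (by omega)) hg
  have hc1 : sched g κ 1 = can (Lab g κ) := sched_can g κ 1 (Or.inl (by omega)) hg
  have hc2 : sched g κ 2 = can (Lab g κ) := sched_can g κ 2 (Or.inl (by omega)) hg
  have hcT : sched g κ (TT g κ) = can (Lab g κ) := sched_can g κ _ (Or.inr le_rfl) hg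
  have hf1 : fam g κ H st 1 = step H (can (Lab g κ)) (fam g κ H st 0) := by
    funext l
    change step H (sched g κ 0) (fam g κ H st 0) l = _
    rw [hc0]
  have hf2 : fam g κ H st 2 = step H (can (Lab g κ)) (fam g κ H st 1) := by
    funext l
    change step H (sched g κ 1) (fam g κ H st 1) l = _
    rw [hc1]
  have hfT : fam g κ H st (TT g κ + 1) = step H (can (Lab g κ)) (fam g κ H st (TT g κ)) := by
    funext l
    change step H (sched g κ (TT g κ)) (fam g κ H st (TT g κ)) l = _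
    rw [hcT]
  have hX0 : ∀ l, ∃ x ∈ fam g κ H st 0 l, ∃ y ∈ fam g κ H st 0 l, x ≠ y := by
    intro l
    exact ⟨(st l).1, by simp [fam], (st l).2, by simp [fam], hst l⟩
  have hW0 : (WW H (can (Lab g κ)) (fam g κ H st 0)).card ≤ 1 := by
    have := hW 0 (by omega)
    rwa [hc0] at this
  have hW1 : (WW H (can (Lab g κ)) (fam g κ H st 1)).card ≤ 1 := by
    have := hW 1 (by omega)
    rwa [hc1] at this
  have hW2 : (WW H (can (Lab g κ)) (fam g κ H st 2)).card ≤ 1 := by
    have := hW 2 (by omega)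
    rwa [hc2] at this
  have hs1 : -1 ≤ s := by
    have h1 := slack_ge (H := H) (a := a) (X := fam g κ H st 0) (ρ := can (Lab g κ))
      (fun j => by
        obtain ⟨x, hx, y, hy, hxy⟩ := hX0 j
        exact card_core_le hcc (X := fam g κ H st 0) (p := can (Lab g κ) j) hx hy hxy) hW0
    linarith
  obtain ⟨φ, hsk⟩ := exists_skel (H := H) (a := a) (s := s) hs hcc (fam g κ H st 0) hX0 hW0
    (by rw [← hf1]; exact hW1) (by rw [← hf1, ← hf2]; exact hW2) hs1 (by linarith)
  rw [← hf1, ← hf2] at hsk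
  set E : Lab g κ → Finset V :=
    fun i => fam g κ H st 2 i \ WW H (can (Lab g κ)) (fam g κ H st 1) with hE
  have hall := claim_all hg hs hcc hsk st (fun j => sdiff_subset) hW (by linarith) hs1
  -- the persistent part
  have hT : ∀ k, k < g + 2 → 2 + k * N0 g κ ≤ TT g κ := by
    intro k hk
    rw [hTT]
    have : k * N0 g κ ≤ (g + 1) * N0 g κ := Nat.mul_le_mul_right _ (by omega)
    omega
  have hk : ∀ k, k < g + 2 → ∀ l, a - 4 * s - 5 ≤
      ((fam g κ H st (2 + k * N0 g κ) l ∩ E l).card : ℝ) := by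
    intro k hk l
    have h1 := hall (2 + k * N0 g κ) (by omega) (hT k hk) l
    rw [Nat.add_sub_cancel_left, pow_N0] at h1
    exact h1
  refine ⟨fun l => univ.filter (fun v => ∀ k ∈ range (g + 2), v ∈ fam g κ H st (2 + k * N0 g κ) l),
    ?_, ?_, ?_, ?_⟩
  · intro l
    have h1 : E l ⊆ (univ.filter
        (fun v => ∀ k ∈ range (g + 2), v ∈ fam g κ H st (2 + k * N0 g κ) l)) ∪
        (range (g + 2)).biUnion (fun k => E l \ fam g κ H st (2 + k * N0 g κ) l) := by
      intro v hv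
      by_cases h : ∀ k ∈ range (g + 2), v ∈ fam g κ H st (2 + k * N0 g κ) l
      · exact mem_union_left _ (mem_filter.2 ⟨mem_univ _, h⟩)
      · push Not at h
        obtain ⟨k, hk1, hk2⟩ := h
        exact mem_union_right _ (mem_biUnion.2 ⟨k, hk1, mem_sdiff.2 ⟨hv, hk2⟩⟩)
    have h2 : ((E l).card : ℝ) ≤ ((univ.filter
        (fun v => ∀ k ∈ range (g + 2), v ∈ fam g κ H st (2 + k * N0 g κ) l)).card : ℝ) +
        ∑ k ∈ range (g + 2), ((E l \ fam g κ H st (2 + k * N0 g κ) l).card : ℝ) := by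
      exact_mod_cast (card_le_card h1).trans ((card_union_le _ _).trans
        (Nat.add_le_add_left card_biUnion_le _))
    have h3 : ∀ k ∈ range (g + 2), ((E l \ fam g κ H st (2 + k * N0 g κ) l).card : ℝ)
        ≤ 4 * s + 5 := by
      intro k hk'
      have h4 := hk k (mem_range.1 hk') l
      have h5 : (E l \ fam g κ H st (2 + k * N0 g κ) l).card +
          (fam g κ H st (2 + k * N0 g κ) l ∩ E l).card = (E l).card := by
        rw [inter_comm]
        exact card_sdiff_add_card_inter _ _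
      have h6 : ((E l \ fam g κ H st (2 + k * N0 g κ) l).card : ℝ) +
          ((fam g κ H st (2 + k * N0 g κ) l ∩ E l).card : ℝ) = ((E l).card : ℝ) := by
        exact_mod_cast h5
      have h7 := hsk.upE l
      linarith
    have h8 := sum_le_sum h3
    rw [sum_const, card_range, nsmul_eq_mul] at h8
    push_cast at h8
    have h9 := hsk.lowE l
    linarith
  · refine le_trans (card_le_card (WW_mono (X' := fam g κ H st 2) ?_ _)) hW2
    intro l v hv
    have := (mem_filter.1 hv).2 0 (mem_range.2 (by omega))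
    rwa [zero_mul, add_zero] at this
  · intro i
    have hi : (i : ℕ) < g := i.2
    have h1 := hW (2 + ((i : ℕ) + 1) * N0 g κ) (by
      rw [hTT]
      have h2 : ((i : ℕ) + 1 + 1) * N0 g κ ≤ (g + 1) * N0 g κ :=
        Nat.mul_le_mul_right _ (by omega)
      have h3 : ((i : ℕ) + 1 + 1) * N0 g κ = ((i : ℕ) + 1) * N0 g κ + N0 g κ := by ring
      omega)
    rw [sched_rul] at h1
    refine le_trans (card_le_card (WW_mono
      (X' := fam g κ H st (2 + ((i : ℕ) + 1) * N0 g κ)) ?_ _)) h1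
    intro l v hv
    exact (mem_filter.1 hv).2 _ (mem_range.2 (by omega))
  · intro v hv hcond
    have hsub : ∀ l, (univ.filter
        (fun v => ∀ k ∈ range (g + 2), v ∈ fam g κ H st (2 + k * N0 g κ) l)) ⊆
        fam g κ H st (TT g κ) l := by
      intro l w hw
      have := (mem_filter.1 hw).2 (g + 1) (mem_range.2 (by omega))
      rwa [← hTT] at this
    apply hno
    refine ⟨v, ?_, Cond_mono hsub hcond⟩
    rw [hfT]
    exact step_mono hsub _ _ hv

end CT3
end

section

/-!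
# The degree of the codegree density

Compare `CT.padic_main` (file `MP_63f67f_co/D20.lean`) for the passage to `PadicAlgCl`.

`exists_K`: let `K = algebraicClosure ℚ ℝ` (real algebraic numbers).  `lam ∈ K` (`lam_alg`); downward recursion: `P g = κ`,
`Q b = lam - P (b+1)`, `P b = κ Q b ^2 / (4 (Q b - 1))` are in `K` for `b ≤ g` (`b < g` for `Q`).
`omega_K`: `γ = 1 - e`, `e = 1/(m - 1/lam)`: `lam = 1/(m - 1/(1 - γ))`, `Q (g-1) = lam - κ`, `ω = 2 / (2 / Q (g-1) - 1)` is a rational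
function of `γ`; apply `σ : K →ₐ[ℚ] PadicAlgCl 2` (`IsAlgClosed.lift`), the relations are preserved, `r_last` gives `‖σ ω‖ ^ (2^g) = 1/2`
(`κ` odd: `CT.norm_nat_coprime` with `CT.norm_p_algCl 2`).  `σ ω ∈ L = ℚ_[2](σ γ)`; `CT.ram_le`, `CT.finrank_le_natDegree`.
-/

set_option autoImplicit false

namespace CT3

private theorem n05_alg {g κ : ℕ} (p : Par g κ) (k : ℕ) (hk : k ≤ g) :
    p.P (g - k) ∈ algebraicClosure ℚ ℝ := by
  have hlam : p.lam ∈ algebraicClosure ℚ ℝ := mem_algebraicClosure_iff.2 (lam_alg p)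
  induction k with
  | zero =>
    rw [Nat.sub_zero, p.Pg]
    exact natCast_mem _ _
  | succ k ih =>
    have h1 := ih (by omega)
    obtain ⟨b, hb⟩ : ∃ b, b = g - (k + 1) := ⟨_, rfl⟩
    have hb1 : b < g := by omega
    have hb2 : g - k = b + 1 := by omega
    rw [hb2] at h1
    rw [← hb]
    have hQ : p.Q b ∈ algebraicClosure ℚ ℝ := by
      have h2 : p.Q b = p.lam - p.P (b + 1) := by
        rw [p.Ps b hb1]
        ring
      rw [h2]
      exact sub_mem hlam h1
    have h3 : p.P b = (κ : ℝ) * p.Q b ^ 2 / (4 * (p.Q b - 1)) := by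
      have h4 := p.rel b hb1
      have h5 := p.Q1 b hb1
      have h6 : (4 * (p.Q b - 1)) ≠ 0 := by
        intro h
        linarith
      rw [eq_div_iff h6, h4]
      ring
    rw [h3]
    exact div_mem (mul_mem (natCast_mem _ _) (pow_mem hQ 2))
      (mul_mem (ofNat_mem _ 4) (sub_mem hQ (one_mem _)))

theorem exists_K {g κ : ℕ} (p : Par g κ) (hκ : 1 ≤ κ) : ∃ P Q : ℕ → algebraicClosure ℚ ℝ,
    (∀ b, b ≤ g → ((P b : algebraicClosure ℚ ℝ) : ℝ) = p.P b) ∧
    (∀ b, b < g → ((Q b : algebraicClosure ℚ ℝ) : ℝ) = p.Q b) := by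
  have hlam : p.lam ∈ algebraicClosure ℚ ℝ := mem_algebraicClosure_iff.2 (lam_alg p)
  have hP : ∀ b, b ≤ g → p.P b ∈ algebraicClosure ℚ ℝ := by
    intro b hb
    have h := n05_alg p (g - b) (by omega)
    rwa [Nat.sub_sub_self hb] at h
  have hQ : ∀ b, b < g → p.Q b ∈ algebraicClosure ℚ ℝ := by
    intro b hb
    have h2 : p.Q b = p.lam - p.P (b + 1) := by
      rw [p.Ps b hb]
      ring
    rw [h2]
    exact sub_mem hlam (hP (b + 1) (by omega))
  refine ⟨fun b => if hb : b ≤ g then ⟨p.P b, hP b hb⟩ else 0,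
    fun b => if hb : b < g then ⟨p.Q b, hQ b hb⟩ else 0, ?_, ?_⟩
  · intro b hb
    simp only [dif_pos hb]
  · intro b hb
    simp only [dif_pos hb]

theorem deg_main {g κ : ℕ} (p : Par g κ) (hg : 1 ≤ g) (hκ : Odd κ) (h3 : 3 ≤ κ) :
    IsAlgebraic ℚ (1 - p.e) ∧ 2 ^ g ≤ (minpoly ℚ (1 - p.e)).natDegree := by
  have hκ1 : 1 ≤ κ := by omega
  obtain ⟨P, Q, hP, hQ⟩ := exists_K p hκ1
  let f : algebraicClosure ℚ ℝ →+* ℝ := algebraMap (algebraicClosure ℚ ℝ) ℝ
  have hf : Function.Injective f := (algebraMap (algebraicClosure ℚ ℝ) ℝ).injective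
  have hPf : ∀ b, b ≤ g → f (P b) = p.P b := hP
  have hQf : ∀ b, b < g → f (Q b) = p.Q b := hQ
  have hlam : p.lam ∈ algebraicClosure ℚ ℝ := mem_algebraicClosure_iff.2 (lam_alg p)
  let lamK : algebraicClosure ℚ ℝ := ⟨p.lam, hlam⟩
  have hlamf : f lamK = p.lam := rfl
  -- relations
  have R0 : P 0 = lamK := by
    apply hf
    rw [hPf 0 (Nat.zero_le _), hlamf, p.P0]
  have Rs : ∀ b, b < g → P (b + 1) = lamK - Q b := by
    intro b hb
    apply hf
    rw [map_sub, hPf (b + 1) (by omega), hQf b hb, hlamf, p.Ps b hb]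
  have Rr : ∀ b, b < g → (κ : algebraicClosure ℚ ℝ) * Q b ^ 2 = 4 * P b * (Q b - 1) := by
    intro b hb
    apply hf
    rw [map_mul, map_pow, map_mul, map_mul, map_sub, map_natCast, map_one, map_ofNat, hPf b hb.le, hQf b hb,
      p.rel b hb]
  have Rg : P g = (κ : algebraicClosure ℚ ℝ) := by
    apply hf
    rw [hPf g le_rfl, map_natCast, p.Pg]
  -- gamma
  let m : ℕ := Fintype.card (Lab g κ)
  let γ : algebraicClosure ℚ ℝ := 1 - 1 / ((m : algebraicClosure ℚ ℝ) - 1 / lamK)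
  have hγf : f γ = 1 - p.e := by
    simp only [γ]
    rw [map_sub, map_one, map_div₀, map_sub, map_div₀, map_one, map_natCast, hlamf]
    rfl
  have hγ : (γ : ℝ) = 1 - p.e := hγf
  rw [← hγ]
  refine ⟨mem_algebraicClosure_iff.1 γ.2, ?_⟩
  have hlamγ : lamK = 1 / ((m : algebraicClosure ℚ ℝ) - 1 / (1 - γ)) := by
    simp only [γ]
    rw [sub_sub_cancel, one_div_one_div, sub_sub_cancel, one_div_one_div]
  -- the embedding
  have : Algebra.IsAlgebraic ℚ (algebraicClosure ℚ ℝ) := by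
    refine ⟨fun x => ?_⟩
    obtain ⟨q, hq, hx⟩ := mem_algebraicClosure_iff.1 x.2
    refine ⟨q, hq, ?_⟩
    have h1 : f (Polynomial.aeval x q) = Polynomial.aeval (x : ℝ) q := by
      rw [Polynomial.aeval_def, Polynomial.aeval_def, Polynomial.hom_eval₂]
      congr 1
    rw [hx] at h1
    exact hf (by rw [h1, map_zero])
  let σ : algebraicClosure ℚ ℝ →ₐ[ℚ] PadicAlgCl 2 := IsAlgClosed.lift
  have hn2 := CT.norm_p_algCl 2
  have h2 : ‖(2 : PadicAlgCl 2)‖ = 1 / 2 := by
    have h := hn2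
    rw [Nat.cast_ofNat, Nat.cast_ofNat] at h
    rw [h]
    norm_num
  have hκn : ‖(κ : PadicAlgCl 2)‖ = 1 := by
    apply CT.norm_nat_coprime hn2
    intro h
    rcases hκ with ⟨t, ht⟩
    omega
  have hlast := r_last h2 g hg (κ : PadicAlgCl 2) (σ lamK) hκn (fun b => σ (P b)) (fun b => σ (Q b))
    (by rw [R0])
    (fun b hb => by
      show σ (P (b + 1)) = σ lamK - σ (Q b)
      rw [Rs b hb, map_sub])
    (fun b hb => by
      show (κ : PadicAlgCl 2) * (σ (Q b)) ^ 2 = 4 * σ (P b) * (σ (Q b) - 1)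
      have h := congrArg σ (Rr b hb)
      rw [map_mul, map_pow, map_mul, map_mul, map_sub, map_natCast, map_one, map_ofNat] at h
      exact h)
    (by
      show σ (P g) = (κ : PadicAlgCl 2)
      rw [Rg, map_natCast])
  have hlast' : ‖2 / σ (Q (g - 1)) - 1‖ ^ (2 ^ g) = (1 / 2) ^ (2 ^ g - 1) := hlast
  set L : IntermediateField ℚ_[2] (PadicAlgCl 2) :=
    IntermediateField.adjoin ℚ_[2] ({σ γ} : Set (PadicAlgCl 2)) with hLdef
  have hγL : σ γ ∈ L := IntermediateField.subset_adjoin _ _ rfl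
  have : FiniteDimensional ℚ_[2] L :=
    IntermediateField.adjoin.finiteDimensional (Algebra.IsIntegral.isIntegral _)
  have hlamL : σ lamK ∈ L := by
    rw [hlamγ, map_div₀, map_sub, map_div₀, map_sub, map_one, map_natCast]
    exact div_mem (one_mem _) (sub_mem (natCast_mem _ _) (div_mem (one_mem _) (sub_mem (one_mem _) hγL)))
  have hQL : σ (Q (g - 1)) ∈ L := by
    have h1 := Rs (g - 1) (by omega)
    rw [Nat.sub_add_cancel hg, Rg] at h1
    have h3 : Q (g - 1) = lamK - (κ : algebraicClosure ℚ ℝ) := by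
      rw [h1]
      ring
    rw [h3, map_sub, map_natCast]
    exact sub_mem hlamL (natCast_mem _ _)
  have hωL : (2 : PadicAlgCl 2) / (2 / σ (Q (g - 1)) - 1) ∈ L :=
    div_mem (ofNat_mem _ 2) (sub_mem (div_mem (ofNat_mem _ 2) hQL) (one_mem _))
  have hωn : ‖(2 : PadicAlgCl 2) / (2 / σ (Q (g - 1)) - 1)‖ ^ (2 ^ g) = ((2 : ℕ) : ℝ)⁻¹ := by
    rw [norm_div, div_pow, hlast', h2]
    obtain ⟨t, ht⟩ : ∃ t, 2 ^ g = t + 1 := ⟨2 ^ g - 1, by
      have : 1 ≤ 2 ^ g := Nat.one_le_two_pow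
      omega⟩
    rw [ht, Nat.add_sub_cancel, pow_succ]
    have h5 : ((1 : ℝ) / 2) ^ t ≠ 0 := pow_ne_zero _ (by norm_num)
    rw [mul_div_cancel_left₀ _ h5]
    norm_num
  exact (CT.ram_le L hωL Nat.one_le_two_pow hωn).trans (CT.finrank_le_natDegree σ γ)

end CT3
end

section

/-!
# The upper bound

Let `n = card V`, `m = card (Lab g κ) = 2 g + 2 + κ`, `e = 1/(m - 1/lam)`, `lam > κ + 1`.  We may assume `ε ≤ e/2` (for larger `ε`
the hypothesis is stronger).  Put `a = (e - ε) n`, `s = m a - n`.  `CC H x y` is the complement of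
`CT.nb H {x,y}`, so `|CC H x y| ≤ a`.  `(m - 1/lam) a ≤ n` gives `s ≤ a / lam ≤ a/(10 g + 41)`, and `a ≥ (e/2) n` is large;
`a ≤ n/(m-1)`, so `(κ+1) a + 2 < n` (`m - 1 ≥ κ + 3`), `2 a + 2 < n`.
If some state `st` with distinct entries had `¬ Gad`, then `dyn` and `static_bound` (`c = a/4`) give
`n - (g+1) ≤ (m - 1/lam) (a + 4 n / a) ≤ (1 - ε/e) n + const`, which is false for large `n`.  So all `Gad` hold;
`Sent_of_Gad`.
-/

set_option autoImplicit false

open Finset

namespace CT3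

theorem CC_eq {V : Type} [Fintype V] [DecidableEq V] {H : Finset (Finset V)} (hU : CT.Unif 3 H) {x y : V}
    (hxy : x ≠ y) : CC H x y = univ \ CT.nb H {x, y} := by
  have hset : ∀ w : V, (insert w ({x, y} : Finset V)) = ({x, y, w} : Finset V) := by
    intro w
    ext z
    simp only [mem_insert, mem_singleton]
    tauto
  ext w
  unfold CC CT.nb
  simp only [mem_filter, mem_univ, true_and, mem_sdiff, not_and]
  rw [hset]
  constructor
  · intro h _
    exact h
  · intro h hH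
    refine h ?_ hH
    intro hw
    have h3 := hU _ hH
    have h2 : ({x, y, w} : Finset V) = {x, y} := by
      rw [← hset]
      exact insert_eq_of_mem hw
    rw [h2] at h3
    have := card_le_two (a := x) (b := y)
    omega

theorem upper {g κ : ℕ} (hg : 1 ≤ g) (hκ : 10 * g + 41 ≤ κ) (p : Par g κ) :
    ∀ ε : ℝ, 0 < ε → ∃ n0 : ℕ, ∀ (V : Type) [Fintype V] [DecidableEq V], n0 ≤ Fintype.card V →
      ∀ H : Finset (Finset V), CT.Unif 3 H →
        CT.MinCo 2 H ((1 - p.e + ε) * (Fintype.card V : ℝ)) → Sent g κ H := by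
  intro ε hε
  have hgR : (1 : ℝ) ≤ (g : ℝ) := by exact_mod_cast hg
  have hκR : 10 * (g : ℝ) + 41 ≤ (κ : ℝ) := by exact_mod_cast hκ
  have hlam := p.lam_gt hg
  have hlam0 : 0 < p.lam := by linarith
  have hcard : Fintype.card (Lab g κ) = 2 * g + 2 + κ := card_Lab g κ
  have hm : (Fintype.card (Lab g κ) : ℝ) = 2 * (g : ℝ) + 2 + (κ : ℝ) := by
    rw [hcard]
    push_cast
    ring
  set m : ℝ := (Fintype.card (Lab g κ) : ℝ) with hmdef
  set L : ℝ := 1 / p.lam with hL
  have hL0 : 0 < L := by positivity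
  have hLle : L * (10 * (g : ℝ) + 42) ≤ 1 := by
    rw [hL, one_div_mul_eq_div, div_le_one hlam0]
    linarith
  have hmL : (κ : ℝ) + 3 ≤ m - L := by
    have : L ≤ 1 := by nlinarith
    linarith
  have hmL0 : 0 < m - L := by linarith
  have he : p.e = 1 / (m - L) := rfl
  have he0 : 0 < p.e := by
    rw [he]
    positivity
  have hem : p.e * (m - L) = 1 := by
    rw [he]
    field_simp
  obtain ⟨δ, hδ, hδε, hδe⟩ : ∃ δ : ℝ, 0 < δ ∧ δ ≤ ε ∧ δ ≤ p.e / 2 :=
    ⟨min ε (p.e / 2), lt_min hε (by positivity), min_le_left _ _, min_le_right _ _⟩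
  obtain ⟨n1, hn1⟩ := exists_nat_gt ((20 * (g : ℝ) + 2 * m + 200) * (2 / p.e))
  obtain ⟨n2, hn2⟩ := exists_nat_gt (((g : ℝ) + 1 + 8 * (m - L) ^ 2) / ((m - L) * δ))
  refine ⟨max n1 n2, ?_⟩
  intro V _ _ hV H hU hmin
  set n : ℝ := (Fintype.card V : ℝ) with hn
  have hVn1 : (n1 : ℝ) ≤ n := by
    rw [hn]
    exact_mod_cast (le_max_left n1 n2).trans hV
  have hVn2 : (n2 : ℝ) ≤ n := by
    rw [hn]
    exact_mod_cast (le_max_right n1 n2).trans hV
  have hn1' : (20 * (g : ℝ) + 2 * m + 200) * (2 / p.e) < n := lt_of_lt_of_le hn1 hVn1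
  have hn2' : ((g : ℝ) + 1 + 8 * (m - L) ^ 2) / ((m - L) * δ) < n := lt_of_lt_of_le hn2 hVn2
  have hm0 : 0 < m := by linarith
  have hn0 : 0 < n := lt_trans (by positivity) hn1'
  set a : ℝ := (p.e - δ) * n with ha
  have haL : p.e / 2 * n ≤ a := by
    rw [ha]
    apply mul_le_mul_of_nonneg_right _ hn0.le
    linarith
  have habig : 20 * (g : ℝ) + 2 * m + 200 < a := by
    have h1 : (20 * (g : ℝ) + 2 * m + 200) * (2 / p.e) * (p.e / 2) < n * (p.e / 2) :=
      mul_lt_mul_of_pos_right hn1' (by positivity)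
    have h2 : (20 * (g : ℝ) + 2 * m + 200) * (2 / p.e) * (p.e / 2) =
        20 * (g : ℝ) + 2 * m + 200 := by
      field_simp
    rw [h2] at h1
    linarith
  have ha0 : 0 < a := by linarith
  have hma : (m - L) * a = n - (m - L) * δ * n := by
    rw [ha]
    calc (m - L) * ((p.e - δ) * n) = (p.e * (m - L)) * n - (m - L) * δ * n := by ring
      _ = n - (m - L) * δ * n := by rw [hem, one_mul]
  have hmdn : 0 < (m - L) * δ * n := by positivity
  have hman : (m - L) * a ≤ n := by linarith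
  have hcc : ∀ x y, x ≠ y → ((CC H x y).card : ℝ) ≤ a := by
    intro x y hxy
    have h1 := hmin {x, y} (card_pair hxy)
    rw [CC_eq hU hxy, card_sdiff_of_subset (subset_univ _), card_univ,
      Nat.cast_sub (card_le_univ _), ← hn]
    have h2 : (1 - p.e + δ) * n ≤ (1 - p.e + ε) * n :=
      mul_le_mul_of_nonneg_right (by linarith) hn0.le
    have h3 : n - (1 - p.e + δ) * n = a := by
      rw [ha]
      ring
    linarith
  set s : ℝ := m * a - n with hs
  have hsL : s ≤ L * a := by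
    rw [hs]
    linarith
  have hLa : L * a * (10 * (g : ℝ) + 42) ≤ a := by
    calc L * a * (10 * (g : ℝ) + 42) = a * (L * (10 * (g : ℝ) + 42)) := by ring
      _ ≤ a * 1 := mul_le_mul_of_nonneg_left hLle ha0.le
      _ = a := mul_one a
  have hLa0 : 0 ≤ L * a := by positivity
  have hLag : 0 ≤ L * a * (g : ℝ) := by positivity
  have hLag1 : L * a ≤ L * a * (g : ℝ) := by nlinarith
  have hκa : ((κ : ℝ) + 3) * a ≤ n := (mul_le_mul_of_nonneg_right hmL ha0.le).trans hman
  have hs' : m * a = Fintype.card V + s := by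
    rw [hs, ← hn]
    ring
  have ha2 : 2 * a + 2 < Fintype.card V := by
    rw [← hn]
    nlinarith
  have hak : ((κ : ℝ) + 1) * a + 2 < Fintype.card V := by
    rw [← hn]
    nlinarith
  have hbig : 5 * s + m + 30 ≤ a := by nlinarith
  have hbig2 : a / 4 ≤ (a - s - 1) - ((g : ℝ) + 2) * (4 * s + 5) := by
    have h1 : (4 * (g : ℝ) + 9) * s ≤ (4 * (g : ℝ) + 9) * (L * a) :=
      mul_le_mul_of_nonneg_left hsL (by linarith)
    have h2 : (4 * (g : ℝ) + 9) * (L * a) ≤ a / 2 := by nlinarith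
    nlinarith
  have hbig3 : m + 30 ≤ a := by linarith
  refine Sent_of_Gad (a := a) ha0.le hcc ?_ ?_
  · rw [← hmdef, ← hn]
    have hL2 : L ≤ 1 / 2 := by nlinarith
    nlinarith
  · intro st hst
    by_contra hno
    obtain ⟨X, hX, hcan, hrul, hD⟩ := dyn (a := a) (s := s) hg hU ha0.le hs' hcc ha2 hak hbig hbig2
      hbig3 st hst hno
    have hb := static_bound (a := a) (c := a / 4) p hU hg (by omega) ha0.le (by positivity) hcc hX
      hcan hrul hD
    rw [← hmdef, ← hL, ← hn] at hb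
    have h1 : n / (a / 4) ≤ 8 * (m - L) := by
      rw [div_le_iff₀ (by positivity)]
      have h3 : 8 * (m - L) * (a / 4) = 2 * (m - L) * a := by ring
      rw [h3]
      calc n = p.e * (m - L) * n := by rw [hem, one_mul]
        _ = 2 * (m - L) * (p.e / 2 * n) := by ring
        _ ≤ 2 * (m - L) * a := mul_le_mul_of_nonneg_left haL (by linarith)
    have h2 : (m - L) * (a + n / (a / 4)) ≤ n - (m - L) * δ * n + 8 * (m - L) ^ 2 := by
      rw [mul_add, hma]
      have := mul_le_mul_of_nonneg_left h1 hmL0.le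
      nlinarith
    rw [div_lt_iff₀ (by positivity)] at hn2'
    nlinarith

end CT3
end

section

/-!
# Codegree Turan densities of unbounded algebraic degree for single 3-graphs (MP_63f67f_co, `k = 3`)
-/

set_option autoImplicit false

open Finset

namespace CT3

theorem Par.e_le {g κ : ℕ} (p : Par g κ) (hg : 1 ≤ g) (hκ : 1 ≤ κ) : p.e ≤ 1 := by
  have h1 := p.lam_gt hg
  have h2 : (0 : ℝ) ≤ κ := Nat.cast_nonneg _
  have h3 : 1 / p.lam ≤ 1 := by
    rw [div_le_one (by linarith)]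
    linarith
  have h4 : ((2 * g + 2 + κ : ℕ) : ℝ) - 1 / p.lam ≥ 1 := by
    push_cast
    have : (1 : ℝ) ≤ g := by exact_mod_cast hg
    linarith
  unfold Par.e
  rw [card_Lab, div_le_one (by linarith)]
  exact h4

theorem complete_minCo (n : ℕ) :
    CT.MinCo 2 (powersetCard 3 (univ : Finset (Fin n))) ((n : ℝ) - 2) := by
  intro S hS
  have h1 : CT.nb (powersetCard 3 (univ : Finset (Fin n))) S = Sᶜ := by
    ext v
    simp only [CT.nb, mem_filter, mem_univ, true_and, mem_compl, mem_powersetCard, subset_univ]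
    constructor
    · exact fun h => h.1
    · exact fun h => ⟨h, by rw [card_insert_of_notMem h, hS]⟩
  rw [h1, card_compl, hS, Fintype.card_fin]
  have h2 : n ≤ (n - 2) + 2 := by omega
  have h3 : (n : ℝ) ≤ ((n - 2 : ℕ) : ℝ) + 2 := by exact_mod_cast h2
  linarith

theorem main3 (D : ℕ) :
    ∃ (s : ℕ) (F : Finset (Finset (Fin s))), CT.Unif 3 F ∧
      ∃ γ : ℝ, CT.IsCodegDensity 3 F γ ∧ IsAlgebraic ℚ γ ∧ D ≤ (minpoly ℚ γ).natDegree := by
  classical
  obtain ⟨g, hg, hDg⟩ : ∃ g : ℕ, 1 ≤ g ∧ D ≤ 2 ^ g :=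
    ⟨D + 1, by omega, le_trans (by omega) (Nat.lt_two_pow_self (n := D + 1)).le⟩
  obtain ⟨κ, hκ, hodd⟩ : ∃ κ : ℕ, 10 * g + 41 ≤ κ ∧ Odd κ := ⟨10 * g + 41, le_rfl, ⟨5 * g + 20, by ring⟩⟩
  obtain ⟨p⟩ := exists_par g κ hg (by omega)
  obtain ⟨l⟩ := exists_lpar p hg (by omega)
  have hup := upper hg hκ p
  have he0 : 0 < p.e := p.e_pos hg (by omega)
  have he1 : p.e ≤ 1 := p.e_le hg (by omega)
  have hγ : 0 ≤ 1 - p.e := by linarith
  -- the complete 3-graph satisfies the sentence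
  have hex : ∃ (V : Type) (_ : Fintype V) (_ : DecidableEq V) (H : Finset (Finset V)),
      CT.Unif 3 H ∧ Sent g κ H := by
    obtain ⟨n0, hn0⟩ := hup (p.e / 2) (by linarith)
    obtain ⟨N, hN⟩ := exists_nat_gt (4 / p.e)
    have hN' : 4 < (N : ℝ) * p.e := (div_lt_iff₀ he0).1 hN
    refine ⟨Fin (n0 + N), inferInstance, inferInstance, powersetCard 3 univ, ?_, ?_⟩
    · intro e he
      exact (mem_powersetCard.1 he).2
    · refine hn0 (Fin (n0 + N)) (by simp) _ (fun e he => (mem_powersetCard.1 he).2) ?_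
      intro S hS
      refine le_trans ?_ (complete_minCo (n0 + N) S hS)
      rw [Fintype.card_fin]
      push_cast
      have h1 : (0 : ℝ) ≤ n0 := Nat.cast_nonneg _
      nlinarith [mul_nonneg h1 he0.le]
  obtain ⟨s, F, hF, hiff⟩ := exists_F g κ hex
  refine ⟨s, F, hF, 1 - p.e, ?_, ?_⟩
  · have hcop := CT.copies_of_homs 2 F hF (1 - p.e) hγ (fun ε hε => by
      obtain ⟨n0, hn0⟩ := hup ε hε
      exact ⟨n0, fun V _ _ hV H hH hco => (hiff V H hH).2 (hn0 V hV H hH hco)⟩)
    refine CT.density_of_bounds 2 s F (1 - p.e) hγ (fun ε hε => ?_) (fun ε hε => ?_)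
    · obtain ⟨n0, hn0⟩ := hcop ε hε
      refine ⟨n0, fun n hn H hH hco => hn0 (Fin n) (by simpa using hn) H hH ?_⟩
      rw [Fintype.card_fin]
      exact hco
    · obtain ⟨n0, hn0⟩ := lower l hg (by omega) ε hε
      refine ⟨n0, fun n hn => ?_⟩
      obtain ⟨H, hH, hco, hgood⟩ := hn0 n hn
      refine ⟨H, hH, hco, ?_⟩
      rintro ⟨φ, -, hφ⟩
      exact hgood.not_Sent ((hiff (Fin n) H hH).1 ⟨φ, hφ⟩)
  · obtain ⟨h1, h2⟩ := deg_main p hg hodd (by omega)
    exact ⟨h1, hDg.trans h2⟩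

end CT3
end
end
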